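import Mathlib.Algebra.BigOperators.Group.Finset.Defs
import Mathlib.Data.Real.Basic
import Mathlib.Combinatorics.SimpleGraph.Maps

/-!
The balanced community modulated random recursive tree and its testing problem.
-/

namespace Pool.Agent.MP_ff2ec0_pr

open Classical

/-- Probability that the node `v = (i, type)` attaches to the node `c`.  Times are `0, …, n - 1`;
the two nodes of time `0` are joined to each other (root edge); a node of time `i ≥ 1` picks its
own type with probability `1 - q`, the other type with probability `q`, and then one of the `i`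
existing nodes of the picked type uniformly. -/
noncomputable def stepProb (q : ℝ) {n : ℕ} (v c : Fin n × Bool) : ℝ :=
  if v.1.val = 0 then (if c = (v.1, !v.2) then 1 else 0)
  else if c.1 < v.1 then (if c.2 = v.2 then 1 - q else q) / (v.1.val : ℝ) else 0

/-- The tree with an edge between each node and the node it attached to. -/
def tree {n : ℕ} (p : Fin n × Bool → Fin n × Bool) : SimpleGraph (Fin n × Bool) :=
  SimpleGraph.fromRel (fun u v => p u = v)

/-- Probability that the tree `T_n` of BCMRT(q) has the property `E`. -/
noncomputable def prob (q : ℝ) (n : ℕ) (E : SimpleGraph (Fin n × Bool) → Prop) : ℝ :=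
  ∑ p : Fin n × Bool → Fin n × Bool, if E (tree p) then ∏ v, stepProb q v (p v) else 0

/-- Risk of a test; the answer `true` means `q₁` and `false` means `q₀`. -/
noncomputable def risk (q₀ q₁ : ℝ) (n : ℕ) (φ : SimpleGraph (Fin n × Bool) → Bool) : ℝ :=
  (prob q₀ n (fun G => φ G = true) + prob q₁ n (fun G => φ G = false)) / 2

/-- The test depends only on the isomorphism class of the graph with its root edge. -/
def RootedInvariant {n : ℕ} (φ : SimpleGraph (Fin n × Bool) → Bool) : Prop :=
  ∀ (G G' : SimpleGraph (Fin n × Bool)) (f : G ≃g G'),
    (∀ v, (f v).1.val = 0 ↔ v.1.val = 0) → φ G = φ G'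

/-- The test depends only on the isomorphism class of the graph. -/
def UnrootedInvariant {n : ℕ} (φ : SimpleGraph (Fin n × Bool) → Bool) : Prop :=
  ∀ (G G' : SimpleGraph (Fin n × Bool)), Nonempty (G ≃g G') → φ G = φ G'

end Pool.Agent.MP_ff2ec0_pr
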