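import Mathlib.Data.Fintype.Fin
import Mathlib.Algebra.BigOperators.Field
import Mathlib.Data.Fintype.Perm
import Mathlib.Tactic.LinearCombination
import Mathlib.Topology.Sheaves.Presheaf
import Mathlib.Algebra.Order.Ring.Star
import Mathlib.Analysis.Normed.Field.Basic
import Mathlib.Tactic.Bound
import Mathlib.Analysis.Complex.Exponential
import Mathlib.Algebra.Order.Star.Real
import Mathlib.Combinatorics.SimpleGraph.Connectivity.Finite
import Mathlib.RingTheory.PiTensorProduct
import Mathlib.Tactic.Algebra.Basic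
import Pool.Agent.MP_ff2ec0_pr.Defs

-- ======== part 0: formerly Pool.Agent.MP_ff2ec0_pr.Forest
section MrgPart0

/-!
The forest of edges inside one block of arrivals, and a group of automorphisms of it.
-/

namespace Pool.Agent.MP_ff2ec0_pr

open Finset Function

variable {ℓ : ℕ}

/-- Parents inside the block are older. -/
def FValid (Φ : Fin ℓ × Bool → Option (Fin ℓ × Bool)) : Prop :=
  ∀ v u, Φ v = some u → u.1 < v.1

/-- Root of the component of `v`. -/
def root (Φ : Fin ℓ × Bool → Option (Fin ℓ × Bool)) (v : Fin ℓ × Bool) : Fin ℓ × Bool :=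
  match Φ v with
  | none => v
  | some u => if u.1 < v.1 then root Φ u else v
termination_by v.1.val

variable {Φ : Fin ℓ × Bool → Option (Fin ℓ × Bool)}

lemma root_none {v : Fin ℓ × Bool} (h : Φ v = none) : root Φ v = v := by
  rw [root, h]

lemma root_some (hΦ : FValid Φ) {v u : Fin ℓ × Bool} (h : Φ v = some u) :
    root Φ v = root Φ u := by
  rw [root, h]
  simp only [hΦ v u h, if_true]

lemma forest_induction (hΦ : FValid Φ) {P : Fin ℓ × Bool → Prop}
    (h0 : ∀ v, Φ v = none → P v) (h1 : ∀ v u, Φ v = some u → P u → P v) (v : Fin ℓ × Bool) :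
    P v := by
  suffices h : ∀ m : ℕ, ∀ v : Fin ℓ × Bool, v.1.val = m → P v from h _ v rfl
  intro m
  induction m using Nat.strong_induction_on with
  | _ m ih =>
    intro v hv
    cases h : Φ v with
    | none => exact h0 v h
    | some u => exact h1 v u h (ih _ (by rw [← hv]; exact hΦ v u h) u rfl)

lemma phi_root (hΦ : FValid Φ) (v : Fin ℓ × Bool) : Φ (root Φ v) = none := by
  induction v using forest_induction hΦ with
  | h0 v h => rw [root_none h, h]
  | h1 v u h ih => rw [root_some hΦ h, ih]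

lemma root_comm (hΦ : FValid Φ) {γ : Fin ℓ × Bool → Fin ℓ × Bool}
    (hγ : ∀ v, Φ (γ v) = (Φ v).map γ) (v : Fin ℓ × Bool) : root Φ (γ v) = γ (root Φ v) := by
  induction v using forest_induction hΦ with
  | h0 v h => rw [root_none h, root_none (by rw [hγ, h]; rfl)]
  | h1 v u h ih => rw [root_some hΦ h, root_some hΦ (show Φ (γ v) = some (γ u) by
      rw [hγ, h]; rfl), ih]

/-- An injective numbering of the slots. -/
noncomputable def enc (v : Fin ℓ × Bool) : ℕ := (Fintype.equivFin (Fin ℓ × Bool) v).val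

lemma enc_injective : Injective (enc (ℓ := ℓ)) := fun _ _ h =>
  (Fintype.equivFin _).injective (Fin.ext h)

/-- Position of `v` inside its component. -/
noncomputable def pos (Φ : Fin ℓ × Bool → Option (Fin ℓ × Bool)) (v : Fin ℓ × Bool) : ℕ :=
  (univ.filter fun u => root Φ u = root Φ v ∧ enc u < enc v).card

lemma pos_lt_pos {u v : Fin ℓ × Bool} (h : root Φ u = root Φ v) (h' : enc u < enc v) :
    pos Φ u < pos Φ v := by
  apply Finset.card_lt_card
  refine ⟨fun w hw => ?_, fun hs => ?_⟩
  · simp only [mem_filter, mem_univ, true_and] at hw ⊢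
    exact ⟨hw.1.trans h, hw.2.trans h'⟩
  · have : u ∈ univ.filter fun w => root Φ w = root Φ v ∧ enc w < enc v := by simp [h, h']
    simpa using hs this

lemma eq_of_root_pos {u v : Fin ℓ × Bool} (h : root Φ u = root Φ v) (h' : pos Φ u = pos Φ v) :
    u = v := by
  rcases lt_trichotomy (enc u) (enc v) with h1 | h1 | h1
  · exact absurd h' (pos_lt_pos h h1).ne
  · exact enc_injective h1
  · exact absurd h' (pos_lt_pos h.symm h1).ne'

lemma pos_lt_card (v : Fin ℓ × Bool) :
    pos Φ v < (univ.filter fun u => root Φ u = root Φ v).card := by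
  apply Finset.card_lt_card
  refine ⟨fun w hw => ?_, fun hs => ?_⟩
  · simp only [mem_filter, mem_univ, true_and] at hw ⊢
    exact hw.1
  · have : v ∈ univ.filter fun w => root Φ w = root Φ v := by simp
    simpa using hs this

/-- The shape of the component of a root. -/
noncomputable def code (Φ : Fin ℓ × Bool → Option (Fin ℓ × Bool)) (r : Fin ℓ × Bool) :
    Option (Finset (ℕ × Option ℕ)) :=
  if Φ r = none then
    some ((univ.filter fun u => root Φ u = r).image fun u => (pos Φ u, (Φ u).map (pos Φ)))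
  else none

/-- Automorphisms of the forest that keep the shape codes. -/
noncomputable def Gam (Φ : Fin ℓ × Bool → Option (Fin ℓ × Bool)) :
    Finset (Equiv.Perm (Fin ℓ × Bool)) :=
  univ.filter fun γ => (∀ v, Φ (γ v) = (Φ v).map γ) ∧ ∀ v, code Φ (γ v) = code Φ v

lemma mem_Gam {γ : Equiv.Perm (Fin ℓ × Bool)} :
    γ ∈ Gam Φ ↔ (∀ v, Φ (γ v) = (Φ v).map γ) ∧ ∀ v, code Φ (γ v) = code Φ v := by
  simp [Gam]

lemma one_mem_Gam : (1 : Equiv.Perm (Fin ℓ × Bool)) ∈ Gam Φ := by
  rw [mem_Gam]; simp

lemma mul_mem_Gam {γ δ : Equiv.Perm (Fin ℓ × Bool)} (hγ : γ ∈ Gam Φ) (hδ : δ ∈ Gam Φ) :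
    γ * δ ∈ Gam Φ := by
  rw [mem_Gam] at *
  refine ⟨fun v => ?_, fun v => ?_⟩
  · rw [Equiv.Perm.mul_apply, hγ.1, hδ.1, Option.map_map]; rfl
  · rw [Equiv.Perm.mul_apply, hγ.2, hδ.2]

lemma inv_mem_Gam {γ : Equiv.Perm (Fin ℓ × Bool)} (hγ : γ ∈ Gam Φ) : γ⁻¹ ∈ Gam Φ := by
  rw [mem_Gam] at *
  refine ⟨fun v => ?_, fun v => ?_⟩
  · have := hγ.1 (γ⁻¹ v)
    rw [Equiv.Perm.inv_def, Equiv.apply_symm_apply] at this
    rw [this, Option.map_map]
    simp
  · have := hγ.2 (γ⁻¹ v)
    rw [Equiv.Perm.inv_def, Equiv.apply_symm_apply] at this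
    exact this.symm

lemma card_Gam_pos : 0 < (Gam Φ).card := Finset.card_pos.2 ⟨1, one_mem_Gam⟩

lemma exists_perm_of_fibers {X L : Type*} [Fintype X] [DecidableEq L] (f g : X → L)
    (h : ∀ l, (univ.filter fun x => f x = l).card = (univ.filter fun x => g x = l).card) :
    ∃ π : Equiv.Perm X, ∀ x, g (π x) = f x := by
  have e : ∀ l, {x // f x = l} ≃ {x // g x = l} := fun l =>
    Fintype.equivOfCardEq (by rw [Fintype.card_subtype, Fintype.card_subtype]; exact h l)
  exact ⟨Equiv.ofFiberEquiv e, fun x => Equiv.ofFiberEquiv_map e x⟩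

lemma exists_Gam_of_perm (hΦ : FValid Φ) (π : Equiv.Perm (Fin ℓ × Bool))
    (hπ : ∀ v, code Φ (π v) = code Φ v) :
    ∃ δ ∈ Gam Φ, ∀ r, Φ r = none → δ r = π r := by
  have hex : ∀ v, ∃ w, root Φ w = π (root Φ v) ∧ pos Φ w = pos Φ v ∧
      (Φ w).map (pos Φ) = (Φ v).map (pos Φ) := by
    intro v
    have h1 := hπ (root Φ v)
    unfold code at h1
    rw [if_pos (phi_root hΦ v)] at h1
    split_ifs at h1 with h2
    have h3 := Option.some.inj h1
    have h4 : (pos Φ v, (Φ v).map (pos Φ)) ∈ (univ.filter fun u => root Φ u = root Φ v).image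
        fun u => (pos Φ u, (Φ u).map (pos Φ)) := mem_image_of_mem _ (by simp)
    rw [← h3] at h4
    obtain ⟨w, hw, he⟩ := mem_image.1 h4
    exact ⟨w, (mem_filter.1 hw).2, congrArg Prod.fst he, congrArg Prod.snd he⟩
  choose δ h1 h2 h3 using hex
  have hinj : Injective δ := by
    intro v v' he
    apply eq_of_root_pos (Φ := Φ)
    · apply π.injective; rw [← h1, ← h1, he]
    · rw [← h2, ← h2 v', he]
  have hcomm : ∀ v, Φ (δ v) = (Φ v).map δ := by
    intro v
    have := h3 v
    cases h : Φ v with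
    | none => rw [h] at this; simpa using this
    | some u =>
      rw [h] at this
      cases h' : Φ (δ v) with
      | none => rw [h'] at this; simp at this
      | some u' =>
        rw [h'] at this
        simp only [Option.map_some, Option.some.injEq] at this ⊢
        apply eq_of_root_pos (Φ := Φ)
        · rw [← root_some hΦ h', h1, h1, root_some hΦ h]
        · rw [this, h2]
  have hroot : ∀ r, Φ r = none → δ r = π r := by
    intro r hr
    have : Φ (δ r) = none := by rw [hcomm, hr]; rfl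
    rw [← root_none this, h1, root_none hr]
  refine ⟨Equiv.ofBijective δ (Finite.injective_iff_bijective.1 hinj), ?_, hroot⟩
  rw [mem_Gam]
  refine ⟨hcomm, fun v => ?_⟩
  change code Φ (δ v) = code Φ v
  by_cases hv : Φ v = none
  · rw [hroot v hv, hπ]
  · have : Φ (δ v) ≠ none := by rw [hcomm]; simpa using hv
    simp [code, hv, this]

/-- Composition of a set with respect to a colouring. -/
def compo {X K : Type*} [DecidableEq K] (c : X → K) (O : Finset X) (κ : K) : ℕ :=
  (O.filter fun x => c x = κ).card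

lemma exists_Gam_image (hΦ : FValid Φ) {O O' : Finset (Fin ℓ × Bool)} (hO : ∀ r ∈ O, Φ r = none)
    (h : compo (code Φ) O = compo (code Φ) O') : ∃ δ ∈ Gam Φ, O.image δ = O' := by
  obtain ⟨π, hπ⟩ := exists_perm_of_fibers (fun x => (code Φ x, decide (x ∈ O)))
    (fun x => (code Φ x, decide (x ∈ O'))) (by
      rintro ⟨κ, b⟩
      have key : ∀ O : Finset (Fin ℓ × Bool),
          (univ.filter fun x => (code Φ x, decide (x ∈ O)) = (κ, true)).card =
            compo (code Φ) O κ := by
        intro O; unfold compo; congr 1; ext x; simp [and_comm]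
      have key2 : ∀ O : Finset (Fin ℓ × Bool),
          (univ.filter fun x => (code Φ x, decide (x ∈ O)) = (κ, false)).card +
            compo (code Φ) O κ = (univ.filter fun x => code Φ x = κ).card := by
        intro O
        rw [← Finset.card_filter_add_card_filter_not (s := univ.filter fun x => code Φ x = κ)
          (fun x => x ∉ O)]
        unfold compo
        congr 2
        · ext x; simp
        · ext x; simp [and_comm]
      cases b
      · have a1 := key2 O
        have a2 := key2 O'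
        rw [h] at a1
        omega
      · rw [key, key, h])
  obtain ⟨δ, hδ, hδπ⟩ := exists_Gam_of_perm hΦ π (fun v => congrArg Prod.fst (hπ v))
  refine ⟨δ, hδ, ?_⟩
  have hmem : ∀ x, π x ∈ O' ↔ x ∈ O := fun x => by simpa using congrArg Prod.snd (hπ x)
  ext y
  rw [mem_image]
  constructor
  · rintro ⟨x, hx, rfl⟩
    rw [hδπ x (hO x hx)]; exact (hmem x).2 hx
  · intro hy
    have hx : π⁻¹ y ∈ O := by rw [← hmem]; simpa using hy
    exact ⟨π⁻¹ y, hx, by rw [hδπ _ (hO _ hx)]; simp⟩

lemma compo_image_Gam {γ : Equiv.Perm (Fin ℓ × Bool)} (hγ : γ ∈ Gam Φ)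
    (O : Finset (Fin ℓ × Bool)) : compo (code Φ) (O.image γ) = compo (code Φ) O := by
  ext κ
  unfold compo
  rw [Finset.filter_image, Finset.card_image_of_injective _ γ.injective]
  simp only [(mem_Gam.1 hγ).2]

/-- Orbit counting. -/
lemma orbit_bound {G X : Type*} [DecidableEq X] (Γ : Finset G) (act : G → X) (x' : X) (C : Finset X)
    (hC : ∀ x ∈ C, ∃ m : G → G, Injective m ∧ ∀ γ ∈ Γ, act γ = x' → m γ ∈ Γ ∧ act (m γ) = x) :
    (Γ.filter fun γ => act γ = x').card * C.card ≤ Γ.card := by
  have h1 : ∀ x ∈ C, (Γ.filter fun γ => act γ = x').card ≤ (Γ.filter fun γ => act γ = x).card := by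
    intro x hx
    obtain ⟨m, hm, hm'⟩ := hC x hx
    apply Finset.card_le_card_of_injOn m
    · intro γ hγ
      simp only [coe_filter, Set.mem_ofPred_eq] at hγ ⊢
      exact hm' γ hγ.1 hγ.2
    · exact hm.injOn
  calc _ = ∑ x ∈ C, (Γ.filter fun γ => act γ = x').card := by simp [mul_comm]
    _ ≤ ∑ x ∈ C, (Γ.filter fun γ => act γ = x).card := Finset.sum_le_sum h1
    _ = (Γ.filter fun γ => act γ ∈ C).card := by
        rw [Finset.card_eq_sum_card_fiberwise (f := act) (s := Γ.filter fun γ => act γ ∈ C)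
          (t := C) (fun γ hγ => by simpa using (mem_filter.1 hγ).2)]
        refine Finset.sum_congr rfl fun x hx => ?_
        congr 1
        ext γ
        simp only [mem_filter]
        constructor
        · rintro ⟨h1, h2⟩; exact ⟨⟨h1, h2 ▸ hx⟩, h2⟩
        · rintro ⟨⟨h1, _⟩, h2⟩; exact ⟨h1, h2⟩
    _ ≤ Γ.card := Finset.card_filter_le _ _

end Pool.Agent.MP_ff2ec0_pr

end MrgPart0

-- ======== part 1: formerly Pool.Agent.MP_ff2ec0_pr.Count
section MrgPart1

/-!
Counting sets with a given composition.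
-/

namespace Pool.Agent.MP_ff2ec0_pr

open Finset Function

variable {X K L : Type*} [Fintype X] [DecidableEq X] [DecidableEq K] [DecidableEq L]

omit [Fintype X] in
lemma exists_between (c : X → K) (B R : Finset X) (hBR : B ⊆ R) (k : K → ℕ)
    (h1 : ∀ κ, compo c B κ ≤ k κ) (h2 : ∀ κ, k κ ≤ compo c R κ) :
    ∃ O, B ⊆ O ∧ O ⊆ R ∧ compo c O = k := by
  have : ∀ κ, ∃ T, (B.filter fun x => c x = κ) ⊆ T ∧ T ⊆ (R.filter fun x => c x = κ) ∧
      T.card = k κ := fun κ =>
    Finset.exists_subsuperset_card_eq (Finset.filter_subset_filter _ hBR) (h1 κ) (h2 κ)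
  choose T hT1 hT2 hT3 using this
  refine ⟨R.filter fun x => x ∈ T (c x), ?_, Finset.filter_subset _ _, ?_⟩
  · intro x hx
    exact mem_filter.2 ⟨hBR hx, hT1 _ (mem_filter.2 ⟨hx, rfl⟩)⟩
  · ext κ
    rw [← hT3 κ]
    unfold compo
    congr 1
    ext x
    simp only [mem_filter]
    constructor
    · rintro ⟨⟨_, h⟩, rfl⟩; exact h
    · intro h
      have := mem_filter.1 (hT2 κ h)
      exact ⟨⟨this.1, this.2 ▸ h⟩, this.2⟩

omit [Fintype X] [DecidableEq X] in
lemma compo_mono (c : X → K) {A B : Finset X} (h : A ⊆ B) (κ : K) : compo c A κ ≤ compo c B κ :=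
  Finset.card_le_card (Finset.filter_subset_filter _ h)

omit [Fintype X] in
lemma compo_union_le (c : X → K) (A B : Finset X) (κ : K) :
    compo c (A ∪ B) κ ≤ compo c A κ + compo c B κ := by
  unfold compo
  rw [Finset.filter_union]
  exact Finset.card_union_le _ _

omit [Fintype X] in
lemma compo_add_le (c : X → K) {A B O : Finset X} (hA : A ⊆ O) (hB : B ⊆ O) (hd : Disjoint A B)
    (κ : K) : compo c A κ + compo c B κ ≤ compo c O κ := by
  refine le_trans (le_of_eq ?_) (compo_mono c (Finset.union_subset hA hB) κ)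
  unfold compo
  rw [Finset.filter_union, Finset.card_union_of_disjoint (Finset.disjoint_filter_filter hd)]

omit [Fintype X] [DecidableEq X] in
lemma card_eq_of_compo (c : X → K) {A B : Finset X} (h : compo c A = compo c B) :
    A.card = B.card := by
  classical
  rw [Finset.card_eq_sum_card_fiberwise (f := c) (s := A) (t := (A ∪ B).image c)
      (fun x hx => by simpa using ⟨x, Or.inl hx, rfl⟩),
    Finset.card_eq_sum_card_fiberwise (f := c) (s := B) (t := (A ∪ B).image c)
      (fun x hx => by simpa using ⟨x, Or.inr hx, rfl⟩)]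
  exact Finset.sum_congr rfl fun κ _ => congrFun h κ

omit [Fintype X] [DecidableEq X] in
lemma card_image_compo [DecidableEq (K → ℕ)] (c : X → K) (𝒦 : Finset K) (m : ℕ)
    (F : Finset (Finset X)) (hF : ∀ O ∈ F, O.card = m ∧ ∀ x ∈ O, c x ∈ 𝒦) :
    (F.image (compo c)).card ≤ 𝒦.card ^ m := by
  classical
  have : F.image (compo c) ⊆ (Fintype.piFinset fun _ : Fin m => 𝒦).image
      (fun f κ => (univ.filter fun i => f i = κ).card) := by
    intro k hk
    obtain ⟨O, hO, rfl⟩ := mem_image.1 hk
    let e := Finset.equivFinOfCardEq (hF O hO).1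
    refine mem_image.2 ⟨fun i => c (e.symm i), ?_, ?_⟩
    · exact Fintype.mem_piFinset.2 fun i => (hF O hO).2 _ (e.symm i).2
    · ext κ
      unfold compo
      apply Finset.card_bij (fun i _ => (e.symm i : X))
      · intro i hi
        exact mem_filter.2 ⟨(e.symm i).2, (mem_filter.1 hi).2⟩
      · intro i _ j _ h
        exact e.symm.injective (Subtype.ext h)
      · intro x hx
        refine ⟨e ⟨x, (mem_filter.1 hx).1⟩, ?_, by simp⟩
        simpa using (mem_filter.1 hx).2
  refine le_trans (Finset.card_le_card this) (le_trans Finset.card_image_le ?_)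
  simp

lemma exists_halves (lab : X → L) (O : Finset X)
    (hO : ∀ x ∈ O, ∃ y ∈ O, y ≠ x ∧ lab y = lab x) :
    ∃ A B : Finset X, A ⊆ O ∧ B ⊆ O ∧ Disjoint A B ∧
      (∀ x ∈ O, ∃ a ∈ A, lab x = lab a) ∧ (∀ x ∈ O, ∃ b ∈ B, lab x = lab b) := by
  let e : X → ℕ := fun x => (Fintype.equivFin X x).val
  have he : Injective e := fun _ _ h => (Fintype.equivFin _).injective (Fin.ext h)
  refine ⟨O.filter fun x => ∀ y ∈ O, lab y = lab x → e x ≤ e y,
    O.filter fun x => ∀ y ∈ O, lab y = lab x → e y ≤ e x, Finset.filter_subset _ _,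
    Finset.filter_subset _ _, ?_, ?_, ?_⟩
  · rw [Finset.disjoint_left]
    intro x h1 h2
    obtain ⟨y, hy, hne, hl⟩ := hO x (mem_filter.1 h1).1
    exact hne (he (le_antisymm ((mem_filter.1 h2).2 y hy hl) ((mem_filter.1 h1).2 y hy hl)))
  · intro x hx
    obtain ⟨a, ha, hmin⟩ := Finset.exists_min_image (O.filter fun y => lab y = lab x) e
      ⟨x, mem_filter.2 ⟨hx, rfl⟩⟩
    refine ⟨a, mem_filter.2 ⟨(mem_filter.1 ha).1, fun y hy hl => hmin y
      (mem_filter.2 ⟨hy, hl.trans (mem_filter.1 ha).2⟩)⟩, (mem_filter.1 ha).2.symm⟩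
  · intro x hx
    obtain ⟨a, ha, hmin⟩ := Finset.exists_max_image (O.filter fun y => lab y = lab x) e
      ⟨x, mem_filter.2 ⟨hx, rfl⟩⟩
    refine ⟨a, mem_filter.2 ⟨(mem_filter.1 ha).1, fun y hy hl => hmin y
      (mem_filter.2 ⟨hy, hl.trans (mem_filter.1 ha).2⟩)⟩, (mem_filter.1 ha).2.symm⟩

lemma class_sq_le [DecidableEq (K → ℕ)] (c : X → K) (lab : X → L) (D : ℕ)
    (hD : ∀ x, (univ.filter fun y => lab y = lab x).card ≤ D) (R : Finset X)
    (E : Finset (Finset X))
    (hE : ∀ O ∈ E, O ⊆ R ∧ ∀ x ∈ O, ∃ y ∈ O, y ≠ x ∧ lab y = lab x) (O0 : Finset X)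
    (hO0 : O0 ⊆ R) :
    (E.filter fun O => compo c O = compo c O0).card ^ 2 ≤
      (16 * 4 ^ D) ^ O0.card * (R.powerset.filter fun O => compo c O = compo c O0).card := by
  have hex : ∀ O ∈ E, ∃ A B : Finset X, A ⊆ O ∧ B ⊆ O ∧ Disjoint A B ∧
      (∀ x ∈ O, ∃ a ∈ A, lab x = lab a) ∧ (∀ x ∈ O, ∃ b ∈ B, lab x = lab b) := fun O hO =>
    exists_halves lab O (hE O hO).2
  choose! A B hA hB hAB hA' hB' using hex
  set k := O0.card with hk
  set F := E.filter fun O => compo c O = compo c O0 with hF
  set Cl := R.powerset.filter fun O => compo c O = compo c O0 with hCl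
  let N : Finset X → Finset X := fun A => A.biUnion fun a => univ.filter fun y => lab y = lab a
  have hN : ∀ A : Finset X, A.card ≤ k → (N A).powerset.card ≤ 2 ^ (D * k) := by
    intro A hA
    rw [card_powerset]
    apply Nat.pow_le_pow_right (by norm_num)
    refine le_trans (Finset.card_biUnion_le_card_mul _ _ D fun a _ => hD a) ?_
    rw [mul_comm]; exact Nat.mul_le_mul_left _ hA
  set Bnd := (4 * 4 ^ D) ^ k * Cl.card with hBnd
  have hfib : ∀ τ ∈ F.image (fun O => compo c (A O)),
      (F.filter fun O => compo c (A O) = τ).card ≤ Nat.sqrt Bnd := by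
    intro τ _
    rw [Nat.le_sqrt', sq, ← card_product]
    have hsub : (F.filter fun O => compo c (A O) = τ) ×ˢ (F.filter fun O => compo c (A O) = τ) ⊆
        Cl.biUnion fun O => (O.powerset ×ˢ O.powerset).biUnion fun AB =>
          (N AB.1).powerset ×ˢ (N AB.2).powerset := by
      rintro ⟨O1, O2⟩ h
      simp only [mem_product, mem_filter, hF] at h
      obtain ⟨⟨⟨h1, h1c⟩, h1τ⟩, ⟨h2, h2c⟩, h2τ⟩ := h
      obtain ⟨O, hO1, hO2, hO3⟩ := exists_between c (A O1 ∪ B O2) R
        (Finset.union_subset ((hA O1 h1).trans (hE O1 h1).1) ((hB O2 h2).trans (hE O2 h2).1))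
        (compo c O0) (fun κ => by
          refine le_trans (compo_union_le c _ _ κ) ?_
          rw [h1τ, ← h2τ, ← h2c]
          exact compo_add_le c (hA O2 h2) (hB O2 h2) (hAB O2 h2) κ) (compo_mono c hO0)
      refine mem_biUnion.2 ⟨O, mem_filter.2 ⟨mem_powerset.2 hO2, hO3⟩, mem_biUnion.2
        ⟨(A O1, B O2), ?_, ?_⟩⟩
      · simp only [mem_product, mem_powerset]
        exact ⟨subset_union_left.trans hO1, subset_union_right.trans hO1⟩
      · simp only [mem_product, mem_powerset]
        constructor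
        · intro x hx
          obtain ⟨a, ha, hl⟩ := hA' O1 h1 x hx
          exact mem_biUnion.2 ⟨a, ha, by simpa using hl⟩
        · intro x hx
          obtain ⟨a, ha, hl⟩ := hB' O2 h2 x hx
          exact mem_biUnion.2 ⟨a, ha, by simpa using hl⟩
    refine le_trans (Finset.card_le_card hsub) ?_
    rw [hBnd, mul_comm]
    apply Finset.card_biUnion_le_card_mul
    intro O hO
    have hOk : O.card = k := card_eq_of_compo c (mem_filter.1 hO).2
    refine le_trans (Finset.card_biUnion_le_card_mul _ _ (2 ^ (D * k) * 2 ^ (D * k)) ?_) ?_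
    · rintro ⟨A', B'⟩ h
      simp only [mem_product, mem_powerset] at h
      rw [card_product]
      exact Nat.mul_le_mul (hN _ (hOk ▸ card_le_card h.1)) (hN _ (hOk ▸ card_le_card h.2))
    · rw [card_product, card_powerset, hOk, mul_pow, ← pow_mul, ← mul_pow, ← mul_pow]
      norm_num
  have htypes : (F.image fun O => compo c (A O)).card ≤ 2 ^ k := by
    rw [hk, ← card_powerset]
    refine le_trans (Finset.card_le_card (t := O0.powerset.image (compo c)) ?_) card_image_le
    intro τ hτ
    obtain ⟨O, hO, rfl⟩ := mem_image.1 hτ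
    obtain ⟨h1, h2⟩ := mem_filter.1 hO
    obtain ⟨T, _, hT2, hT3⟩ := exists_between c ∅ O0 (empty_subset _) (compo c (A O))
      (fun κ => by simp [compo]) (fun κ => by rw [← h2]; exact compo_mono c (hA O h1) κ)
    exact mem_image.2 ⟨T, mem_powerset.2 hT2, hT3⟩
  have h1 := Finset.card_le_mul_card_image F (Nat.sqrt Bnd) hfib
  calc F.card ^ 2 ≤ (Nat.sqrt Bnd * 2 ^ k) ^ 2 :=
        Nat.pow_le_pow_left (le_trans h1 (Nat.mul_le_mul_left _ htypes)) 2
    _ ≤ Bnd * 4 ^ k := by
        rw [mul_pow, ← pow_mul, mul_comm k 2, pow_mul]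
        exact Nat.mul_le_mul_right _ (Nat.sqrt_le' _)
    _ = _ := by
        rw [hBnd, show 16 * 4 ^ D = (4 * 4 ^ D) * 4 by ring, mul_pow (4 * 4 ^ D)]; ring

lemma xi_bound [DecidableEq (K → ℕ)] (c : X → K) (lab : X → L) (D : ℕ)
    (hD : ∀ x, (univ.filter fun y => lab y = lab x).card ≤ D) (R : Finset X) (𝒦 : Finset K)
    (h𝒦 : ∀ x ∈ R, c x ∈ 𝒦) (E : Finset (Finset X))
    (hE : ∀ O ∈ E, O ⊆ R ∧ ∀ x ∈ O, ∃ y ∈ O, y ≠ x ∧ lab y = lab x) (b : ℝ) (hb : 0 ≤ b)
    (s : ℝ) (hs : (𝒦.card : ℝ) ≤ s) (hsb : s * (16 * 4 ^ D) * b ≤ 1 / 2) :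
    ∑ O ∈ E, b ^ O.card * (E.filter fun O' => compo c O' = compo c O).card /
      (R.powerset.filter fun O' => compo c O' = compo c O).card ≤
      1 + 2 * (s * (16 * 4 ^ D) * b) ^ 2 := by
  set x : ℝ := 16 * 4 ^ D * b with hx
  have hx0 : 0 ≤ x := by positivity
  have hs0 : 0 ≤ s := le_trans (by positivity) hs
  have h1 : ∀ O ∈ E, b ^ O.card * (E.filter fun O' => compo c O' = compo c O).card /
      (R.powerset.filter fun O' => compo c O' = compo c O).card ≤
      x ^ O.card / (E.filter fun O' => compo c O' = compo c O).card := by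
    intro O hO
    have h2 := class_sq_le c lab D hD R E hE O (hE O hO).1
    have h3 : 0 < (E.filter fun O' => compo c O' = compo c O).card :=
      card_pos.2 ⟨O, mem_filter.2 ⟨hO, rfl⟩⟩
    have h4 : 0 < (R.powerset.filter fun O' => compo c O' = compo c O).card :=
      card_pos.2 ⟨O, mem_filter.2 ⟨mem_powerset.2 (hE O hO).1, rfl⟩⟩
    rw [div_le_div_iff₀ (by exact_mod_cast h4) (by exact_mod_cast h3), hx, mul_pow]
    have h5 : ((E.filter fun O' => compo c O' = compo c O).card : ℝ) ^ 2 ≤
      (16 * 4 ^ D) ^ O.card * (R.powerset.filter fun O' => compo c O' = compo c O).card := by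
      exact_mod_cast h2
    have h6 : 0 ≤ b ^ O.card := by positivity
    nlinarith
  refine le_trans (Finset.sum_le_sum h1) ?_
  rw [← Finset.sum_fiberwise_of_maps_to (s := E) (t := range (Fintype.card X + 1))
    (g := Finset.card) (fun O _ => mem_range.2 (Nat.lt_succ_of_le (card_le_univ O)))]
  have h2 : ∀ m, ∑ O ∈ E.filter (fun O => O.card = m),
      x ^ O.card / (E.filter fun O' => compo c O' = compo c O).card ≤
      if m = 1 then 0 else (s * x) ^ m := by
    intro m
    split_ifs with hm
    · refine le_of_eq (Finset.sum_eq_zero fun O hO => ?_)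
      exfalso
      obtain ⟨hO1, hO2⟩ := mem_filter.1 hO
      obtain ⟨a, rfl⟩ := Finset.card_eq_one.1 (hO2.trans hm)
      obtain ⟨y, hy, hne, _⟩ := (hE _ hO1).2 a (mem_singleton_self a)
      exact hne (mem_singleton.1 hy)
    · rw [← Finset.sum_fiberwise_of_maps_to (s := E.filter (fun O => O.card = m))
        (t := (E.filter (fun O => O.card = m)).image (compo c)) (g := compo c)
        (fun O hO => mem_image_of_mem _ hO)]
      refine le_trans (Finset.sum_le_card_nsmul _ _ (x ^ m) ?_) ?_
      · intro k hk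
        have e1 : ∀ O ∈ (E.filter (fun O => O.card = m)).filter (fun O => compo c O = k),
            x ^ O.card / (E.filter fun O' => compo c O' = compo c O).card =
            x ^ m / (E.filter fun O' => compo c O' = k).card := by
          intro O hO
          rw [(mem_filter.1 hO).2, (mem_filter.1 (mem_filter.1 hO).1).2]
        rw [Finset.sum_congr rfl e1, Finset.sum_const, nsmul_eq_mul, ← mul_div_assoc]
        apply div_le_of_le_mul₀ (by positivity) (by positivity)
        rw [mul_comm]
        apply mul_le_mul_of_nonneg_left _ (by positivity)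
        exact_mod_cast card_le_card (Finset.filter_subset_filter _ (Finset.filter_subset _ _))
      · rw [nsmul_eq_mul, mul_pow s x]
        apply mul_le_mul_of_nonneg_right _ (by positivity)
        have := card_image_compo c 𝒦 m (E.filter (fun O => O.card = m)) (fun O hO =>
          ⟨(mem_filter.1 hO).2, fun x hx => h𝒦 x ((hE O (mem_filter.1 hO).1).1 hx)⟩)
        refine le_trans (by exact_mod_cast this) (pow_le_pow_left₀ (by positivity) hs m)
  refine le_trans (Finset.sum_le_sum fun m _ => h2 m) ?_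
  have hy : s * (16 * 4 ^ D) * b = s * x := by rw [hx]; ring
  rw [hy] at hsb ⊢
  set y := s * x with hydef
  have hy0 : 0 ≤ y := by positivity
  have key : ∀ M : ℕ, ∑ m ∈ range (M + 2), (if m = 1 then 0 else y ^ m) ≤
      1 + 2 * y ^ 2 - 2 * y ^ (M + 2) := by
    intro M
    induction M with
    | zero => simp [Finset.sum_range_succ]
    | succ M ih =>
      rw [show M + 1 + 2 = (M + 2) + 1 by ring, Finset.sum_range_succ, if_neg (by omega),
        pow_succ y (M + 2)]
      have : 0 ≤ y ^ (M + 2) := by positivity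
      nlinarith
  calc _ ≤ ∑ m ∈ range (Fintype.card X + 2), (if m = 1 then 0 else y ^ m) := by
        apply Finset.sum_le_sum_of_subset_of_nonneg (Finset.range_subset_range.2 (by omega))
        intro m _ _
        split_ifs <;> positivity
    _ ≤ _ := by
        have := key (Fintype.card X)
        have : 0 ≤ y ^ (Fintype.card X + 2) := by positivity
        linarith

end Pool.Agent.MP_ff2ec0_pr

end MrgPart1

-- ======== part 2: formerly Pool.Agent.MP_ff2ec0_pr.Mol
section MrgPart2

/-!
The good event for a block and its combinatorial consequences.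
-/

namespace Pool.Agent.MP_ff2ec0_pr

open Finset Function

variable {ℓ : ℕ}

/-- Slots of times in `W` whose parent is a slot of a time in `W`. -/
def intE (Φ : Fin ℓ × Bool → Option (Fin ℓ × Bool)) (W : Finset (Fin ℓ)) :
    Finset (Fin ℓ × Bool) :=
  univ.filter fun v => v.1 ∈ W ∧ ∃ u, Φ v = some u ∧ u.1 ∈ W

/-- No small dense set of times. -/
def Good (D : ℕ) (Φ : Fin ℓ × Bool → Option (Fin ℓ × Bool)) : Prop :=
  ∀ W : Finset (Fin ℓ), W.Nonempty → W.card ≤ D + 1 →
    (intE Φ W).card < W.card ∧ (W.card = D + 1 → (intE Φ W).card < D)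

/-- Graph on the times. -/
def timeGraph (Φ : Fin ℓ × Bool → Option (Fin ℓ × Bool)) : SimpleGraph (Fin ℓ) :=
  SimpleGraph.fromRel fun i j => ∃ b u, Φ (i, b) = some u ∧ u.1 = j

/-- Label of the connected component of the time of a slot. -/
def lab (Φ : Fin ℓ × Bool → Option (Fin ℓ × Bool)) (v : Fin ℓ × Bool) :
    (timeGraph Φ).ConnectedComponent :=
  (timeGraph Φ).connectedComponentMk v.1

variable {Φ : Fin ℓ × Bool → Option (Fin ℓ × Bool)} {D : ℕ}

lemma lab_parent {v u : Fin ℓ × Bool} (h : Φ v = some u) : lab Φ v = lab Φ u := by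
  unfold lab
  by_cases he : v.1 = u.1
  · rw [he]
  · apply SimpleGraph.ConnectedComponent.connectedComponentMk_eq_of_adj
    rw [timeGraph, SimpleGraph.fromRel_adj]
    exact ⟨he, Or.inl ⟨v.2, u, h, rfl⟩⟩

lemma lab_root (hΦ : FValid Φ) (v : Fin ℓ × Bool) : lab Φ (root Φ v) = lab Φ v := by
  induction v using forest_induction hΦ with
  | h0 v h => rw [root_none h]
  | h1 v u h ih => rw [root_some hΦ h, ih, lab_parent h]

open Classical in
lemma mol_card (hG : Good D Φ) (i : Fin ℓ) :
    (univ.filter fun j => (timeGraph Φ).Reachable i j).card ≤ D := by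
  set M := univ.filter fun j => (timeGraph Φ).Reachable i j with hM
  by_contra hcon
  have key : ∀ m : ℕ, m + 1 ≤ M.card → ∃ W ⊆ M, i ∈ W ∧ W.card = m + 1 ∧ m ≤ (intE Φ W).card := by
    intro m
    induction m with
    | zero =>
      intro _
      exact ⟨{i}, by simp [hM], by simp, by simp, Nat.zero_le _⟩
    | succ m ih =>
      intro hm
      obtain ⟨W, hWM, hi, hc, he⟩ := ih (by omega)
      obtain ⟨j, hjM, hjW⟩ := Finset.exists_mem_notMem_of_card_lt_card (s := W) (t := M) (by omega)
      obtain ⟨w⟩ := (mem_filter.1 hjM).2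
      obtain ⟨d, _, hd1, hd2⟩ := w.exists_boundary_dart (W : Set (Fin ℓ)) (by simpa using hi)
        (by simpa using hjW)
      have hd1' : d.fst ∈ W := by simpa using hd1
      have hd2' : d.snd ∉ W := by simpa using hd2
      refine ⟨insert d.snd W, ?_, mem_insert_of_mem hi, by rw [card_insert_of_notMem hd2', hc], ?_⟩
      · refine insert_subset (mem_filter.2 ⟨mem_univ _, ?_⟩) hWM
        exact ((mem_filter.1 (hWM hd1')).2).trans d.adj.reachable
      · refine lt_of_le_of_lt he (Finset.card_lt_card ⟨?_, ?_⟩)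
        · intro v hv
          simp only [intE, mem_filter, mem_univ, true_and, mem_insert] at hv ⊢
          obtain ⟨h1, u, h2, h3⟩ := hv
          exact ⟨Or.inr h1, u, h2, Or.inr h3⟩
        · intro hsub
          have hadj := (SimpleGraph.fromRel_adj _ _ _).1 d.adj
          rcases hadj.2 with ⟨b, u, h1, h2⟩ | ⟨b, u, h1, h2⟩
          · have : (d.fst, b) ∈ intE Φ (insert d.snd W) := by
              simp only [intE, mem_filter, mem_univ, true_and, mem_insert]
              exact ⟨Or.inr hd1', u, h1, Or.inl h2⟩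
            have := hsub this
            simp only [intE, mem_filter, mem_univ, true_and] at this
            obtain ⟨_, u', h3, h4⟩ := this
            rw [h1] at h3
            rw [← Option.some.inj h3, h2] at h4
            exact hd2' h4
          · have : (d.snd, b) ∈ intE Φ (insert d.snd W) := by
              simp only [intE, mem_filter, mem_univ, true_and, mem_insert]
              exact ⟨Or.inl trivial, u, h1, Or.inr (h2 ▸ hd1')⟩
            have := hsub this
            simp only [intE, mem_filter, mem_univ, true_and] at this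
            exact hd2' this.1
  obtain ⟨W, _, hi, hc, he⟩ := key D (by omega)
  have := (hG W ⟨i, hi⟩ hc.le).2 hc
  omega

lemma card_pairs (J : Finset (Fin ℓ)) :
    (univ.filter fun v : Fin ℓ × Bool => v.1 ∈ J).card = 2 * J.card := by
  have : (univ.filter fun v : Fin ℓ × Bool => v.1 ∈ J) = J ×ˢ (univ : Finset Bool) := by
    ext ⟨i, b⟩; simp
  rw [this, card_product]; simp [mul_comm]

open Classical in
lemma lab_card (hG : Good D Φ) (x : Fin ℓ × Bool) :
    (univ.filter fun y => lab Φ y = lab Φ x).card ≤ 2 * D := by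
  have : (univ.filter fun y => lab Φ y = lab Φ x) = univ.filter fun v : Fin ℓ × Bool =>
      v.1 ∈ univ.filter fun j => (timeGraph Φ).Reachable x.1 j := by
    ext y
    simp only [mem_filter, mem_univ, true_and, lab, SimpleGraph.ConnectedComponent.eq]
    exact ⟨fun h => h.symm, fun h => h.symm⟩
  rw [this, card_pairs]
  exact Nat.mul_le_mul_left _ (mol_card hG x.1)

lemma comp_card (hΦ : FValid Φ) (hG : Good D Φ) (r : Fin ℓ × Bool) :
    (univ.filter fun u => root Φ u = r).card ≤ 2 * D := by
  classical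
  refine le_trans (card_le_card ?_) (lab_card hG r)
  intro u hu
  simp only [mem_filter, mem_univ, true_and] at hu ⊢
  rw [← hu, lab_root hΦ]

/-- All possible codes. -/
def codes (D : ℕ) : Finset (Option (Finset (ℕ × Option ℕ))) :=
  ((range (2 * D) ×ˢ (range (2 * D)).insertNone).powerset).image some

lemma card_codes (D : ℕ) : (codes D).card ≤ 2 ^ (2 * D * (2 * D + 1)) := by
  refine le_trans card_image_le ?_
  rw [card_powerset, card_product, Finset.card_insertNone, card_range]

lemma code_mem (hΦ : FValid Φ) (hG : Good D Φ) {r : Fin ℓ × Bool} (hr : Φ r = none) :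
    code Φ r ∈ codes D := by
  have hpos : ∀ v, pos Φ v < 2 * D := fun v => lt_of_lt_of_le (pos_lt_card v) (comp_card hΦ hG _)
  unfold code codes
  rw [if_pos hr]
  apply mem_image_of_mem
  rw [mem_powerset]
  intro x hx
  obtain ⟨u, _, rfl⟩ := mem_image.1 hx
  rw [mem_product, mem_range, Finset.mem_insertNone]
  refine ⟨hpos u, fun a ha => ?_⟩
  cases h : Φ u with
  | none => simp [h] at ha
  | some w =>
    simp only [h, Option.map_some, Option.mem_def, Option.some.injEq] at ha
    rw [← ha, mem_range]; exact hpos w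

/-- Number of elements of `T` in the component of `r`. -/
def nIn (Φ : Fin ℓ × Bool → Option (Fin ℓ × Bool)) (T : Finset (Fin ℓ × Bool))
    (r : Fin ℓ × Bool) : ℕ :=
  (T.filter fun v => root Φ v = r).card

/-- Roots whose component meets `T` in an odd number of elements. -/
def oddSet (Φ : Fin ℓ × Bool → Option (Fin ℓ × Bool)) (T : Finset (Fin ℓ × Bool)) :
    Finset (Fin ℓ × Bool) :=
  univ.filter fun r => Odd (nIn Φ T r)

/-- The slots of the times in `J`. -/
def pairs (J : Finset (Fin ℓ)) : Finset (Fin ℓ × Bool) := univ.filter fun v => v.1 ∈ J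

lemma oddSet_root (hΦ : FValid Φ) {T : Finset (Fin ℓ × Bool)} {r : Fin ℓ × Bool}
    (h : r ∈ oddSet Φ T) : Φ r = none := by
  have h1 := (mem_filter.1 h).2.pos
  obtain ⟨v, hv⟩ := card_pos.1 h1
  rw [← (mem_filter.1 hv).2]; exact phi_root hΦ v

lemma oddSet_image (hΦ : FValid Φ) {γ : Equiv.Perm (Fin ℓ × Bool)} (hγ : γ ∈ Gam Φ)
    (T : Finset (Fin ℓ × Bool)) : oddSet Φ (T.image γ) = (oddSet Φ T).image γ := by
  have key : ∀ r, nIn Φ (T.image γ) (γ r) = nIn Φ T r := by
    intro r
    unfold nIn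
    rw [Finset.filter_image, card_image_of_injective _ γ.injective]
    congr 1
    refine Finset.filter_congr fun v _ => ?_
    rw [root_comm hΦ (mem_Gam.1 hγ).1, γ.injective.eq_iff]
  ext r
  obtain ⟨r, rfl⟩ := γ.surjective r
  rw [γ.injective.mem_finset_image]
  simp only [oddSet, mem_filter, mem_univ, true_and, key]

lemma exists_odd (hΦ : FValid Φ) (hG : Good D Φ) {J : Finset (Fin ℓ)} (hJ : J.Nonempty) :
    ∃ r, Odd (nIn Φ (pairs J) r) := by
  classical
  by_contra hcon
  push Not at hcon
  obtain ⟨i, hi⟩ := hJ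
  set M := univ.filter fun j => (timeGraph Φ).Reachable i j with hM
  have hMlab : ∀ v : Fin ℓ × Bool, v.1 ∈ M ↔ lab Φ v = lab Φ (i, false) := by
    intro v
    simp only [hM, mem_filter, mem_univ, true_and, lab, SimpleGraph.ConnectedComponent.eq]
    exact ⟨fun h => h.symm, fun h => h.symm⟩
  set J' := J ∩ M with hJ'
  set C := (pairs J').image (root Φ) with hC
  set Z := univ.filter fun v => root Φ v ∈ C with hZ
  set W := Z.image Prod.fst with hW
  have hCM : ∀ r ∈ C, r.1 ∈ M := by
    intro r hr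
    obtain ⟨v, hv, rfl⟩ := mem_image.1 hr
    rw [hMlab, lab_root hΦ, ← hMlab]
    exact (mem_inter.1 (mem_filter.1 hv).2).2
  have h1 : 2 * C.card ≤ (pairs J').card := by
    apply Finset.mul_card_image_le_card
    intro r hr
    have e : (pairs J').filter (fun v => root Φ v = r) = (pairs J).filter (fun v => root Φ v = r) := by
      ext v
      simp only [pairs, hJ', mem_filter, mem_univ, true_and, mem_inter]
      constructor
      · rintro ⟨⟨h1, _⟩, h2⟩; exact ⟨h1, h2⟩
      · rintro ⟨h1, h2⟩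
        refine ⟨⟨h1, ?_⟩, h2⟩
        rw [hMlab, ← lab_root hΦ, h2, ← hMlab]; exact hCM r hr
    have hpos : 0 < ((pairs J').filter (fun v => root Φ v = r)).card := by
      obtain ⟨v, hv, rfl⟩ := mem_image.1 hr
      exact card_pos.2 ⟨v, mem_filter.2 ⟨hv, rfl⟩⟩
    have hev := hcon r
    rw [Nat.not_odd_iff_even, nIn, ← e] at hev
    obtain ⟨k, hk⟩ := hev
    omega
  have h2 : (pairs J').card = 2 * J'.card := card_pairs J'
  have hPZ : pairs J' ⊆ Z := fun v hv => mem_filter.2 ⟨mem_univ _, mem_image_of_mem _ hv⟩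
  have h3 : W.card ≤ J'.card + (Z \ pairs J').card := by
    refine le_trans (card_le_card (t := J' ∪ (Z \ pairs J').image Prod.fst) ?_)
      (le_trans (card_union_le _ _) (Nat.add_le_add_left card_image_le _))
    intro j hj
    obtain ⟨v, hv, rfl⟩ := mem_image.1 hj
    by_cases h : v.1 ∈ J'
    · exact mem_union_left _ h
    · exact mem_union_right _ (mem_image_of_mem _ (mem_sdiff.2 ⟨hv, by simpa [pairs] using h⟩))
  have h4 := card_sdiff_add_card_eq_card hPZ
  have h5 : Z.card ≤ (intE Φ W).card + C.card := by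
    refine le_trans (card_le_card (t := intE Φ W ∪ C) ?_) (card_union_le _ _)
    intro v hv
    cases h : Φ v with
    | none =>
      apply mem_union_right
      have := (mem_filter.1 hv).2
      rwa [root_none h] at this
    | some u =>
      apply mem_union_left
      refine mem_filter.2 ⟨mem_univ _, mem_image_of_mem _ hv, u, h, mem_image_of_mem _ ?_⟩
      refine mem_filter.2 ⟨mem_univ _, ?_⟩
      rw [← root_some hΦ h]; exact (mem_filter.1 hv).2
  have h6 : W ⊆ M := by
    intro j hj
    obtain ⟨v, hv, rfl⟩ := mem_image.1 hj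
    rw [hMlab, ← lab_root hΦ, ← hMlab]
    exact hCM _ (mem_filter.1 hv).2
  have h7 : W.card ≤ D := le_trans (card_le_card h6) (mol_card hG i)
  have h8 : W.Nonempty := by
    refine ⟨i, mem_image.2 ⟨(i, false), hPZ ?_, rfl⟩⟩
    simp [pairs, hJ', hi, hM]
  have := (hG W h8 (by omega)).1
  omega

lemma oddSet_pairs_injective (hΦ : FValid Φ) (hG : Good D Φ) :
    Injective fun J : Finset (Fin ℓ) => oddSet Φ (pairs J) := by
  intro J J' h
  by_contra hne
  obtain ⟨r, hr⟩ := exists_odd hΦ hG (J := (J \ J') ∪ (J' \ J)) (by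
    rw [Finset.nonempty_iff_ne_empty]
    intro he
    rw [union_eq_empty, sdiff_eq_empty_iff_subset, sdiff_eq_empty_iff_subset] at he
    exact hne (subset_antisymm he.1 he.2))
  have h1 : Odd (nIn Φ (pairs J) r) ↔ Odd (nIn Φ (pairs J') r) := by
    have := congrArg (fun S => r ∈ S) h
    simpa [oddSet] using this
  have add : ∀ A B : Finset (Fin ℓ), Disjoint A B →
      nIn Φ (pairs (A ∪ B)) r = nIn Φ (pairs A) r + nIn Φ (pairs B) r := by
    intro A B hd
    unfold nIn
    rw [← card_union_of_disjoint]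
    · congr 1; ext v; simp only [pairs, mem_filter, mem_univ, true_and, mem_union]; tauto
    · rw [Finset.disjoint_left]
      intro v h1 h2
      simp only [pairs, mem_filter, mem_univ, true_and] at h1 h2
      exact Finset.disjoint_left.1 hd h1.1 h2.1
  have e1 := add (J \ J') (J' \ J) disjoint_sdiff_sdiff
  have e2 := add (J \ J') (J ∩ J') (disjoint_sdiff_inter _ _)
  have e3 := add (J' \ J) (J' ∩ J) (disjoint_sdiff_inter _ _)
  rw [sdiff_union_inter] at e2 e3
  rw [inter_comm] at e3
  rw [e1] at hr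
  rw [e2, e3] at h1
  simp only [Nat.odd_iff] at h1 hr
  omega

lemma oddSet_partner (hΦ : FValid Φ) (J : Finset (Fin ℓ)) {x : Fin ℓ × Bool}
    (hx : x ∈ oddSet Φ (pairs J)) : ∃ y ∈ oddSet Φ (pairs J), y ≠ x ∧ lab Φ y = lab Φ x := by
  classical
  by_contra hcon
  push Not at hcon
  set M := univ.filter fun y => lab Φ y = lab Φ x with hM
  have h1 : ∑ r ∈ M, nIn Φ (pairs J) r =
      2 * (J.filter fun j => lab Φ (j, false) = lab Φ x).card := by
    rw [← card_pairs, Finset.card_eq_sum_card_fiberwise (f := root Φ) (t := M)]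
    · refine Finset.sum_congr rfl fun r hr => ?_
      unfold nIn
      congr 1
      ext v
      simp only [pairs, mem_filter, mem_univ, true_and]
      constructor
      · rintro ⟨h1, h2⟩
        refine ⟨⟨h1, ?_⟩, h2⟩
        change lab Φ v = _
        rw [← lab_root hΦ, h2]; exact (mem_filter.1 hr).2
      · rintro ⟨⟨h1, _⟩, h2⟩; exact ⟨h1, h2⟩
    · intro v hv
      simp only [coe_filter, mem_filter, mem_univ, true_and, Set.mem_ofPred_eq, hM] at hv ⊢
      rw [lab_root hΦ]; exact hv.2
  rw [← Finset.add_sum_erase M _ (show x ∈ M by simp [hM])] at h1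
  have h2 : Even (∑ r ∈ M.erase x, nIn Φ (pairs J) r) := by
    apply Finset.even_sum
    intro r hr
    rw [← Nat.not_odd_iff_even]
    intro ho
    exact hcon r (mem_filter.2 ⟨mem_univ _, ho⟩) (ne_of_mem_erase hr)
      (mem_filter.1 (mem_of_mem_erase hr)).2
  have h3 := (mem_filter.1 hx).2
  rw [Nat.odd_iff] at h3
  rw [Nat.even_iff] at h2
  omega

/-- The combinatorial factor of the second moment. -/
lemma xi_forest (hΦ : FValid Φ) (hG : Good D Φ) (b : ℝ) (hb : 0 ≤ b)
    (hsb : (2 : ℝ) ^ (2 * D * (2 * D + 1)) * (16 * 4 ^ (2 * D)) * b ≤ 1 / 2) :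
    ∑ γ ∈ Gam Φ, ∑ γ' ∈ Gam Φ, ∑ J : Finset (Fin ℓ), ∑ J' : Finset (Fin ℓ),
      (if oddSet Φ ((pairs J).image γ) = oddSet Φ ((pairs J').image γ') then
        b ^ (oddSet Φ ((pairs J).image γ)).card else 0) ≤
      (1 + 2 * ((2 : ℝ) ^ (2 * D * (2 * D + 1)) * (16 * 4 ^ (2 * D)) * b) ^ 2) *
        ((Gam Φ).card : ℝ) ^ 2 := by
  classical
  set E := (univ : Finset (Finset (Fin ℓ))).image fun J => oddSet Φ (pairs J) with hE
  set R := univ.filter fun r => Φ r = none with hR
  have hER : ∀ O ∈ E, O ⊆ R := by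
    intro O hO
    obtain ⟨J, _, rfl⟩ := mem_image.1 hO
    exact fun r hr => mem_filter.2 ⟨mem_univ _, oddSet_root hΦ hr⟩
  have hxi := xi_bound (code Φ) (lab Φ) (2 * D) (lab_card hG) R (codes D)
    (fun x hx => code_mem hΦ hG (mem_filter.1 hx).2) E (by
      intro O hO
      refine ⟨hER O hO, ?_⟩
      obtain ⟨J, _, rfl⟩ := mem_image.1 hO
      exact fun x hx => oddSet_partner hΦ J hx) b hb ((2 : ℝ) ^ (2 * D * (2 * D + 1)))
    (by exact_mod_cast card_codes D) hsb
  have hinj := oddSet_pairs_injective hΦ hG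
  have step : ∀ γ ∈ Gam Φ, ∑ γ' ∈ Gam Φ, ∑ J : Finset (Fin ℓ), ∑ J' : Finset (Fin ℓ),
      (if oddSet Φ ((pairs J).image γ) = oddSet Φ ((pairs J').image γ') then
        b ^ (oddSet Φ ((pairs J).image γ)).card else 0) ≤
      (∑ O ∈ E, b ^ O.card * (E.filter fun O' => compo (code Φ) O' = compo (code Φ) O).card /
        (R.powerset.filter fun O' => compo (code Φ) O' = compo (code Φ) O).card) *
        (Gam Φ).card := by
    intro γ hγ
    have e1 : ∀ γ' ∈ Gam Φ, ∑ J : Finset (Fin ℓ), ∑ J' : Finset (Fin ℓ),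
        (if oddSet Φ ((pairs J).image γ) = oddSet Φ ((pairs J').image γ') then
          b ^ (oddSet Φ ((pairs J).image γ)).card else 0) =
        ∑ O ∈ E, ∑ O' ∈ E, (if O'.image γ' = O.image γ then b ^ O.card else 0) := by
      intro γ' hγ'
      rw [hE, Finset.sum_image (fun _ _ _ _ h => hinj h)]
      refine Finset.sum_congr rfl fun J _ => ?_
      rw [Finset.sum_image (fun _ _ _ _ h => hinj h)]
      refine Finset.sum_congr rfl fun J' _ => ?_
      rw [oddSet_image hΦ hγ, oddSet_image hΦ hγ', card_image_of_injective _ γ.injective]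
      simp only [eq_comm]
    rw [Finset.sum_congr rfl e1, Finset.sum_comm, Finset.sum_mul]
    refine Finset.sum_le_sum fun O hO => ?_
    rw [Finset.sum_comm]
    set Cl := R.powerset.filter fun O' => compo (code Φ) O' = compo (code Φ) O with hCl
    have hCl0 : (0 : ℝ) < Cl.card := by
      have : 0 < Cl.card := card_pos.2 ⟨O, mem_filter.2 ⟨mem_powerset.2 (hER O hO), rfl⟩⟩
      exact_mod_cast this
    have e2 : ∀ O' ∈ E, ∑ γ' ∈ Gam Φ, (if O'.image γ' = O.image γ then b ^ O.card else 0) ≤
        if compo (code Φ) O' = compo (code Φ) O then b ^ O.card / Cl.card * (Gam Φ).card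
        else 0 := by
      intro O' hO'
      split_ifs with hc
      · rw [← Finset.sum_filter, Finset.sum_const, nsmul_eq_mul]
        have := orbit_bound (Gam Φ) (fun γ' : Equiv.Perm (Fin ℓ × Bool) => O'.image γ')
          (O.image γ) Cl (by
            intro x hx
            obtain ⟨δ, hδ, hδ'⟩ := exists_Gam_image hΦ (O := O.image γ) (O' := x) (by
              intro r hr
              obtain ⟨r', hr', rfl⟩ := mem_image.1 hr
              rw [(mem_Gam.1 hγ).1, (mem_filter.1 (hER O hO hr')).2]; rfl)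
              (by rw [compo_image_Gam hγ, (mem_filter.1 hx).2])
            refine ⟨fun g => δ * g, mul_right_injective δ, fun g hg he => ⟨mul_mem_Gam hδ hg, ?_⟩⟩
            rw [← hδ', ← he, image_image]; rfl)
        have h2 : (((Gam Φ).filter fun γ' : Equiv.Perm (Fin ℓ × Bool) =>
            O'.image γ' = O.image γ).card : ℝ) * Cl.card ≤ (Gam Φ).card := by exact_mod_cast this
        rw [div_mul_eq_mul_div, le_div_iff₀ hCl0]
        have h3 : 0 ≤ b ^ O.card := by positivity
        nlinarith
      · refine le_of_eq (Finset.sum_eq_zero fun γ' hγ' => if_neg fun he => hc ?_)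
        rw [← compo_image_Gam hγ' O', he, compo_image_Gam hγ]
    refine le_trans (Finset.sum_le_sum e2) (le_of_eq ?_)
    rw [← Finset.sum_filter, Finset.sum_const, nsmul_eq_mul]
    ring
  refine le_trans (Finset.sum_le_card_nsmul _ _ _ step) ?_
  rw [nsmul_eq_mul, sq ((Gam Φ).card : ℝ), ← mul_assoc, ← mul_assoc, mul_comm ((Gam Φ).card : ℝ)]
  gcongr

end Pool.Agent.MP_ff2ec0_pr

end MrgPart2

-- ======== part 3: formerly Pool.Agent.MP_ff2ec0_pr.Kernel
section MrgPart3

/-!
Bounds for the two-copy kernel of one block, for a fixed forest.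
-/

namespace Pool.Agent.MP_ff2ec0_pr

open Finset Function

variable {ℓ : ℕ}

/-- Sign of a type. -/
def sg (b : Bool) : ℝ := if b then -1 else 1

lemma sg_xor (a b : Bool) : sg (xor a b) = sg a * sg b := by
  cases a <;> cases b <;> simp [sg]

lemma sg_mul_self (a : Bool) : sg a * sg a = 1 := by cases a <;> simp [sg]

lemma abs_sg (a : Bool) : |sg a| = 1 := by cases a <;> simp [sg]

lemma one_add_nonneg {a : ℝ} (ha : |a| ≤ 1) (b c : Bool) : 0 ≤ 1 + a * sg b * sg c := by
  have := abs_le.1 ha
  cases b <;> cases c <;> simp [sg] <;> linarith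

/-- Density of the pairwise balanced type vectors. -/
def g0 (σ : Fin ℓ × Bool → Bool) : ℝ :=
  ∏ i : Fin ℓ, (1 - sg (σ (i, false)) * sg (σ (i, true)))

/-- Symmetrised density. -/
noncomputable def gbar (Φ : Fin ℓ × Bool → Option (Fin ℓ × Bool)) (σ : Fin ℓ × Bool → Bool) : ℝ :=
  (∑ γ ∈ Gam Φ, g0 (σ ∘ γ)) / (Gam Φ).card

lemma g0_nonneg (σ : Fin ℓ × Bool → Bool) : 0 ≤ g0 σ :=
  Finset.prod_nonneg fun i _ => by
    cases σ (i, false) <;> cases σ (i, true) <;> simp [sg]

lemma gbar_nonneg (Φ : Fin ℓ × Bool → Option (Fin ℓ × Bool)) (σ : Fin ℓ × Bool → Bool) :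
    0 ≤ gbar Φ σ :=
  div_nonneg (Finset.sum_nonneg fun _ _ => g0_nonneg _) (by positivity)

/-- Factor of one slot. -/
def kv (θ a : ℝ) (φ : Option (Fin ℓ × Bool)) (σ σ' : Fin ℓ × Bool → Bool) (v : Fin ℓ × Bool) : ℝ :=
  match φ with
  | none => 1 + a * sg (σ v) * sg (σ' v)
  | some u => (1 + θ * sg (σ v) * sg (σ u)) * (1 + θ * sg (σ' v) * sg (σ' u))

/-- The two-copy kernel. -/
noncomputable def Ker (θ a lam : ℝ) (Φ : Fin ℓ × Bool → Option (Fin ℓ × Bool))
    (σ σ' : Fin ℓ × Bool → Bool) : ℝ :=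
  (∏ v, kv θ a (Φ v) σ σ' v) * Real.exp (lam * ∑ v, sg (σ v) * sg (σ' v))

lemma kv_nonneg {θ a : ℝ} (hθ : |θ| ≤ 1) (ha : |a| ≤ 1) (φ : Option (Fin ℓ × Bool))
    (σ σ' : Fin ℓ × Bool → Bool) (v : Fin ℓ × Bool) : 0 ≤ kv θ a φ σ σ' v := by
  cases φ with
  | none => exact one_add_nonneg ha _ _
  | some u => exact mul_nonneg (one_add_nonneg hθ _ _) (one_add_nonneg hθ _ _)

lemma Ker_nonneg {θ a : ℝ} (hθ : |θ| ≤ 1) (ha : |a| ≤ 1) (lam : ℝ)
    (Φ : Fin ℓ × Bool → Option (Fin ℓ × Bool)) (σ σ' : Fin ℓ × Bool → Bool) :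
    0 ≤ Ker θ a lam Φ σ σ' :=
  mul_nonneg (Finset.prod_nonneg fun _ _ => kv_nonneg hθ ha _ _ _ _) (Real.exp_pos _).le

/-- Character of a set of slots. -/
def chi (T : Finset (Fin ℓ × Bool)) (σ : Fin ℓ × Bool → Bool) : ℝ := ∏ v ∈ T, sg (σ v)

lemma abs_chi (T : Finset (Fin ℓ × Bool)) (σ : Fin ℓ × Bool → Bool) : |chi T σ| = 1 := by
  unfold chi; rw [Finset.abs_prod]; simp [abs_sg]

lemma g0_expand (σ : Fin ℓ × Bool → Bool) (γ : Equiv.Perm (Fin ℓ × Bool)) :
    g0 (σ ∘ γ) = ∑ J : Finset (Fin ℓ), (-1) ^ J.card * chi ((pairs J).image γ) σ := by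
  unfold g0
  simp_rw [sub_eq_add_neg]
  rw [Finset.prod_one_add, powerset_univ]
  refine Finset.sum_congr rfl fun J _ => ?_
  rw [Finset.prod_neg, chi, Finset.prod_image (fun _ _ _ _ h => γ.injective h)]
  have : pairs J = J ×ˢ (univ : Finset Bool) := by ext ⟨i, b⟩; simp [pairs]
  rw [this, Finset.prod_product]
  congr 1
  refine Finset.prod_congr rfl fun i _ => ?_
  simp [mul_comm]

/-- Flip the types on whole components. -/
def flip (Φ : Fin ℓ × Bool → Option (Fin ℓ × Bool)) (ε σ : Fin ℓ × Bool → Bool) :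
    Fin ℓ × Bool → Bool := fun v => xor (σ v) (ε (root Φ v))

variable {Φ : Fin ℓ × Bool → Option (Fin ℓ × Bool)} {D : ℕ}

lemma sum_flip (ε : Fin ℓ × Bool → Bool) (F : (Fin ℓ × Bool → Bool) → ℝ) :
    ∑ σ, F (flip Φ ε σ) = ∑ σ, F σ :=
  Equiv.sum_comp (Function.Involutive.toPerm (flip Φ ε) (by
    intro σ; ext v; simp [flip])) F

lemma chi_flip (T : Finset (Fin ℓ × Bool)) (ε σ : Fin ℓ × Bool → Bool) :
    chi T (flip Φ ε σ) = chi T σ * ∏ r, sg (ε r) ^ nIn Φ T r := by
  unfold chi flip
  simp_rw [sg_xor]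
  rw [Finset.prod_mul_distrib]
  congr 1
  rw [← Finset.prod_fiberwise T (root Φ)]
  refine Finset.prod_congr rfl fun r _ => ?_
  rw [nIn, ← Finset.prod_const]
  exact Finset.prod_congr rfl fun v hv => by rw [(mem_filter.1 hv).2]

/-- Weight of the edges inside the block. -/
def wIn (θ : ℝ) (Φ : Fin ℓ × Bool → Option (Fin ℓ × Bool)) (σ : Fin ℓ × Bool → Bool) : ℝ :=
  ∏ v, match Φ v with
    | none => 1
    | some u => 1 + θ * sg (σ v) * sg (σ u)

/-- Factor of one component. -/
noncomputable def kr (a lam : ℝ) (Φ : Fin ℓ × Bool → Option (Fin ℓ × Bool))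
    (σ σ' : Fin ℓ × Bool → Bool) (r : Fin ℓ × Bool) (s : ℝ) : ℝ :=
  (1 + (if Φ r = none then a * sg (σ r) * sg (σ' r) else 0) * s) *
    Real.exp (lam * (∑ v ∈ univ.filter (fun v => root Φ v = r), sg (σ v) * sg (σ' v)) * s)

lemma wIn_nonneg {θ : ℝ} (hθ : |θ| ≤ 1) (σ : Fin ℓ × Bool → Bool) : 0 ≤ wIn θ Φ σ :=
  Finset.prod_nonneg fun v _ => by
    cases Φ v with
    | none => exact zero_le_one
    | some u => exact one_add_nonneg hθ _ _

lemma Ker_flip (hΦ : FValid Φ) (θ a lam : ℝ) (ε ε' σ σ' : Fin ℓ × Bool → Bool) :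
    Ker θ a lam Φ (flip Φ ε σ) (flip Φ ε' σ') =
      wIn θ Φ σ * wIn θ Φ σ' * ∏ r, kr a lam Φ σ σ' r (sg (ε r) * sg (ε' r)) := by
  unfold Ker kr wIn
  rw [Finset.prod_mul_distrib, ← Real.exp_sum, ← mul_assoc, ← Finset.prod_mul_distrib,
    ← Finset.prod_mul_distrib]
  congr 1
  · refine Finset.prod_congr rfl fun v _ => ?_
    cases h : Φ v with
    | none =>
      simp only [kv, flip, sg_xor, root_none h, if_true]; ring
    | some u =>
      have h1 := sg_mul_self (ε (root Φ u))
      have h2 := sg_mul_self (ε' (root Φ u))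
      simp only [kv, flip, sg_xor, root_some hΦ h, reduceCtorEq, if_false]
      have e1 : θ * (sg (σ v) * sg (ε (root Φ u))) * (sg (σ u) * sg (ε (root Φ u))) =
          θ * sg (σ v) * sg (σ u) := by linear_combination (θ * sg (σ v) * sg (σ u)) * h1
      have e2 : θ * (sg (σ' v) * sg (ε' (root Φ u))) * (sg (σ' u) * sg (ε' (root Φ u))) =
          θ * sg (σ' v) * sg (σ' u) := by linear_combination (θ * sg (σ' v) * sg (σ' u)) * h2
      rw [e1, e2]; ring
  · congr 1
    rw [← Finset.sum_fiberwise univ (root Φ), Finset.mul_sum]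
    refine Finset.sum_congr rfl fun r _ => ?_
    rw [mul_assoc, Finset.sum_mul]
    congr 1
    refine Finset.sum_congr rfl fun v hv => ?_
    simp only [flip, sg_xor, (mem_filter.1 hv).2]; ring

lemma k_ratio (A x a0 x0 : ℝ) (hA : |A| ≤ a0) (ha0 : a0 ≤ 1) (hx : |x| ≤ x0) (hx0 : x0 ≤ 1 / 4) :
    |(1 + A) * Real.exp x - (1 - A) * Real.exp (-x)| ≤
      (2 * a0 + 4 * x0) * ((1 + A) * Real.exp x + (1 - A) * Real.exp (-x)) := by
  have h1 := Real.abs_exp_sub_one_le (x := x) (by linarith)
  have h2 := Real.abs_exp_sub_one_le (x := -x) (by rw [abs_neg]; linarith)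
  rw [abs_neg] at h2
  have h3 := Real.add_one_le_exp x
  have h4 := Real.add_one_le_exp (-x)
  set C := Real.exp x + Real.exp (-x) with hC
  set S := Real.exp x - Real.exp (-x) with hS
  have hC2 : 2 ≤ C := by linarith
  have hS' : |S| ≤ 4 * x0 := by
    rw [abs_le] at h1 h2 ⊢
    constructor <;> linarith
  have e1 : (1 + A) * Real.exp x - (1 - A) * Real.exp (-x) = S + A * C := by rw [hS, hC]; ring
  have e2 : (1 + A) * Real.exp x + (1 - A) * Real.exp (-x) = C + A * S := by rw [hS, hC]; ring
  rw [e1, e2]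
  have h0 : 0 ≤ a0 := le_trans (abs_nonneg _) hA
  have h0' : 0 ≤ x0 := le_trans (abs_nonneg _) hx
  have h5 : |A * S| ≤ 1 := by
    rw [abs_mul]
    exact mul_le_one₀ (by linarith) (abs_nonneg _) (by linarith)
  have h6 : C / 2 ≤ C + A * S := by have := (abs_le.1 h5).1; linarith
  have h7 : |S + A * C| ≤ (a0 + 2 * x0) * C := by
    refine le_trans (abs_add_le _ _) ?_
    rw [abs_mul, abs_of_nonneg (by linarith : 0 ≤ C)]
    nlinarith
  nlinarith

lemma sum_eps (F : Fin ℓ × Bool → Bool → Bool → ℝ) :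
    ∑ ε : Fin ℓ × Bool → Bool, ∑ ε' : Fin ℓ × Bool → Bool, ∏ r, F r (ε r) (ε' r) =
      ∏ r, ∑ a, ∑ a', F r a a' := by
  rw [Finset.prod_univ_sum, Fintype.piFinset_univ]
  refine Finset.sum_congr rfl fun ε _ => ?_
  rw [Finset.prod_univ_sum, Fintype.piFinset_univ]

lemma char_bound (hΦ : FValid Φ) (hG : Good D Φ) {θ a lam : ℝ} (hθ : |θ| ≤ 1) (ha : |a| ≤ 1)
    (hlam : 2 * D * |lam| ≤ 1 / 4) (T T' : Finset (Fin ℓ × Bool)) :
    |∑ σ, ∑ σ', chi T σ * chi T' σ' * Ker θ a lam Φ σ σ'| ≤
      (if oddSet Φ T = oddSet Φ T' then (2 * |a| + 8 * D * |lam|) ^ (oddSet Φ T).card else 0) *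
        ∑ σ, ∑ σ', Ker θ a lam Φ σ σ' := by
  set b := 2 * |a| + 8 * D * |lam| with hb
  have hb0 : 0 ≤ b := by positivity
  let f : Finset (Fin ℓ × Bool) → Finset (Fin ℓ × Bool) → (Fin ℓ × Bool → Bool) →
      (Fin ℓ × Bool → Bool) → Fin ℓ × Bool → ℝ := fun T T' σ σ' r =>
    ∑ x, ∑ x', sg x ^ nIn Φ T r * sg x' ^ nIn Φ T' r * kr a lam Φ σ σ' r (sg x * sg x')
  set N : ℝ := (Fintype.card (Fin ℓ × Bool → Bool) : ℝ) with hN
  have hN0 : 0 < N := by rw [hN]; exact_mod_cast Fintype.card_pos
  have key : ∀ T T' : Finset (Fin ℓ × Bool),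
      N * N * ∑ σ, ∑ σ', chi T σ * chi T' σ' * Ker θ a lam Φ σ σ' =
      ∑ σ, ∑ σ', chi T σ * chi T' σ' * (wIn θ Φ σ * wIn θ Φ σ' * ∏ r, f T T' σ σ' r) := by
    intro T T'
    have e1 : N * N * ∑ σ, ∑ σ', chi T σ * chi T' σ' * Ker θ a lam Φ σ σ' =
        ∑ ε : Fin ℓ × Bool → Bool, ∑ ε' : Fin ℓ × Bool → Bool, ∑ σ, ∑ σ',
          chi T (flip Φ ε σ) * chi T' (flip Φ ε' σ') *
            Ker θ a lam Φ (flip Φ ε σ) (flip Φ ε' σ') := by
      have : ∀ ε ε' : Fin ℓ × Bool → Bool, ∑ σ, ∑ σ', chi T (flip Φ ε σ) * chi T' (flip Φ ε' σ') *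
          Ker θ a lam Φ (flip Φ ε σ) (flip Φ ε' σ') =
          ∑ σ, ∑ σ', chi T σ * chi T' σ' * Ker θ a lam Φ σ σ' := by
        intro ε ε'
        rw [sum_flip ε (fun σ => ∑ σ', chi T σ * chi T' (flip Φ ε' σ') *
          Ker θ a lam Φ σ (flip Φ ε' σ'))]
        refine Finset.sum_congr rfl fun σ _ => ?_
        exact sum_flip ε' (fun σ' => chi T σ * chi T' σ' * Ker θ a lam Φ σ σ')
      simp only [this, Finset.sum_const, card_univ, nsmul_eq_mul, hN]; ring
    rw [e1]
    simp_rw [Finset.sum_comm (s := (univ : Finset (Fin ℓ × Bool → Bool)))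
      (t := (univ : Finset (Fin ℓ × Bool → Bool)))
      (f := fun ε' σ => ∑ σ', chi T (flip Φ _ σ) * chi T' (flip Φ ε' σ') *
        Ker θ a lam Φ (flip Φ _ σ) (flip Φ ε' σ'))]
    rw [Finset.sum_comm]
    refine Finset.sum_congr rfl fun σ _ => ?_
    simp_rw [Finset.sum_comm (s := (univ : Finset (Fin ℓ × Bool → Bool)))
      (t := (univ : Finset (Fin ℓ × Bool → Bool)))
      (f := fun ε' σ' => chi T (flip Φ _ σ) * chi T' (flip Φ ε' σ') *
        Ker θ a lam Φ (flip Φ _ σ) (flip Φ ε' σ'))]
    rw [Finset.sum_comm]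
    refine Finset.sum_congr rfl fun σ' _ => ?_
    simp only [f]
    rw [← sum_eps, Finset.mul_sum, Finset.mul_sum]
    refine Finset.sum_congr rfl fun ε _ => ?_
    rw [Finset.mul_sum, Finset.mul_sum]
    refine Finset.sum_congr rfl fun ε' _ => ?_
    rw [chi_flip, chi_flip, Ker_flip hΦ, Finset.prod_mul_distrib, Finset.prod_mul_distrib]
    ring
  have hk : ∀ σ σ' r, |kr a lam Φ σ σ' r 1 - kr a lam Φ σ σ' r (-1)| ≤
      b * (kr a lam Φ σ σ' r 1 + kr a lam Φ σ σ' r (-1)) := by
    intro σ σ' r
    have := k_ratio (if Φ r = none then a * sg (σ r) * sg (σ' r) else 0)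
      (lam * (∑ v ∈ univ.filter (fun v => root Φ v = r), sg (σ v) * sg (σ' v))) |a|
      (2 * D * |lam|) (by
        split_ifs
        · rw [abs_mul, abs_mul, abs_sg, abs_sg]; simp
        · simp) ha (by
        rw [abs_mul, mul_comm]
        apply mul_le_mul_of_nonneg_right _ (abs_nonneg _)
        refine le_trans (Finset.abs_sum_le_sum_abs _ _) ?_
        simp only [abs_mul, abs_sg, mul_one, Finset.sum_const, nsmul_eq_mul]
        exact_mod_cast comp_card hΦ hG r) hlam
    simp only [kr, mul_one, mul_neg, ← sub_eq_add_neg]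
    convert this using 2
    rw [hb]; ring
  have hf0 : ∀ σ σ' r, f ∅ ∅ σ σ' r = 2 * (kr a lam Φ σ σ' r 1 + kr a lam Φ σ σ' r (-1)) := by
    intro σ σ' r
    simp [f, nIn, sg]; ring
  have hf0' : ∀ σ σ' r, 0 ≤ f ∅ ∅ σ σ' r := by
    intro σ σ' r
    rw [hf0]
    have hA : |(if Φ r = none then a * sg (σ r) * sg (σ' r) else 0)| ≤ 1 := by
      split_ifs
      · rw [abs_mul, abs_mul, abs_sg, abs_sg]; simpa using ha
      · simp
    have := abs_le.1 hA
    have h1 : 0 ≤ kr a lam Φ σ σ' r 1 := mul_nonneg (by linarith) (Real.exp_pos _).le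
    have h2 : 0 ≤ kr a lam Φ σ σ' r (-1) := mul_nonneg (by linarith) (Real.exp_pos _).le
    linarith
  have hf : ∀ σ σ' r, |f T T' σ σ' r| ≤
      (if (Odd (nIn Φ T r) ↔ Odd (nIn Φ T' r)) then (if Odd (nIn Φ T r) then b else 1) else 0) *
        f ∅ ∅ σ σ' r := by
    intro σ σ' r
    have h0 := hf0' σ σ' r
    have h1 := hk σ σ' r
    rw [hf0] at h0 ⊢
    rcases Nat.even_or_odd (nIn Φ T r) with h | h <;>
      rcases Nat.even_or_odd (nIn Φ T' r) with h' | h'
    · simp only [f, sg, Fintype.sum_bool, if_true, h.neg_one_pow, h'.neg_one_pow,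
        Nat.not_odd_iff_even.2 h, Nat.not_odd_iff_even.2 h']
      simp only [Bool.false_eq_true, if_false, one_pow, mul_one, one_mul, mul_neg, neg_neg]
      rw [abs_of_nonneg (by linarith)]; linarith
    · simp [f, sg, h.neg_one_pow, h'.neg_one_pow, Nat.not_odd_iff_even.2 h, h']
    · simp [f, sg, h.neg_one_pow, h'.neg_one_pow, Nat.not_odd_iff_even.2 h', h]
    · simp only [f, sg, Fintype.sum_bool, if_true, h.neg_one_pow, h'.neg_one_pow, h, h']
      simp only [Bool.false_eq_true, if_false, one_pow, mul_one, one_mul, mul_neg, neg_neg,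
        neg_mul]
      rw [abs_le] at h1 ⊢
      constructor <;> linarith [h1.1, h1.2]
  have hprod : ∀ σ σ', |∏ r, f T T' σ σ' r| ≤
      (if oddSet Φ T = oddSet Φ T' then b ^ (oddSet Φ T).card else 0) * ∏ r, f ∅ ∅ σ σ' r := by
    intro σ σ'
    rw [Finset.abs_prod]
    refine le_trans (Finset.prod_le_prod (fun r _ => abs_nonneg _) fun r _ => hf σ σ' r) ?_
    rw [Finset.prod_mul_distrib]
    apply mul_le_mul_of_nonneg_right _ (Finset.prod_nonneg fun r _ => hf0' σ σ' r)
    split_ifs with he
    · have : ∀ r, (Odd (nIn Φ T r) ↔ Odd (nIn Φ T' r)) := fun r => by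
        simpa [oddSet] using congrArg (fun S => r ∈ S) he
      simp only [this, if_true]
      rw [Finset.prod_ite, Finset.prod_const, Finset.prod_const_one, mul_one, he]; rfl
    · have : ∃ r, ¬ (Odd (nIn Φ T r) ↔ Odd (nIn Φ T' r)) := by
        by_contra hc
        push Not at hc
        apply he; ext r; simp [oddSet, hc r]
      obtain ⟨r, hr⟩ := this
      rw [Finset.prod_eq_zero (mem_univ r) (if_neg hr)]
  have k0 := key ∅ ∅
  simp only [chi, Finset.prod_empty, one_mul] at k0
  apply le_of_mul_le_mul_left _ (mul_pos hN0 hN0)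
  rw [← abs_of_pos (mul_pos hN0 hN0), ← abs_mul, key, abs_of_pos (mul_pos hN0 hN0),
    mul_left_comm, k0, Finset.mul_sum]
  refine le_trans (Finset.abs_sum_le_sum_abs _ _) (Finset.sum_le_sum fun σ _ => ?_)
  rw [Finset.mul_sum]
  refine le_trans (Finset.abs_sum_le_sum_abs _ _) (Finset.sum_le_sum fun σ' _ => ?_)
  have hw := mul_nonneg (wIn_nonneg (Φ := Φ) hθ σ) (wIn_nonneg (Φ := Φ) hθ σ')
  rw [abs_mul, abs_mul, abs_chi, abs_chi, one_mul, one_mul, abs_mul, abs_of_nonneg hw,
    mul_left_comm]
  exact mul_le_mul_of_nonneg_left (hprod σ σ') hw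

lemma sum_out {A B C : Type*} [Fintype A] [Fintype B] (s : Finset C) (f : A → B → C → ℝ) :
    ∑ a, ∑ b, ∑ c ∈ s, f a b c = ∑ c ∈ s, ∑ a, ∑ b, f a b c := by
  simp_rw [Finset.sum_comm (s := (univ : Finset B)) (t := s)]
  rw [Finset.sum_comm]

/-- The constant of the combinatorial factor. -/
def cXi (D : ℕ) : ℝ := (2 : ℝ) ^ (2 * D * (2 * D + 1)) * (16 * 4 ^ (2 * D))

lemma one_le_cXi (D : ℕ) : 1 ≤ cXi D := by
  unfold cXi
  have h1 : (1 : ℝ) ≤ 2 ^ (2 * D * (2 * D + 1)) := one_le_pow₀ (by norm_num)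
  have h2 : (1 : ℝ) ≤ 4 ^ (2 * D) := one_le_pow₀ (by norm_num)
  nlinarith

lemma fine_bound (hΦ : FValid Φ) (hG : Good D Φ) {θ a lam : ℝ} (hθ : |θ| ≤ 1) (ha : |a| ≤ 1)
    (hb : cXi D * (2 * |a| + 8 * D * |lam|) ≤ 1 / 2) :
    ∑ σ, ∑ σ', gbar Φ σ * gbar Φ σ' * Ker θ a lam Φ σ σ' ≤
      (1 + 2 * (cXi D * (2 * |a| + 8 * D * |lam|)) ^ 2) * ∑ σ, ∑ σ', Ker θ a lam Φ σ σ' := by
  set b := 2 * |a| + 8 * D * |lam| with hbdef
  have hb0 : 0 ≤ b := by positivity
  have hlam : 2 * D * |lam| ≤ 1 / 4 := by
    have h1 := one_le_cXi D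
    have h2 : b ≤ 1 / 2 := by nlinarith
    have h3 := abs_nonneg a
    rw [hbdef] at h2; linarith
  have hxi := xi_forest hΦ hG b hb0 hb
  set X := ∑ σ, ∑ σ', Ker θ a lam Φ σ σ' with hX
  have hX0 : 0 ≤ X := Finset.sum_nonneg fun σ _ => Finset.sum_nonneg fun σ' _ =>
    Ker_nonneg hθ ha _ _ _ _
  have hc : (0 : ℝ) < (Gam Φ).card := by exact_mod_cast card_Gam_pos
  have e1 : ∑ σ, ∑ σ', gbar Φ σ * gbar Φ σ' * Ker θ a lam Φ σ σ' =
      (∑ γ ∈ Gam Φ, ∑ γ' ∈ Gam Φ, ∑ J : Finset (Fin ℓ), ∑ J' : Finset (Fin ℓ),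
        (-1) ^ J.card * (-1) ^ J'.card * ∑ σ, ∑ σ', chi ((pairs J).image γ) σ *
          chi ((pairs J').image γ') σ' * Ker θ a lam Φ σ σ') / ((Gam Φ).card : ℝ) ^ 2 := by
    rw [eq_div_iff (by positivity)]
    have : ∀ σ σ', gbar Φ σ * gbar Φ σ' * Ker θ a lam Φ σ σ' * ((Gam Φ).card : ℝ) ^ 2 =
        ∑ γ ∈ Gam Φ, ∑ γ' ∈ Gam Φ, ∑ J : Finset (Fin ℓ), ∑ J' : Finset (Fin ℓ),
          (-1) ^ J.card * (-1) ^ J'.card * (chi ((pairs J).image γ) σ *
          chi ((pairs J').image γ') σ' * Ker θ a lam Φ σ σ') := by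
      intro σ σ'
      have : gbar Φ σ * gbar Φ σ' * Ker θ a lam Φ σ σ' * ((Gam Φ).card : ℝ) ^ 2 =
          (∑ γ ∈ Gam Φ, g0 (σ ∘ γ)) * (∑ γ ∈ Gam Φ, g0 (σ' ∘ γ)) * Ker θ a lam Φ σ σ' := by
        unfold gbar; field_simp
      rw [this, Finset.sum_mul_sum, Finset.sum_mul]
      refine Finset.sum_congr rfl fun γ _ => ?_
      rw [Finset.sum_mul]
      refine Finset.sum_congr rfl fun γ' _ => ?_
      rw [g0_expand, g0_expand, Finset.sum_mul_sum, Finset.sum_mul]
      refine Finset.sum_congr rfl fun J _ => ?_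
      rw [Finset.sum_mul]
      refine Finset.sum_congr rfl fun J' _ => ?_
      ring
    simp_rw [Finset.sum_mul, this, Finset.mul_sum]
    rw [sum_out]
    refine Finset.sum_congr rfl fun γ _ => ?_
    rw [sum_out]
    refine Finset.sum_congr rfl fun γ' _ => ?_
    rw [sum_out]
    refine Finset.sum_congr rfl fun J _ => ?_
    rw [sum_out]
  rw [e1, div_le_iff₀ (by positivity)]
  calc _ ≤ ∑ γ ∈ Gam Φ, ∑ γ' ∈ Gam Φ, ∑ J : Finset (Fin ℓ), ∑ J' : Finset (Fin ℓ),
        (if oddSet Φ ((pairs J).image γ) = oddSet Φ ((pairs J').image γ') then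
        b ^ (oddSet Φ ((pairs J).image γ)).card else 0) * X := by
        refine Finset.sum_le_sum fun γ _ => Finset.sum_le_sum fun γ' _ =>
          Finset.sum_le_sum fun J _ => Finset.sum_le_sum fun J' _ => ?_
        refine le_trans (le_abs_self _) ?_
        rw [abs_mul, abs_mul, abs_neg_one_pow, abs_neg_one_pow, one_mul, one_mul]
        exact char_bound hΦ hG hθ ha hlam _ _
    _ ≤ _ := by
        simp_rw [← Finset.sum_mul]
        rw [mul_right_comm]
        exact mul_le_mul_of_nonneg_right hxi hX0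

end Pool.Agent.MP_ff2ec0_pr

end MrgPart3

-- ======== part 4: formerly Pool.Agent.MP_ff2ec0_pr.Crude
section MrgPart4

/-!
A pointwise bound for the symmetrised density.
-/

namespace Pool.Agent.MP_ff2ec0_pr

open Finset Function

variable {ℓ : ℕ}

/-- The balanced type vector given by swapping the pairs marked by `x`. -/
def tau (x : Fin ℓ → Bool) : Fin ℓ × Bool → Bool := fun v => xor v.2 (x v.1)

lemma g0_eq (σ : Fin ℓ × Bool → Bool) :
    g0 σ = 2 ^ ℓ * ∑ x : Fin ℓ → Bool, if σ = tau x then 1 else 0 := by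
  by_cases h : σ = tau fun i => σ (i, false)
  · rw [Finset.sum_eq_single fun i => σ (i, false)]
    · rw [if_pos h, mul_one, g0]
      have : ∀ i : Fin ℓ, 1 - sg (σ (i, false)) * sg (σ (i, true)) = 2 := by
        intro i
        have := congrFun h (i, true)
        simp only [tau] at this
        rw [this]
        cases σ (i, false) <;> simp [sg] <;> norm_num
      simp [this]
    · intro x _ hx
      rw [if_neg]
      intro he
      apply hx
      ext i
      rw [he]; simp [tau]
    · simp
  · rw [Finset.sum_eq_zero, mul_zero]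
    · have : ∃ i, σ (i, true) = σ (i, false) := by
        by_contra hc
        push Not at hc
        apply h
        ext ⟨i, b⟩
        have := hc i
        cases b
        · simp [tau]
        · simp only [tau]
          revert this
          cases σ (i, true) <;> cases σ (i, false) <;> simp
      obtain ⟨i, hi⟩ := this
      apply Finset.prod_eq_zero (mem_univ i)
      rw [hi, sg_mul_self, sub_self]
    · intro x _
      rw [if_neg]
      intro he
      apply h
      rw [he]; ext ⟨i, b⟩; simp [tau]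

/-- Number of edges inside the block. -/
def nint (Φ : Fin ℓ × Bool → Option (Fin ℓ × Bool)) : ℕ :=
  (univ.filter fun v => Φ v ≠ none).card

lemma gbar_le (Φ : Fin ℓ × Bool → Option (Fin ℓ × Bool)) (σ : Fin ℓ × Bool → Bool) :
    gbar Φ σ ≤ (2 * ℓ + 1) * 16 ^ nint Φ := by
  classical
  let iso : Fin ℓ × Bool → Prop := fun v => Φ v = none ∧ ∀ u, Φ u ≠ some v
  set P := univ.filter fun i : Fin ℓ => iso (i, false) ∧ iso (i, true) with hP
  have hiso : ∀ v ∈ pairs P, iso v := by
    rintro ⟨i, b⟩ hv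
    simp only [pairs, hP, mem_filter, mem_univ, true_and] at hv
    cases b
    · exact hv.1
    · exact hv.2
  have hcode : ∀ v, iso v → code Φ v = some {(0, none)} := by
    intro v hv
    have h1 : ∀ u, root Φ u = v → u = v := by
      suffices h : ∀ m : ℕ, ∀ u : Fin ℓ × Bool, u.1.val = m → root Φ u = v → u = v from
        fun u => h _ u rfl
      intro m
      induction m using Nat.strong_induction_on with
      | _ m ih =>
        intro u hu hr
        rw [root] at hr
        cases h : Φ u with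
        | none => simpa [h] using hr
        | some w =>
          simp only [h] at hr
          split_ifs at hr with hw
          · exact absurd (ih _ (by rw [← hu]; exact hw) w rfl hr ▸ h) (hv.2 u)
          · exact hr
    have h2 : (univ.filter fun u => root Φ u = v) = {v} := by
      ext u
      simp only [mem_filter, mem_univ, true_and, mem_singleton]
      exact ⟨h1 u, fun h => h ▸ root_none (h ▸ hv.1)⟩
    have h3 : pos Φ v = 0 := by
      have := pos_lt_card (Φ := Φ) v
      rw [root_none hv.1, h2, card_singleton] at this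
      omega
    unfold code
    rw [if_pos hv.1, h2, image_singleton, h3, hv.1]; rfl
  have hn1 : ℓ ≤ P.card + 2 * nint Φ := by
    have h1 : (univ : Finset (Fin ℓ)) ⊆ P ∪ ((univ.filter fun v => Φ v ≠ none).image Prod.fst ∪
        (univ.filter fun v => Φ v ≠ none).image fun v => ((Φ v).getD v).1) := by
      intro i _
      by_cases hi : i ∈ P
      · exact mem_union_left _ hi
      · apply mem_union_right
        have : ∃ b, ¬ iso (i, b) := by
          by_contra hc
          push Not at hc
          exact hi (mem_filter.2 ⟨mem_univ _, hc false, hc true⟩)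
        obtain ⟨b, hb⟩ := this
        by_cases h : Φ (i, b) = none
        · have : ∃ u, Φ u = some (i, b) := by
            by_contra hc
            push Not at hc
            exact hb ⟨h, hc⟩
          obtain ⟨u, hu⟩ := this
          exact mem_union_right _ (mem_image.2 ⟨u, by simp [hu], by simp [hu]⟩)
        · exact mem_union_left _ (mem_image.2 ⟨(i, b), by simp [h], rfl⟩)
    have h2 := card_le_card h1
    have h3 := card_union_le P ((univ.filter fun v => Φ v ≠ none).image Prod.fst ∪
        (univ.filter fun v => Φ v ≠ none).image fun v => ((Φ v).getD v).1)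
    have h4 := card_union_le ((univ.filter fun v => Φ v ≠ none).image Prod.fst)
        ((univ.filter fun v => Φ v ≠ none).image fun v => ((Φ v).getD v).1)
    have h5 := card_image_le (s := univ.filter fun v => Φ v ≠ none) (f := Prod.fst)
    have h6 := card_image_le (s := univ.filter fun v => Φ v ≠ none)
      (f := fun v => ((Φ v).getD v).1)
    simp only [card_univ, Fintype.card_fin] at h2
    unfold nint
    omega
  have horb : ∀ x : Fin ℓ → Bool, ((Gam Φ).filter fun γ : Equiv.Perm (Fin ℓ × Bool) =>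
      σ ∘ γ = tau x).card * (2 * P.card).choose P.card ≤ (Gam Φ).card := by
    intro x
    let mk : Finset (Fin ℓ × Bool) → Fin ℓ × Bool → Bool := fun A v =>
      if v ∈ pairs P then decide (v ∈ A) else tau x v
    have hcard : ((powersetCard P.card (pairs P)).image mk).card = (2 * P.card).choose P.card := by
      rw [card_image_of_injOn, card_powersetCard, pairs, card_pairs]
      intro A hA B hB he
      simp only [mem_coe, mem_powersetCard] at hA hB
      ext v
      by_cases hv : v ∈ pairs P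
      · simpa [mk, hv] using congrFun he v
      · exact ⟨fun h => absurd (hA.1 h) hv, fun h => absurd (hB.1 h) hv⟩
    rw [← hcard]
    apply orbit_bound (Gam Φ) (fun γ : Equiv.Perm (Fin ℓ × Bool) => σ ∘ γ)
    intro σ1 hσ1
    obtain ⟨A, hA, rfl⟩ := mem_image.1 hσ1
    rw [mem_powersetCard] at hA
    have hcount : ∀ b, ((pairs P).filter fun v => tau x v = b).card = P.card := by
      intro b
      symm
      apply Finset.card_bij (fun i _ => (i, xor b (x i)))
      · intro i hi
        simp [pairs, tau, hi]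
      · intro i _ j _ h; exact congrArg Prod.fst h
      · rintro ⟨i, c⟩ hv
        simp only [pairs, tau, mem_filter, mem_univ, true_and] at hv
        refine ⟨i, hv.1, ?_⟩
        rw [← hv.2]; simp
    obtain ⟨π, hπ⟩ := exists_perm_of_fibers
      (fun v => if v ∈ pairs P then Sum.inl (decide (v ∈ A)) else Sum.inr v)
      (fun v => if v ∈ pairs P then Sum.inl (tau x v) else Sum.inr v) (by
        rintro (b | w)
        · have e1 : (univ.filter fun v => (if v ∈ pairs P then Sum.inl (tau x v) else Sum.inr v :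
              Bool ⊕ (Fin ℓ × Bool)) = Sum.inl b) = (pairs P).filter fun v => tau x v = b := by
            ext v; by_cases hv : v ∈ pairs P <;> simp [hv]
          rw [e1, hcount]
          cases b
          · have e2 : (univ.filter fun v => (if v ∈ pairs P then Sum.inl (decide (v ∈ A)) else
                Sum.inr v : Bool ⊕ (Fin ℓ × Bool)) = Sum.inl false) = pairs P \ A := by
              ext v; by_cases hv : v ∈ pairs P <;> simp [hv]
            rw [e2, card_sdiff_of_subset hA.1, hA.2, pairs, card_pairs]; omega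
          · have e2 : (univ.filter fun v => (if v ∈ pairs P then Sum.inl (decide (v ∈ A)) else
                Sum.inr v : Bool ⊕ (Fin ℓ × Bool)) = Sum.inl true) = A := by
              ext v
              by_cases hv : v ∈ pairs P
              · simp [hv]
              · simp only [mem_filter, mem_univ, hv, if_false, true_and, reduceCtorEq, false_iff]
                exact fun h => hv (hA.1 h)
            rw [e2, hA.2]
        · congr 1
          ext v; by_cases hv : v ∈ pairs P <;> simp [hv])
    have hin : ∀ v ∈ pairs P, π v ∈ pairs P ∧ tau x (π v) = decide (v ∈ A) := by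
      intro v hv
      have := hπ v
      simp only [hv, if_true] at this
      split_ifs at this with h
      exact ⟨h, Sum.inl.inj this⟩
    have hout : ∀ v ∉ pairs P, π v = v := by
      intro v hv
      have := hπ v
      simp only [hv, if_false] at this
      split_ifs at this with h
      exact Sum.inr.inj this
    have hπG : π ∈ Gam Φ := by
      rw [mem_Gam]
      constructor
      · intro v
        by_cases hv : v ∈ pairs P
        · rw [(hiso _ (hin v hv).1).1, (hiso _ hv).1]; rfl
        · rw [hout v hv]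
          cases h : Φ v with
          | none => rfl
          | some u => rw [Option.map_some, hout u fun hu => (hiso u hu).2 v h]
      · intro v
        by_cases hv : v ∈ pairs P
        · rw [hcode _ (hiso _ (hin v hv).1), hcode _ (hiso _ hv)]
        · rw [hout v hv]
    refine ⟨fun g => g * π, mul_left_injective π, fun g hg he => ⟨mul_mem_Gam hg hπG, ?_⟩⟩
    ext v
    have : σ (g (π v)) = tau x (π v) := congrFun he (π v)
    simp only [Function.comp, Equiv.Perm.mul_apply, this, mk]
    split_ifs with hv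
    · exact (hin v hv).2
    · rw [hout v hv]
  have hc : (0 : ℝ) < (Gam Φ).card := by exact_mod_cast card_Gam_pos
  have hch : (0 : ℝ) < (2 * P.card).choose P.card := by
    exact_mod_cast Nat.choose_pos (by omega)
  unfold gbar
  rw [div_le_iff₀ hc]
  simp_rw [g0_eq]
  rw [← Finset.mul_sum, Finset.sum_comm]
  have h1 : ∀ x ∈ (univ : Finset (Fin ℓ → Bool)), ∑ γ ∈ Gam Φ,
      (if σ ∘ γ = tau x then (1 : ℝ) else 0) ≤ (Gam Φ).card / (2 * P.card).choose P.card := by
    intro x _
    rw [← Finset.sum_filter, Finset.sum_const, nsmul_eq_mul, mul_one, le_div_iff₀ hch]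
    exact_mod_cast horb x
  have h2 := Finset.sum_le_card_nsmul _ _ _ h1
  simp only [card_univ, Fintype.card_fun, Fintype.card_bool, Fintype.card_fin, nsmul_eq_mul] at h2
  refine le_trans (mul_le_mul_of_nonneg_left h2 (by positivity)) ?_
  rw [← mul_assoc, ← mul_div_assoc, div_le_iff₀ hch,
    mul_right_comm _ ((Gam Φ).card : ℝ) (((2 * P.card).choose P.card : ℕ) : ℝ)]
  apply mul_le_mul_of_nonneg_right _ hc.le
  have h3 := Nat.four_pow_le_two_mul_add_one_mul_central_binom P.card
  have hPl : P.card ≤ ℓ := by simpa using card_le_univ P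
  have h4 : 2 ^ ℓ * 2 ^ ℓ ≤ (2 * ℓ + 1) * 16 ^ nint Φ * (2 * P.card).choose P.card := by
    calc 2 ^ ℓ * 2 ^ ℓ = 4 ^ ℓ := by rw [← mul_pow]; rfl
      _ ≤ 4 ^ (P.card + 2 * nint Φ) := Nat.pow_le_pow_right (by norm_num) hn1
      _ = 4 ^ P.card * 16 ^ nint Φ := by rw [pow_add, pow_mul]; rfl
      _ ≤ ((2 * ℓ + 1) * (2 * P.card).choose P.card) * 16 ^ nint Φ := by
          apply Nat.mul_le_mul_right
          exact le_trans h3 (Nat.mul_le_mul_right _ (by omega))
      _ = _ := by ring
  exact_mod_cast h4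

end Pool.Agent.MP_ff2ec0_pr

end MrgPart4

-- ======== part 5: formerly Pool.Agent.MP_ff2ec0_pr.Prod
section MrgPart5

/-!
Finite product weights: resampling and push-forward.
-/

namespace Pool.Agent.MP_ff2ec0_pr

open Finset Function

variable {ι α β : Type*} [Fintype ι] [DecidableEq ι] [Fintype α] [Fintype β]
  {R : Type*} [CommRing R]

lemma resample (r : ι → α → R) (v : ι) (hr : ∑ c, r v c = 1) (F : (ι → α) → R) :
    ∑ p : ι → α, (∏ u, r u (p u)) * F p =
      ∑ p : ι → α, (∏ u, r u (p u)) * ∑ c, r v c * F (update p v c) := by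
  classical
  have h1 : ∑ p : ι → α, (∏ u, r u (p u)) * F p =
      ∑ x : (ι → α) × α, (∏ u, r u (x.1 u)) * r v x.2 * F x.1 := by
    rw [Fintype.sum_prod_type]
    refine Finset.sum_congr rfl fun p _ => ?_
    simp only
    rw [← Finset.sum_mul, ← Finset.mul_sum, hr, mul_one]
  have h2 : ∑ p : ι → α, (∏ u, r u (p u)) * ∑ c, r v c * F (update p v c) =
      ∑ x : (ι → α) × α, (∏ u, r u (x.1 u)) * r v x.2 * F (update x.1 v x.2) := by
    rw [Fintype.sum_prod_type]
    refine Finset.sum_congr rfl fun p _ => ?_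
    rw [Finset.mul_sum]
    refine Finset.sum_congr rfl fun c _ => ?_
    ring
  let e : (ι → α) × α ≃ (ι → α) × α :=
    Function.Involutive.toPerm (fun x => (update x.1 v x.2, x.1 v)) (by
      rintro ⟨p, c⟩
      simp)
  rw [h1, h2, ← e.sum_comp]
  refine Finset.sum_congr rfl fun x _ => ?_
  obtain ⟨p, c⟩ := x
  simp only [e, Function.Involutive.coe_toPerm]
  congr 1
  rw [← Finset.mul_prod_erase univ (fun u => r u (update p v c u)) (mem_univ v),
    ← Finset.mul_prod_erase univ (fun u => r u (p u)) (mem_univ v)]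
  have : ∏ u ∈ univ.erase v, r u (update p v c u) = ∏ u ∈ univ.erase v, r u (p u) :=
    Finset.prod_congr rfl fun u hu => by rw [update_of_ne (ne_of_mem_erase hu)]
  rw [this, update_self]
  ring

lemma prod_resample (r : ι → α → R) (hr : ∀ v, ∑ c, r v c = 1) (T : Finset ι)
    (h : ι → (ι → α) → α → R) (hh : ∀ v p, ∀ u ∈ T, ∀ c, h v (update p u c) = h v p)
    (T' : Finset ι) (hT : T' ⊆ T) (G : (ι → α) → R)
    (hG : ∀ p, ∀ u ∈ T, ∀ c, G (update p u c) = G p) :
    ∑ p : ι → α, (∏ u, r u (p u)) * (G p * ∏ v ∈ T', h v p (p v)) =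
      ∑ p : ι → α, (∏ u, r u (p u)) * (G p * ∏ v ∈ T', ∑ c, r v c * h v p c) := by
  induction T' using Finset.induction_on generalizing G with
  | empty => simp
  | insert w T' hw ih =>
    have hwT : w ∈ T := hT (mem_insert_self _ _)
    have hT' : T' ⊆ T := fun x hx => hT (mem_insert_of_mem hx)
    rw [resample r w (hr w)]
    have := ih hT' (fun p => G p * ∑ c, r w c * h w p c) (by
      intro p u hu c
      rw [hG p u hu c, hh w p u hu c])
    simp only [Finset.prod_insert hw]
    convert this using 1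
    · refine Finset.sum_congr rfl fun p _ => ?_
      congr 1
      rw [Finset.mul_sum, Finset.sum_mul]
      refine Finset.sum_congr rfl fun c _ => ?_
      rw [hG p w hwT c, hh w p w hwT c, update_self]
      have : ∏ v ∈ T', h v (update p w c) (update p w c v) = ∏ v ∈ T', h v p (p v) :=
        Finset.prod_congr rfl fun v hv => by
          rw [hh v p w hwT c, update_of_ne (by rintro rfl; exact hw hv)]
      rw [this]; ring
    · refine Finset.sum_congr rfl fun p _ => ?_
      ring

lemma pushforward [DecidableEq β] (g : α → β) (h : ι → α → R) (H : (ι → β) → R) :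
    ∑ x : ι → α, (∏ v, h v (x v)) * H (fun v => g (x v)) =
      ∑ y : ι → β, (∏ v, ∑ c, if g c = y v then h v c else 0) * H y := by
  classical
  have h1 : ∀ y : ι → β, (∏ v, ∑ c, if g c = y v then h v c else 0) =
      ∑ x : ι → α, if (fun v => g (x v)) = y then ∏ v, h v (x v) else 0 := by
    intro y
    rw [Finset.prod_univ_sum, Fintype.piFinset_univ]
    refine Finset.sum_congr rfl fun x _ => ?_
    rw [Finset.prod_ite_zero]
    simp only [mem_univ, true_imp_iff, funext_iff]
  simp_rw [h1, Finset.sum_mul]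
  rw [Finset.sum_comm]
  refine Finset.sum_congr rfl fun x _ => ?_
  rw [Finset.sum_eq_single (fun v => g (x v))]
  · simp
  · intro y _ hy
    rw [if_neg (Ne.symm hy), zero_mul]
  · simp

lemma sum_prod_eq_one (r : ι → α → R) (hr : ∀ v, ∑ c, r v c = 1) :
    ∑ p : ι → α, ∏ u, r u (p u) = 1 := by
  rw [← Fintype.piFinset_univ, ← Finset.prod_univ_sum]
  simp [hr]

end Pool.Agent.MP_ff2ec0_pr

end MrgPart5

-- ======== part 6: formerly Pool.Agent.MP_ff2ec0_pr.PartA1
section MrgPart6

/-!
Subtree sizes: structure and second moment.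
-/

namespace Pool.Agent.MP_ff2ec0_pr

open Finset Function Classical

variable {n : ℕ}

lemma stepProb_nonneg {q : ℝ} (h0 : 0 ≤ q) (h1 : q ≤ 1) (v c : Fin n × Bool) :
    0 ≤ stepProb q v c := by
  unfold stepProb
  have : 0 ≤ 1 - q := by linarith
  split_ifs <;> positivity

lemma card_time_lt (m : ℕ) (hm : m ≤ n) :
    (univ.filter fun c : Fin n × Bool => c.1.val < m).card = 2 * m := by
  have : (univ.filter fun c : Fin n × Bool => c.1.val < m) =
      (univ.filter fun i : Fin n => i.val < m) ×ˢ (univ : Finset Bool) := by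
    ext c; simp
  rw [this, card_product, Fin.card_filter_val_lt, min_eq_right hm]
  simp [mul_comm]

lemma stepProb_pair (q : ℝ) (i : Fin n) (hi : i.val ≠ 0) (c : Fin n × Bool) :
    stepProb q (i, false) c + stepProb q (i, true) c = if c.1 < i then 1 / (i.val : ℝ) else 0 := by
  unfold stepProb
  obtain ⟨j, b⟩ := c
  cases b <;> simp only [hi, if_false] <;> split_ifs <;> simp_all <;> ring

lemma sum_stepProb (q : ℝ) (v : Fin n × Bool) : ∑ c, stepProb q v c = 1 := by
  by_cases hv : v.1.val = 0
  · simp [stepProb, hv]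
  · rw [Fintype.sum_prod_type]
    have : ∀ j : Fin n, ∑ b : Bool, stepProb q v (j, b) =
        if j.val < v.1.val then 1 / (v.1.val : ℝ) else 0 := by
      intro j
      obtain ⟨i, b⟩ := v
      unfold stepProb
      simp only at hv
      cases b <;> simp only [hv, if_false, Fintype.sum_bool, Fin.lt_def] <;> split_ifs <;>
        simp_all <;> ring
    simp_rw [this]
    rw [← Finset.sum_filter, Finset.sum_const, Fin.card_filter_val_lt, min_eq_right v.1.isLt.le]
    have : (v.1.val : ℝ) ≠ 0 := by exact_mod_cast hv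
    simp [this]

/-- A history that has nonzero probability. -/
def Valid (p : Fin n × Bool → Fin n × Bool) : Prop :=
  ∀ v, (v.1.val = 0 → p v = (v.1, !v.2)) ∧ (v.1.val ≠ 0 → (p v).1 < v.1)

lemma valid_of_ne_zero {q : ℝ} {p : Fin n × Bool → Fin n × Bool}
    (h : ∏ v, stepProb q v (p v) ≠ 0) : Valid p := by
  intro v
  have := Finset.prod_ne_zero_iff.1 h v (mem_univ v)
  unfold stepProb at this
  constructor
  · intro hv
    by_contra hc
    simp [hv, hc] at this
  · intro hv
    by_contra hc
    simp [hv, hc] at this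

/-- Descendants of `v`. -/
inductive Desc (p : Fin n × Bool → Fin n × Bool) (v : Fin n × Bool) : Fin n × Bool → Prop
  | refl : Desc p v v
  | step (u : Fin n × Bool) : (p u).1 < u.1 → Desc p v (p u) → Desc p v u

lemma Desc.time_le {p : Fin n × Bool → Fin n × Bool} {v u : Fin n × Bool} (h : Desc p v u) :
    v.1 ≤ u.1 := by
  induction h with
  | refl => exact le_rfl
  | step u h1 _ ih => exact le_trans ih h1.le

lemma desc_iff {p : Fin n × Bool → Fin n × Bool} {v u : Fin n × Bool} :
    Desc p v u ↔ u = v ∨ ((p u).1 < u.1 ∧ Desc p v (p u)) := by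
  constructor
  · intro h
    cases h with
    | refl => exact Or.inl rfl
    | step _ h1 h2 => exact Or.inr ⟨h1, h2⟩
  · rintro (rfl | ⟨h1, h2⟩)
    · exact Desc.refl
    · exact Desc.step u h1 h2

lemma Desc.congr {p p' : Fin n × Bool → Fin n × Bool} {v u : Fin n × Bool} (h : Desc p v u)
    (hp : ∀ w, w.1 ≤ u.1 → p w = p' w) : Desc p' v u := by
  induction h with
  | refl => exact Desc.refl
  | step u h1 _ ih =>
    have e := hp u le_rfl
    refine Desc.step u (e ▸ h1) (e ▸ ih fun w hw => hp w (le_trans hw h1.le))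

lemma desc_update {p : Fin n × Bool → Fin n × Bool} {v u w c : Fin n × Bool} (h : u.1 < w.1) :
    Desc (update p w c) v u ↔ Desc p v u := by
  have key : ∀ x : Fin n × Bool, x.1 ≤ u.1 → update p w c x = p x := fun x hx =>
    update_of_ne (by rintro rfl; exact absurd h (not_lt.2 hx)) _ _
  exact ⟨fun h' => h'.congr key, fun h' => h'.congr fun x hx => (key x hx).symm⟩

/-- Indicator of being a descendant of `v` born before time `m`. -/
noncomputable def ind (p : Fin n × Bool → Fin n × Bool) (v : Fin n × Bool) (m : ℕ)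
    (c : Fin n × Bool) : ℝ :=
  if c.1.val < m ∧ Desc p v c then 1 else 0

/-- Number of descendants of `v` born before time `m`. -/
noncomputable def cnt (p : Fin n × Bool → Fin n × Bool) (v : Fin n × Bool) (m : ℕ) : ℝ :=
  ∑ c, ind p v m c

lemma ind_update {p : Fin n × Bool → Fin n × Bool} {v w c : Fin n × Bool} {m : ℕ}
    (h : m ≤ w.1.val) : ind (update p w c) v m = ind p v m := by
  ext u
  unfold ind
  by_cases hu : u.1.val < m
  · rw [desc_update (show u.1 < w.1 from Fin.lt_def.2 (lt_of_lt_of_le hu h))]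
  · simp [hu]

lemma cnt_update {p : Fin n × Bool → Fin n × Bool} {v w c : Fin n × Bool} {m : ℕ}
    (h : m ≤ w.1.val) : cnt (update p w c) v m = cnt p v m := by
  unfold cnt; rw [ind_update h]

lemma ind_nonneg (p : Fin n × Bool → Fin n × Bool) (v : Fin n × Bool) (m : ℕ) (c : Fin n × Bool) :
    0 ≤ ind p v m c := by unfold ind; split_ifs <;> norm_num

lemma ind_le_one (p : Fin n × Bool → Fin n × Bool) (v : Fin n × Bool) (m : ℕ) (c : Fin n × Bool) :
    ind p v m c ≤ 1 := by unfold ind; split_ifs <;> norm_num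

lemma ind_sq (p : Fin n × Bool → Fin n × Bool) (v : Fin n × Bool) (m : ℕ) (c : Fin n × Bool) :
    ind p v m c * ind p v m c = ind p v m c := by unfold ind; split_ifs <;> norm_num

lemma cnt_nonneg (p : Fin n × Bool → Fin n × Bool) (v : Fin n × Bool) (m : ℕ) :
    0 ≤ cnt p v m := Finset.sum_nonneg fun c _ => ind_nonneg p v m c

lemma cnt_succ (p : Fin n × Bool → Fin n × Bool) (v : Fin n × Bool) (i : Fin n) (hv : v.1 < i) :
    cnt p v (i.val + 1) = cnt p v i.val + ind p v i.val (p (i, false)) +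
      ind p v i.val (p (i, true)) := by
  have key : ∀ b, ind p v (i.val + 1) (i, b) = ind p v i.val (p (i, b)) := by
    intro b
    unfold ind
    have : (i, b) ≠ v := by rintro rfl; exact lt_irrefl _ hv
    rw [desc_iff (u := (i, b))]
    simp only [this, false_or, Fin.lt_def, Nat.lt_succ_self, true_and]
  have h2 : ∀ c : Fin n × Bool, ind p v (i.val + 1) c = ind p v i.val c +
      (if c = (i, false) then ind p v (i.val + 1) (i, false) else 0) +
      (if c = (i, true) then ind p v (i.val + 1) (i, true) else 0) := by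
    rintro ⟨j, b⟩
    by_cases hj : j = i
    · subst hj
      cases b <;> simp [ind]
    · have h3 : j.val ≠ i.val := fun h => hj (Fin.ext h)
      have h4 : (j.val < i.val + 1) ↔ (j.val < i.val) := by omega
      simp [ind, hj, h4]
  unfold cnt
  rw [Finset.sum_congr rfl fun c _ => h2 c, Finset.sum_add_distrib, Finset.sum_add_distrib]
  simp [key]

lemma cnt_base (p : Fin n × Bool → Fin n × Bool) (v : Fin n × Bool) :
    cnt p v (v.1.val + 1) ≤ 1 := by
  unfold cnt
  rw [Finset.sum_eq_single v]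
  · exact ind_le_one _ _ _ _
  · intro c _ hc
    unfold ind
    rw [if_neg]
    rintro ⟨h1, h2⟩
    rcases desc_iff.1 h2 with h | ⟨h3, h4⟩
    · exact hc h
    · have := h4.time_le
      rw [Fin.lt_def] at h3
      rw [Fin.le_def] at this
      omega
  · simp

lemma second_moment {q : ℝ} (h0 : 0 ≤ q) (h1 : q ≤ 1) (v : Fin n × Bool) (m : ℕ)
    (hm : v.1.val + 1 ≤ m) (hmn : m ≤ n) :
    ∑ p : Fin n × Bool → Fin n × Bool, (∏ u, stepProb q u (p u)) * (cnt p v m * (cnt p v m + 2)) ≤
      3 * ((m : ℝ) / (v.1.val + 1)) ^ 2 := by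
  have hw : ∀ p : Fin n × Bool → Fin n × Bool, 0 ≤ ∏ u, stepProb q u (p u) := fun p =>
    Finset.prod_nonneg fun u _ => stepProb_nonneg h0 h1 _ _
  induction m, hm using Nat.le_induction with
  | base =>
    have : (((v.1.val + 1 : ℕ) : ℝ) / (v.1.val + 1)) = 1 := by
      push_cast; field_simp
    rw [this]
    calc _ ≤ ∑ p : Fin n × Bool → Fin n × Bool, (∏ u, stepProb q u (p u)) * 3 := by
          refine Finset.sum_le_sum fun p _ => mul_le_mul_of_nonneg_left ?_ (hw p)
          have := cnt_base p v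
          have := cnt_nonneg p v (v.1.val + 1)
          nlinarith
      _ = 3 * 1 ^ 2 := by
          rw [← Finset.sum_mul, sum_prod_eq_one _ (sum_stepProb q)]; norm_num
  | succ m hm ih =>
    have ih' := ih (by omega)
    let i : Fin n := ⟨m, by omega⟩
    have hvi : v.1 < i := by rw [Fin.lt_def]; simp only [i]; omega
    have hm0 : (0 : ℝ) < m := by exact_mod_cast (by omega : 0 < m)
    have key : ∀ b, ∑ p : Fin n × Bool → Fin n × Bool, (∏ u, stepProb q u (p u)) *
        ((2 * cnt p v m + 4) * ind p v m (p (i, b))) =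
        ∑ p : Fin n × Bool → Fin n × Bool, (∏ u, stepProb q u (p u)) *
        ((2 * cnt p v m + 4) * ∑ c, stepProb q (i, b) c * ind p v m c) := by
      intro b
      have := prod_resample (stepProb q) (sum_stepProb q) {(i, b)} (fun _ p c => ind p v m c)
        (by
          intro _ p u hu c
          rw [mem_singleton.1 hu, ind_update le_rfl]) {(i, b)} subset_rfl
        (fun p => 2 * cnt p v m + 4) (by
          intro p u hu c
          rw [mem_singleton.1 hu, cnt_update le_rfl])
      simpa using this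
    have hsum : ∀ p : Fin n × Bool → Fin n × Bool,
        ∑ c, stepProb q (i, false) c * ind p v m c + ∑ c, stepProb q (i, true) c * ind p v m c =
        cnt p v m / m := by
      intro p
      rw [← Finset.sum_add_distrib, cnt, Finset.sum_div]
      refine Finset.sum_congr rfl fun c _ => ?_
      rw [← add_mul, stepProb_pair q i (by simp only [i]; omega)]
      unfold ind
      by_cases hc : c.1.val < m
      · rw [if_pos (show c.1 < i from hc)]; simp only [i]; ring
      · simp [hc]
    calc _ ≤ ∑ p : Fin n × Bool → Fin n × Bool, (∏ u, stepProb q u (p u)) *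
          (cnt p v m * (cnt p v m + 2) + (2 * cnt p v m + 4) * ind p v m (p (i, false)) +
            (2 * cnt p v m + 4) * ind p v m (p (i, true))) := by
          refine Finset.sum_le_sum fun p _ => mul_le_mul_of_nonneg_left ?_ (hw p)
          have e := cnt_succ p v i hvi
          simp only [i] at e
          rw [e]
          have a1 := ind_sq p v m (p (i, false))
          have a2 := ind_sq p v m (p (i, true))
          simp only [i] at a1 a2 ⊢
          nlinarith [sq_nonneg (ind p v m (p (⟨m, by omega⟩, false)) -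
            ind p v m (p (⟨m, by omega⟩, true)))]
      _ = ∑ p : Fin n × Bool → Fin n × Bool, (∏ u, stepProb q u (p u)) *
          (cnt p v m * (cnt p v m + 2)) * (1 + 2 / m) := by
          have e0 : ∀ (w a b c : ℝ), w * (a + b + c) = w * a + w * b + w * c := by
            intros; ring
          simp_rw [e0]
          rw [Finset.sum_add_distrib, Finset.sum_add_distrib, key false, key true,
            ← Finset.sum_add_distrib, ← Finset.sum_add_distrib]
          refine Finset.sum_congr rfl fun p _ => ?_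
          have := hsum p
          rw [add_assoc, ← mul_add, ← mul_add (2 * cnt p v m + 4), this]
          ring
      _ ≤ 3 * ((m : ℝ) / (v.1.val + 1)) ^ 2 * (1 + 2 / m) := by
          rw [← Finset.sum_mul]
          exact mul_le_mul_of_nonneg_right ih' (by positivity)
      _ ≤ _ := by
          push_cast
          have : (m : ℝ) ^ 2 * (1 + 2 / m) ≤ (m + 1) ^ 2 := by
            have : (m : ℝ) ^ 2 * (1 + 2 / m) = m ^ 2 + 2 * m := by field_simp
            nlinarith
          rw [div_pow, div_pow, mul_assoc, div_mul_eq_mul_div]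
          gcongr

/-- A cut with a single crossing edge is the set of descendants of a node. -/
lemma cut_eq_desc {p : Fin n × Bool → Fin n × Bool} (hp : Valid p) (S : Finset (Fin n × Bool))
    (v : Fin n × Bool) (hv : v ∈ S) (hpv : p v ∉ S)
    (huniq : ∀ a ∈ S, ∀ b ∉ S, (tree p).Adj a b → a = v ∧ b = p v) (u : Fin n × Bool) :
    u ∈ S ↔ Desc p v u := by
  have hadj : ∀ w, (tree p).Adj w (p w) := by
    intro w
    rw [tree, SimpleGraph.fromRel_adj]
    refine ⟨?_, Or.inl rfl⟩
    intro he
    by_cases hw : w.1.val = 0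
    · have := (hp w).1 hw
      rw [← he] at this
      have := congrArg Prod.snd this
      simp at this
    · have := (hp w).2 hw
      rw [← he] at this
      exact lt_irrefl _ this
  have hroot : ∀ w : Fin n × Bool, w.1.val = 0 → (Desc p v w ↔ w = v) := by
    intro w hw
    rw [desc_iff]
    have : ¬ (p w).1 < w.1 := by rw [Fin.lt_def]; omega
    simp [this]
  have hpp : ∀ w : Fin n × Bool, w.1.val = 0 → (p w).1.val = 0 ∧ p (p w) = w ∧ p w ≠ w := by
    intro w hw
    have e1 := (hp w).1 hw
    have e2 := (hp (p w)).1 (by rw [e1]; exact hw)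
    refine ⟨by rw [e1]; exact hw, by rw [e2, e1]; simp, (hadj w).ne'⟩
  have hnd : ¬ Desc p v (p v) := by
    by_cases hv0 : v.1.val = 0
    · rw [hroot _ (hpp v hv0).1]; exact (hpp v hv0).2.2
    · intro h
      exact absurd ((hp v).2 hv0) (not_lt.2 h.time_le)
  -- the agreement predicate is constant along parent edges
  have hstep : ∀ w, ((w ∈ S ↔ Desc p v w) ↔ (p w ∈ S ↔ Desc p v (p w))) := by
    intro w
    by_cases hwv : w = v
    · subst hwv
      simp [hv, hpv, hnd, Desc.refl]
    by_cases hw2 : p w = v ∧ w = p v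
    · obtain ⟨e1, e2⟩ := hw2
      rw [e1, e2]
      simp [hv, hpv, hnd, Desc.refl]
    have hS : w ∈ S ↔ p w ∈ S := by
      constructor
      · intro h; by_contra h'
        exact hwv (huniq w h (p w) h' (hadj w)).1
      · intro h; by_contra h'
        exact hw2 (huniq (p w) h w h' (hadj w).symm)
    have hD : Desc p v w ↔ Desc p v (p w) := by
      by_cases hw0 : w.1.val = 0
      · rw [hroot w hw0, hroot _ (hpp w hw0).1]
        constructor
        · intro h; exact absurd h hwv
        · intro h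
          exact absurd ⟨h, by rw [← h, (hpp w hw0).2.1]⟩ hw2
      · rw [desc_iff (u := w)]
        simp [hwv, (hp w).2 hw0]
    rw [hS, hD]
  have hall : ∀ (m : ℕ) (w : Fin n × Bool), w.1.val = m →
      ((w ∈ S ↔ Desc p v w) ↔ ((⟨⟨0, v.1.pos⟩, false⟩ : Fin n × Bool) ∈ S ↔
        Desc p v ⟨⟨0, v.1.pos⟩, false⟩)) := by
    intro m
    induction m using Nat.strong_induction_on with
    | _ m ih =>
      intro w hw
      by_cases hw0 : w.1.val = 0
      · obtain ⟨j, b⟩ := w
        have hj : j = ⟨0, v.1.pos⟩ := Fin.ext hw0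
        subst hj
        cases b
        · rfl
        · rw [hstep, (hp _).1 hw0]; rfl
      · rw [hstep]
        exact ih _ (by rw [← hw]; exact (hp w).2 hw0) _ rfl
  rw [hall _ u rfl, ← hall _ v rfl]
  simp [hv, Desc.refl]

end Pool.Agent.MP_ff2ec0_pr

end MrgPart6

-- marker of a merged file
example : 731051 + 738921 = 731051 + 738921 := rfl
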