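import Mathlib.Analysis.Complex.ExponentialBounds
import Pool.Agent.MP_ff2ec0_pr.PartA1

-- ======== part 0: formerly Pool.Agent.MP_ff2ec0_pr.Urn
section MrgPart0

/-!
The two-copy overlap inside one block, with independent types: an urn estimate.
-/

namespace Pool.Agent.MP_ff2ec0_pr

open Finset Function

variable {ℓ : ℕ}

/-- Weight of the parent of a slot, with the old nodes merged. -/
noncomputable def rF (t : ℝ) (v : Fin ℓ × Bool) (φ : Option (Fin ℓ × Bool)) : ℝ :=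
  match φ with
  | none => t / (t + v.1.val)
  | some u => if u.1 < v.1 then 1 / (2 * (t + v.1.val)) else 0

lemma rF_nonneg {t : ℝ} (ht : 0 < t) (v : Fin ℓ × Bool) (φ : Option (Fin ℓ × Bool)) :
    0 ≤ rF t v φ := by
  cases φ with
  | none => simp only [rF]; positivity
  | some u => simp only [rF]; split_ifs <;> positivity

lemma card_lt_slot (v : Fin ℓ × Bool) :
    (univ.filter fun u : Fin ℓ × Bool => u.1 < v.1).card = 2 * v.1.val :=
  card_time_lt v.1.val v.1.isLt.le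

lemma sum_rF {t : ℝ} (ht : 0 < t) (v : Fin ℓ × Bool) : ∑ φ, rF t v φ = 1 := by
  rw [Fintype.sum_option]
  simp only [rF]
  rw [← Finset.sum_filter, Finset.sum_const, card_lt_slot, nsmul_eq_mul]
  push_cast
  field_simp

lemma ch_sh_le {lam y : ℝ} (hl : |lam| ≤ 1) (hy : |y| ≤ 1) :
    Real.cosh lam + y * Real.sinh lam ≤ Real.exp (y * lam + lam ^ 2) := by
  have h1 := abs_le.1 (Real.abs_exp_sub_one_sub_id_le hl)
  have h2 := abs_le.1 (Real.abs_exp_sub_one_sub_id_le (x := -lam) (by rwa [abs_neg]))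
  have h3 := abs_le.1 hy
  have h4 := Real.add_one_le_exp (y * lam + lam ^ 2)
  rw [Real.cosh_eq, Real.sinh_eq]
  nlinarith [mul_le_mul_of_nonneg_left h1.2 (show 0 ≤ 1 + y by linarith),
    mul_le_mul_of_nonneg_left h2.2 (show 0 ≤ 1 - y by linarith)]

lemma ch_sh_le_three {lam y : ℝ} (hl : |lam| ≤ 1) (hy : |y| ≤ 1) :
    Real.cosh lam + y * Real.sinh lam ≤ 3 := by
  have h1 : Real.exp lam ≤ 3 :=
    (Real.exp_le_exp.2 (abs_le.1 hl).2).trans Real.exp_one_lt_three.le
  have h2 : Real.exp (-lam) ≤ 3 :=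
    (Real.exp_le_exp.2 (by linarith [(abs_le.1 hl).1])).trans Real.exp_one_lt_three.le
  have h3 := abs_le.1 hy
  rw [Real.cosh_eq, Real.sinh_eq]
  nlinarith [mul_le_mul_of_nonneg_left h1 (show 0 ≤ 1 + y by linarith),
    mul_le_mul_of_nonneg_left h2 (show 0 ≤ 1 - y by linarith)]

/-- Product of the two signs of a slot. -/
def xi (c : Option (Fin ℓ × Bool) × Bool × Bool) : ℝ := sg c.2.1 * sg c.2.2

lemma abs_xi (c : Option (Fin ℓ × Bool) × Bool × Bool) : |xi c| = 1 := by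
  simp [xi, abs_mul, abs_sg]

/-- Factor of one slot, with an extra weight on edges inside the block. -/
def kq (θ a M : ℝ) (x : Fin ℓ × Bool → Option (Fin ℓ × Bool) × Bool × Bool) (v : Fin ℓ × Bool)
    (c : Option (Fin ℓ × Bool) × Bool × Bool) : ℝ :=
  match c.1 with
  | none => 1 + a * sg c.2.1 * sg c.2.2
  | some u => if u.1 < v.1 then
      M * ((1 + θ * sg c.2.1 * sg (x u).2.1) * (1 + θ * sg c.2.2 * sg (x u).2.2)) else 0

lemma kq_nonneg {θ a M : ℝ} (hθ : |θ| ≤ 1) (ha : |a| ≤ 1) (hM : 0 ≤ M)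
    (x : Fin ℓ × Bool → Option (Fin ℓ × Bool) × Bool × Bool) (v : Fin ℓ × Bool)
    (c : Option (Fin ℓ × Bool) × Bool × Bool) : 0 ≤ kq θ a M x v c := by
  obtain ⟨φ, s, s'⟩ := c
  cases φ with
  | none => exact one_add_nonneg ha _ _
  | some u =>
    simp only [kq]
    split_ifs
    · exact mul_nonneg hM (mul_nonneg (one_add_nonneg hθ _ _) (one_add_nonneg hθ _ _))
    · exact le_rfl

lemma kq_update (θ a M : ℝ) (x : Fin ℓ × Bool → Option (Fin ℓ × Bool) × Bool × Bool)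
    (v w : Fin ℓ × Bool) (h : v.1 ≤ w.1) (c' : Option (Fin ℓ × Bool) × Bool × Bool) :
    kq θ a M (update x w c') v = kq θ a M x v := by
  funext ⟨φ, s, s'⟩
  cases φ with
  | none => rfl
  | some u =>
    simp only [kq]
    split_ifs with hu
    · rw [update_of_ne (by rintro rfl; exact absurd hu (not_lt.2 h))]
    · rfl

lemma slot_bound {t θ d M lam : ℝ} (ht : 0 < t) (hθ : |θ| ≤ 1) (hd : |d| ≤ 2 * t) (hM : 1 ≤ M)
    (hl : |lam| ≤ 1) (x : Fin ℓ × Bool → Option (Fin ℓ × Bool) × Bool × Bool)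
    (v : Fin ℓ × Bool) :
    ∑ c : Option (Fin ℓ × Bool) × Bool × Bool,
      rF t v c.1 / 4 * (kq θ (θ ^ 2 * d / (2 * t)) M x v c * Real.exp (lam * xi c)) ≤
      Real.exp (θ ^ 2 * (d + ∑ u ∈ univ.filter (fun u : Fin ℓ × Bool => u.1 < v.1), xi (x u)) /
        (2 * (t + v.1.val)) * lam + lam ^ 2 + 9 * (M - 1) * ℓ / t) := by
  set F := univ.filter (fun u : Fin ℓ × Bool => u.1 < v.1) with hF
  set m : ℝ := (v.1.val : ℝ) with hm
  have hm0 : 0 ≤ m := Nat.cast_nonneg _
  have hml : m ≤ ℓ := by rw [hm]; exact_mod_cast v.1.isLt.le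
  have hcard : (F.card : ℝ) = 2 * m := by rw [hF, card_lt_slot]; push_cast; rfl
  have hz : θ ^ 2 ≤ 1 := by rwa [sq_le_one_iff_abs_le_one]
  have hz0 : 0 ≤ θ ^ 2 := sq_nonneg θ
  set y := θ ^ 2 * (d + ∑ u ∈ F, xi (x u)) / (2 * (t + m)) with hy
  have hS : |∑ u ∈ F, xi (x u)| ≤ 2 * m := by
    refine (Finset.abs_sum_le_sum_abs _ _).trans ?_
    simp [abs_xi, hcard]
  have hy1 : |y| ≤ 1 := by
    rw [hy, abs_div, abs_mul, abs_of_nonneg hz0, abs_of_pos (by positivity : 0 < 2 * (t + m)),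
      div_le_one (by positivity)]
    have := abs_add_le d (∑ u ∈ F, xi (x u))
    have h0 := abs_nonneg (d + ∑ u ∈ F, xi (x u))
    nlinarith
  have e1 : ∑ c : Option (Fin ℓ × Bool) × Bool × Bool,
      rF t v c.1 / 4 * (kq θ (θ ^ 2 * d / (2 * t)) M x v c * Real.exp (lam * xi c)) =
      t / (t + m) * (Real.cosh lam + θ ^ 2 * d / (2 * t) * Real.sinh lam) +
        ∑ u ∈ F, M / (2 * (t + m)) * (Real.cosh lam + θ ^ 2 * xi (x u) * Real.sinh lam) := by
    rw [Fintype.sum_prod_type, Fintype.sum_option, hF, Finset.sum_filter]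
    congr 1
    · simp only [Fintype.sum_prod_type, Fintype.sum_bool, rF, kq, xi, sg, Real.cosh_eq,
        Real.sinh_eq]
      simp
      ring
    · refine Finset.sum_congr rfl fun u _ => ?_
      simp only [Fintype.sum_prod_type, Fintype.sum_bool, rF, kq, xi, Real.cosh_eq,
        Real.sinh_eq]
      split_ifs with hu
      · rw [← hm, show M / (2 * (t + m)) = M * (1 / (2 * (t + m))) by ring]
        generalize 1 / (2 * (t + m)) = w
        cases (x u).2.1 <;> cases (x u).2.2 <;> simp [sg] <;> ring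
      · simp
  have e2 : t / (t + m) * (Real.cosh lam + θ ^ 2 * d / (2 * t) * Real.sinh lam) +
        ∑ u ∈ F, M / (2 * (t + m)) * (Real.cosh lam + θ ^ 2 * xi (x u) * Real.sinh lam) =
      Real.cosh lam + y * Real.sinh lam +
        ∑ u ∈ F, (M - 1) / (2 * (t + m)) * (Real.cosh lam + θ ^ 2 * xi (x u) * Real.sinh lam) := by
    simp only [← Finset.mul_sum, Finset.sum_add_distrib, Finset.sum_const, nsmul_eq_mul, hcard,
      ← Finset.sum_mul, hy]
    field_simp
    ring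
  have e3 : ∑ u ∈ F, (M - 1) / (2 * (t + m)) *
      (Real.cosh lam + θ ^ 2 * xi (x u) * Real.sinh lam) ≤ 3 * (M - 1) * ℓ / t := by
    have hM1 : 0 ≤ M - 1 := by linarith
    have : ∀ u ∈ F, (M - 1) / (2 * (t + m)) *
        (Real.cosh lam + θ ^ 2 * xi (x u) * Real.sinh lam) ≤ (M - 1) / (2 * t) * 3 := by
      intro u _
      have h1 := ch_sh_le_three (y := θ ^ 2 * xi (x u)) hl
        (by rw [abs_mul, abs_xi, abs_of_nonneg hz0]; linarith)
      calc _ ≤ (M - 1) / (2 * (t + m)) * 3 := mul_le_mul_of_nonneg_left h1 (by positivity)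
        _ ≤ _ := by gcongr; linarith
    refine (Finset.sum_le_card_nsmul _ _ _ this).trans ?_
    rw [nsmul_eq_mul, hcard]
    calc 2 * m * ((M - 1) / (2 * t) * 3) = 3 * (M - 1) * m / t := by field_simp
      _ ≤ _ := by gcongr
  rw [e1, e2, Real.exp_add (y * lam + lam ^ 2)]
  have h1 := ch_sh_le hl hy1
  have h2 : 1 / 3 ≤ Real.exp (y * lam + lam ^ 2) := by
    have h3 : |y * lam| ≤ 1 := by
      rw [abs_mul]; exact mul_le_one₀ hy1 (abs_nonneg _) hl
    have h4 : Real.exp (-1) ≤ Real.exp (y * lam + lam ^ 2) :=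
      Real.exp_le_exp.2 (by nlinarith [(abs_le.1 h3).1, sq_nonneg lam])
    have h5 : Real.exp (-1) * Real.exp 1 = 1 := by rw [← Real.exp_add]; simp
    nlinarith [Real.exp_one_lt_three, Real.exp_pos (-1)]
  have h3 := Real.add_one_le_exp (9 * (M - 1) * ℓ / t)
  have h4 : 0 ≤ 3 * (M - 1) * ℓ / t := by
    have : 0 ≤ M - 1 := by linarith
    positivity
  have h5 : 9 * (M - 1) * ℓ / t = 3 * (3 * (M - 1) * ℓ / t) := by ring
  rw [h5] at h3 ⊢
  nlinarith [Real.exp_pos (y * lam + lam ^ 2)]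

/-- Backward growth factor. -/
noncomputable def ab (z t : ℝ) (ℓ m : ℕ) : ℝ := ∏ i ∈ Ico m ℓ, (1 + z / (t + i))

lemma ab_succ (z t : ℝ) {m : ℕ} (h : m < ℓ) : ab z t ℓ m = (1 + z / (t + m)) * ab z t ℓ (m + 1) :=
  Finset.prod_eq_prod_Ico_succ_bot h _

lemma one_le_ab {z t : ℝ} (hz : 0 ≤ z) (ht : 0 < t) (ℓ m : ℕ) : 1 ≤ ab z t ℓ m :=
  Finset.prod_induction _ (fun y => 1 ≤ y) (fun _ _ h1 h2 => one_le_mul_of_one_le_of_one_le h1 h2)
    le_rfl fun i _ => by
    have : 0 ≤ z / (t + i) := by positivity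
    linarith

lemma ab_le_zero {z t : ℝ} (hz : 0 ≤ z) (ht : 0 < t) (m : ℕ) (hm : m ≤ ℓ) :
    ab z t ℓ m ≤ ab z t ℓ 0 := by
  induction m with
  | zero => exact le_rfl
  | succ m ih =>
    refine le_trans ?_ (ih (by omega))
    rw [ab_succ z t (show m < ℓ by omega)]
    have h1 := one_le_ab hz ht ℓ (m + 1)
    have : 0 ≤ z / (t + m) := by positivity
    nlinarith

lemma ab_le_exp {z t : ℝ} (hz : 0 ≤ z) (ht : 0 < t) (ℓ : ℕ) :
    ab z t ℓ 0 ≤ Real.exp (z * (ℓ / t)) := by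
  have : z * (ℓ / t) = ∑ _i ∈ Ico 0 ℓ, z / t := by simp; ring
  rw [this, Real.exp_sum]
  refine Finset.prod_le_prod (fun i _ => by positivity) fun i _ => ?_
  have h1 : z / (t + i) ≤ z / t := by
    gcongr; have : (0 : ℝ) ≤ i := Nat.cast_nonneg _; linarith
  linarith [Real.add_one_le_exp (z / t)]

lemma filter_succ (m : ℕ) (hm : m < ℓ) :
    (univ.filter fun v : Fin ℓ × Bool => v.1.val < m + 1) =
      (univ.filter fun v : Fin ℓ × Bool => v.1.val < m) ∪
        {((⟨m, hm⟩ : Fin ℓ), false), (⟨m, hm⟩, true)} := by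
  ext ⟨i, b⟩
  cases b <;> simp [Fin.ext_iff] <;> omega

lemma urn_aux {t θ d M lam : ℝ} (ht : 0 < t) (hθ : |θ| ≤ 1) (hd : |d| ≤ 2 * t) (hM : 1 ≤ M)
    (hl : |lam| * ab (θ ^ 2) t ℓ 0 ≤ 1) (m : ℕ) (hm : m ≤ ℓ) :
    ∑ x : Fin ℓ × Bool → Option (Fin ℓ × Bool) × Bool × Bool, (∏ v, rF t v (x v).1 / 4) *
      ((∏ v ∈ univ.filter (fun v : Fin ℓ × Bool => v.1.val < m),
          kq θ (θ ^ 2 * d / (2 * t)) M x v (x v)) *
        Real.exp (lam * ab (θ ^ 2) t ℓ m *
          (d + ∑ v ∈ univ.filter (fun v : Fin ℓ × Bool => v.1.val < m), xi (x v)))) ≤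
      Real.exp (lam * ab (θ ^ 2) t ℓ 0 * d +
        m * (2 * (lam * ab (θ ^ 2) t ℓ 0) ^ 2 + 18 * (M - 1) * ℓ / t)) := by
  have hr : ∀ v : Fin ℓ × Bool, ∑ c : Option (Fin ℓ × Bool) × Bool × Bool, rF t v c.1 / 4 = 1 := by
    intro v
    rw [Fintype.sum_prod_type]
    simp only [Finset.sum_const, card_univ, Fintype.card_prod, Fintype.card_bool, nsmul_eq_mul]
    rw [← sum_rF ht v]
    refine Finset.sum_congr rfl fun φ _ => ?_
    push_cast; ring
  have hz0 : 0 ≤ θ ^ 2 := sq_nonneg θ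
  have hM0 : 0 ≤ M := by linarith
  have hz : θ ^ 2 ≤ 1 := by rwa [sq_le_one_iff_abs_le_one]
  have ha : |θ ^ 2 * d / (2 * t)| ≤ 1 := by
    rw [abs_div, abs_mul, abs_of_nonneg hz0, abs_of_pos (by positivity : 0 < 2 * t),
      div_le_one (by positivity)]
    nlinarith [abs_nonneg d]
  induction m with
  | zero =>
    simp only [Nat.not_lt_zero, filter_false, prod_empty, sum_empty, one_mul, add_zero,
      Nat.cast_zero, zero_mul]
    rw [← Finset.sum_mul, sum_prod_eq_one (fun v (c : Option (Fin ℓ × Bool) × Bool × Bool) =>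
      rF t v c.1 / 4) hr, one_mul]
  | succ m ih =>
    have hml : m < ℓ := hm
    have ih := ih hml.le
    set F := univ.filter (fun v : Fin ℓ × Bool => v.1.val < m) with hF
    set T : Finset (Fin ℓ × Bool) := {((⟨m, hml⟩ : Fin ℓ), false), (⟨m, hml⟩, true)} with hT
    have hTm : ∀ u ∈ T, u.1.val = m := by
      intro u hu
      simp only [hT, mem_insert, mem_singleton] at hu
      rcases hu with rfl | rfl <;> rfl
    have hdisj : Disjoint F T := by
      rw [Finset.disjoint_left]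
      intro u hu hu'
      have := hTm u hu'
      simp only [hF, mem_filter, mem_univ, true_and] at hu
      omega
    set l' := lam * ab (θ ^ 2) t ℓ (m + 1) with hl'
    have hl'1 : |l'| ≤ |lam| * ab (θ ^ 2) t ℓ 0 := by
      rw [hl', abs_mul, abs_of_nonneg (le_trans zero_le_one (one_le_ab hz0 ht _ _))]
      exact mul_le_mul_of_nonneg_left (ab_le_zero hz0 ht _ hm) (abs_nonneg _)
    have hl'2 : l' ^ 2 ≤ (lam * ab (θ ^ 2) t ℓ 0) ^ 2 := by
      rw [sq_le_sq, abs_mul lam (ab (θ ^ 2) t ℓ 0),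
        abs_of_nonneg (le_trans zero_le_one (one_le_ab hz0 ht ℓ 0))]
      exact hl'1
    have key := prod_resample (fun v (c : Option (Fin ℓ × Bool) × Bool × Bool) =>
      rF t v c.1 / 4) hr T
      (fun v x c => if v ∈ T then kq θ (θ ^ 2 * d / (2 * t)) M x v c * Real.exp (l' * xi c) else 0)
      (by
        intro v p u hu c
        funext c'
        split_ifs with hv
        · rw [kq_update _ _ _ _ _ _ (by rw [Fin.le_def, hTm u hu, hTm v hv])]
        · rfl) T subset_rfl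
      (fun x => (∏ v ∈ F, kq θ (θ ^ 2 * d / (2 * t)) M x v (x v)) *
        Real.exp (l' * (d + ∑ v ∈ F, xi (x v))))
      (by
        intro p u hu c
        have hne : ∀ v ∈ F, v ≠ u := fun v hv he =>
          Finset.disjoint_left.1 hdisj hv (he ▸ hu)
        congr 1
        · refine Finset.prod_congr rfl fun v hv => ?_
          rw [update_of_ne (hne v hv), kq_update]
          have := hTm u hu
          simp only [hF, mem_filter, mem_univ, true_and] at hv
          rw [Fin.le_def]; omega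
        · congr 3
          exact Finset.sum_congr rfl fun v hv => by rw [update_of_ne (hne v hv)])
    rw [filter_succ m hml, ← hF, ← hT]
    simp only [Finset.prod_union hdisj, Finset.sum_union hdisj]
    calc _ = ∑ x : Fin ℓ × Bool → Option (Fin ℓ × Bool) × Bool × Bool,
          (∏ v, rF t v (x v).1 / 4) * (((∏ v ∈ F, kq θ (θ ^ 2 * d / (2 * t)) M x v (x v)) *
            Real.exp (l' * (d + ∑ v ∈ F, xi (x v)))) * ∏ v ∈ T, if v ∈ T then
              kq θ (θ ^ 2 * d / (2 * t)) M x v (x v) * Real.exp (l' * xi (x v)) else 0) := by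
          refine Finset.sum_congr rfl fun x _ => ?_
          congr 1
          rw [Finset.prod_ite_of_true (fun v hv => hv), Finset.prod_mul_distrib,
            ← Real.exp_sum, ← Finset.mul_sum, ← add_assoc, mul_add l' (d + _), Real.exp_add]
          ring
      _ ≤ ∑ x : Fin ℓ × Bool → Option (Fin ℓ × Bool) × Bool × Bool,
          (∏ v, rF t v (x v).1 / 4) * ((∏ v ∈ F, kq θ (θ ^ 2 * d / (2 * t)) M x v (x v)) *
            Real.exp (lam * ab (θ ^ 2) t ℓ m * (d + ∑ v ∈ F, xi (x v)))) *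
            Real.exp (2 * (lam * ab (θ ^ 2) t ℓ 0) ^ 2 + 18 * (M - 1) * ℓ / t) := by
          rw [key]
          refine Finset.sum_le_sum fun x _ => ?_
          rw [mul_assoc (∏ v, rF t v (x v).1 / 4)]
          refine mul_le_mul_of_nonneg_left ?_
            (Finset.prod_nonneg fun v _ => div_nonneg (rF_nonneg ht _ _) (by norm_num))
          rw [mul_assoc (∏ v ∈ F, kq θ (θ ^ 2 * d / (2 * t)) M x v (x v)),
            mul_assoc (∏ v ∈ F, kq θ (θ ^ 2 * d / (2 * t)) M x v (x v))]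
          refine mul_le_mul_of_nonneg_left ?_
            (Finset.prod_nonneg fun v _ => kq_nonneg hθ ha hM0 _ _ _)
          have hb : ∀ v ∈ T, ∑ c : Option (Fin ℓ × Bool) × Bool × Bool, rF t v c.1 / 4 *
              (if v ∈ T then kq θ (θ ^ 2 * d / (2 * t)) M x v c * Real.exp (l' * xi c) else 0) ≤
              Real.exp (θ ^ 2 * (d + ∑ u ∈ F, xi (x u)) / (2 * (t + m)) * l' + l' ^ 2 +
                9 * (M - 1) * ℓ / t) := by
            intro v hv
            simp only [hv, if_true]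
            have := slot_bound ht hθ hd hM (hl'1.trans hl) x v
            have e : (univ.filter fun u : Fin ℓ × Bool => u.1 < v.1) = F := by
              ext u; simp [hF, Fin.lt_def, hTm v hv]
            rwa [e, hTm v hv] at this
          have hb2 := Finset.prod_le_prod (fun v hv => Finset.sum_nonneg fun c _ =>
            mul_nonneg (div_nonneg (rF_nonneg ht _ _) (by norm_num)) (by
              split_ifs
              exact mul_nonneg (kq_nonneg hθ ha hM0 _ _ _) (Real.exp_pos _).le)) hb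
          have hTc : T.card = 2 := by rw [hT, card_pair (by simp)]
          rw [Finset.prod_const, hTc] at hb2
          refine (mul_le_mul_of_nonneg_left hb2 (Real.exp_pos _).le).trans ?_
          rw [← Real.exp_nat_mul, ← Real.exp_add, ← Real.exp_add, Real.exp_le_exp,
            ab_succ _ _ hml]
          have e : lam * ((1 + θ ^ 2 / (t + m)) * ab (θ ^ 2) t ℓ (m + 1)) * (d + ∑ v ∈ F, xi (x v)) =
              l' * (d + ∑ v ∈ F, xi (x v)) +
                2 * (θ ^ 2 * (d + ∑ u ∈ F, xi (x u)) / (2 * (t + m)) * l') := by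
            rw [hl']; field_simp
          rw [e]
          push_cast
          have e' : 18 * (M - 1) * ℓ / t = 2 * (9 * (M - 1) * ℓ / t) := by ring
          rw [e']
          linarith
      _ ≤ _ := by
          rw [← Finset.sum_mul]
          refine (mul_le_mul_of_nonneg_right ih (Real.exp_pos _).le).trans ?_
          rw [← Real.exp_add]
          apply le_of_eq
          push_cast
          ring_nf

lemma urn {t θ d M lam : ℝ} (ht : 0 < t) (hθ : |θ| ≤ 1) (hd : |d| ≤ 2 * t) (hM : 1 ≤ M)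
    (hl : |lam| * ab (θ ^ 2) t ℓ 0 ≤ 1) :
    Real.exp (lam * d) * ∑ Φ : Fin ℓ × Bool → Option (Fin ℓ × Bool), (∏ v, rF t v (Φ v) / 4) *
      (M ^ nint Φ * ∑ σ, ∑ σ', Ker θ (θ ^ 2 * d / (2 * t)) lam Φ σ σ') ≤
      Real.exp (lam * ab (θ ^ 2) t ℓ 0 * d +
        ℓ * (2 * (lam * ab (θ ^ 2) t ℓ 0) ^ 2 + 18 * (M - 1) * ℓ / t)) := by
  refine le_trans (le_of_eq ?_) (urn_aux ht hθ hd hM hl ℓ le_rfl)
  have hU : (univ.filter fun v : Fin ℓ × Bool => v.1.val < ℓ) = univ := by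
    ext v; simp
  rw [hU, ← (Equiv.arrowProdEquivProdArrow _ _ _).symm.sum_comp, Fintype.sum_prod_type,
    Finset.mul_sum]
  refine Finset.sum_congr rfl fun Φ _ => ?_
  rw [← (Equiv.arrowProdEquivProdArrow _ _ _).symm.sum_comp, Fintype.sum_prod_type]
  simp only [Finset.mul_sum]
  refine Finset.sum_congr rfl fun σ _ => Finset.sum_congr rfl fun σ' _ => ?_
  simp only [Equiv.arrowProdEquivProdArrow_symm_apply, ab, Ico_self, prod_empty, mul_one, Ker, xi]
  by_cases hv : ∃ v u, Φ v = some u ∧ ¬ u.1 < v.1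
  · obtain ⟨v, u, h1, h2⟩ := hv
    rw [Finset.prod_eq_zero (mem_univ v) (by simp [rF, h1, h2])]
    simp
  · push Not at hv
    have e : ∏ v, kq θ (θ ^ 2 * d / (2 * t)) M (fun v => (Φ v, σ v, σ' v)) v (Φ v, σ v, σ' v) =
        M ^ nint Φ * ∏ v, kv θ (θ ^ 2 * d / (2 * t)) (Φ v) σ σ' v := by
      unfold nint
      rw [← Finset.prod_const, Finset.prod_filter, ← Finset.prod_mul_distrib]
      refine Finset.prod_congr rfl fun v _ => ?_
      cases h : Φ v with
      | none => simp [kq, kv]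
      | some u => simp [kq, kv, hv v u h]
    rw [mul_add, Real.exp_add, Finset.mul_sum]
    erw [e]
    ring

end Pool.Agent.MP_ff2ec0_pr

end MrgPart0

-- ======== part 1: formerly Pool.Agent.MP_ff2ec0_pr.Block
section MrgPart1

/-!
One block of arrivals on top of an abstract set of old nodes.
-/

namespace Pool.Agent.MP_ff2ec0_pr

open Finset Function Classical

variable {ℓ : ℕ} {O : Type} [Fintype O]

/-- Two-copy factor of one block. -/
noncomputable def Bk (ℓ D : ℕ) (t θ d lam : ℝ) : ℝ :=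
  ∑ Φ : Fin ℓ × Bool → Option (Fin ℓ × Bool), (∏ v, rF t v (Φ v) / 4) *
    (if Good D Φ then ∑ σ, ∑ σ', gbar Φ σ * gbar Φ σ' * Ker θ (θ ^ 2 * d / (2 * t)) lam Φ σ σ'
      else 0)

lemma abs_a_le {t θ d : ℝ} (ht : 0 < t) (hθ : |θ| ≤ 1) (hd : |d| ≤ 2 * t) :
    |θ ^ 2 * d / (2 * t)| ≤ 1 := by
  have hz : θ ^ 2 ≤ 1 := by rwa [sq_le_one_iff_abs_le_one]
  rw [abs_div, abs_mul, abs_of_nonneg (sq_nonneg θ), abs_of_pos (by positivity : 0 < 2 * t),
    div_le_one (by positivity)]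
  nlinarith [abs_nonneg d, sq_nonneg θ]

lemma Bk_crude {D : ℕ} {t θ d lam : ℝ} (ht : 0 < t) (hθ : |θ| ≤ 1) (hd : |d| ≤ 2 * t)
    (hl : |lam| * ab (θ ^ 2) t ℓ 0 ≤ 1) :
    Real.exp (lam * d) * Bk ℓ D t θ d lam ≤ (2 * ℓ + 1) ^ 2 *
      Real.exp (lam * ab (θ ^ 2) t ℓ 0 * d +
        ℓ * (2 * (lam * ab (θ ^ 2) t ℓ 0) ^ 2 + 4590 * ℓ / t)) := by
  have h := urn (ℓ := ℓ) ht hθ hd (show (1 : ℝ) ≤ 256 by norm_num) hl
  rw [show (18 : ℝ) * (256 - 1) = 4590 by norm_num] at h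
  refine le_trans ?_ (mul_le_mul_of_nonneg_left h (by positivity))
  rw [mul_left_comm]
  refine mul_le_mul_of_nonneg_left ?_ (Real.exp_pos _).le
  rw [Bk, Finset.mul_sum]
  refine Finset.sum_le_sum fun Φ _ => ?_
  rw [mul_left_comm]
  refine mul_le_mul_of_nonneg_left ?_
    (Finset.prod_nonneg fun v _ => div_nonneg (rF_nonneg ht _ _) (by norm_num))
  have hK := fun σ σ' => Ker_nonneg hθ (abs_a_le ht hθ hd) lam Φ σ σ'
  split_ifs
  · simp only [Finset.mul_sum]
    refine Finset.sum_le_sum fun σ _ => Finset.sum_le_sum fun σ' _ => ?_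
    rw [← mul_assoc]
    refine mul_le_mul_of_nonneg_right ?_ (hK σ σ')
    calc _ ≤ ((2 * ℓ + 1) * 16 ^ nint Φ) * ((2 * ℓ + 1) * 16 ^ nint Φ : ℝ) :=
          mul_le_mul (gbar_le Φ σ) (gbar_le Φ σ') (gbar_nonneg _ _) (by positivity)
      _ = _ := by rw [show (256 : ℝ) = 16 * 16 by norm_num, mul_pow]; ring
  · exact mul_nonneg (by positivity) (mul_nonneg (by positivity)
      (Finset.sum_nonneg fun σ _ => Finset.sum_nonneg fun σ' _ => hK σ σ'))

lemma Bk_fine {D : ℕ} {t θ d lam : ℝ} (ht : 0 < t) (hθ : |θ| ≤ 1) (hd : |d| ≤ 2 * t)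
    (hl : |lam| * ab (θ ^ 2) t ℓ 0 ≤ 1)
    (hb : cXi D * (2 * |θ ^ 2 * d / (2 * t)| + 8 * D * |lam|) ≤ 1 / 2) :
    Real.exp (lam * d) * Bk ℓ D t θ d lam ≤
      (1 + 2 * (cXi D * (2 * |θ ^ 2 * d / (2 * t)| + 8 * D * |lam|)) ^ 2) *
      Real.exp (lam * ab (θ ^ 2) t ℓ 0 * d + ℓ * (2 * (lam * ab (θ ^ 2) t ℓ 0) ^ 2)) := by
  have h := urn (ℓ := ℓ) ht hθ hd (le_refl (1 : ℝ)) hl
  simp only [sub_self, mul_zero, zero_mul, zero_div, add_zero, one_pow, one_mul] at h
  refine le_trans ?_ (mul_le_mul_of_nonneg_left h (by positivity))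
  rw [mul_left_comm]
  refine mul_le_mul_of_nonneg_left ?_ (Real.exp_pos _).le
  rw [Bk, Finset.mul_sum]
  refine Finset.sum_le_sum fun Φ _ => ?_
  rw [mul_left_comm]
  by_cases hv : FValid Φ
  · refine mul_le_mul_of_nonneg_left ?_
      (Finset.prod_nonneg fun v _ => div_nonneg (rF_nonneg ht _ _) (by norm_num))
    split_ifs with hG
    · exact fine_bound hv hG hθ (abs_a_le ht hθ hd) hb
    · exact mul_nonneg (by positivity) (Finset.sum_nonneg fun σ _ => Finset.sum_nonneg fun σ' _ =>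
        Ker_nonneg hθ (abs_a_le ht hθ hd) lam Φ σ σ')
  · unfold FValid at hv
    push Not at hv
    obtain ⟨v, u, h1, h2⟩ := hv
    rw [Finset.prod_eq_zero (mem_univ v) (by simp [rF, h1, h2])]
    simp

/-- The forest inside the block. -/
def phi (π : Fin ℓ × Bool → O ⊕ (Fin ℓ × Bool)) : Fin ℓ × Bool → Option (Fin ℓ × Bool) :=
  fun v => (π v).getRight?

/-- Uniform attachment weight. -/
noncomputable def rc (t : ℝ) (v : Fin ℓ × Bool) (φ : Option (Fin ℓ × Bool)) : ℝ :=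
  match φ with
  | none => 1 / (2 * (t + v.1.val))
  | some u => if u.1 < v.1 then 1 / (2 * (t + v.1.val)) else 0

lemma rc_nonneg {t : ℝ} (ht : 0 < t) (v : Fin ℓ × Bool) (φ : Option (Fin ℓ × Bool)) :
    0 ≤ rc t v φ := by
  cases φ with
  | none => simp only [rc]; positivity
  | some u => simp only [rc]; split_ifs <;> positivity

/-- Type factor of one slot. -/
def kB (θ : ℝ) (σ : O → Bool) (σn : Fin ℓ × Bool → Bool) (v : Fin ℓ × Bool)
    (c : O ⊕ (Fin ℓ × Bool)) : ℝ :=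
  1 + θ * sg (σn v) * sg (Sum.elim σ σn c)

/-- Likelihood factor of one block. -/
noncomputable def Lb (D : ℕ) (θ : ℝ) (π : Fin ℓ × Bool → O ⊕ (Fin ℓ × Bool)) (σ : O → Bool)
    (σn : Fin ℓ × Bool → Bool) : ℝ :=
  (if Good D (phi π) then gbar (phi π) σn / 4 ^ ℓ else 0) * ∏ v, kB θ σ σn v (π v)

omit [Fintype O] in
lemma Lb_nonneg (D : ℕ) {θ : ℝ} (hθ : |θ| ≤ 1) (π : Fin ℓ × Bool → O ⊕ (Fin ℓ × Bool))
    (σ : O → Bool) (σn : Fin ℓ × Bool → Bool) : 0 ≤ Lb D θ π σ σn := by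
  refine mul_nonneg ?_ (Finset.prod_nonneg fun v _ => one_add_nonneg hθ _ _)
  split_ifs
  · exact div_nonneg (gbar_nonneg _ _) (by positivity)
  · exact le_rfl

lemma sum_sg_tau (x : Fin ℓ → Bool) : ∑ v, sg (tau x v) = 0 := by
  rw [Fintype.sum_prod_type]
  refine Finset.sum_eq_zero fun i _ => ?_
  simp only [Fintype.sum_bool, tau]
  cases x i <;> simp [sg]

lemma bal_of_g0 {σ : Fin ℓ × Bool → Bool} (h : g0 σ ≠ 0) : ∑ v, sg (σ v) = 0 := by
  rw [g0_eq] at h
  obtain ⟨x, _, hx⟩ := Finset.exists_ne_zero_of_sum_ne_zero (right_ne_zero_of_mul h)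
  have : σ = tau x := by by_contra hc; simp [hc] at hx
  rw [this, sum_sg_tau]

omit [Fintype O] in
lemma bal_of_Lb {D : ℕ} {θ : ℝ} {π : Fin ℓ × Bool → O ⊕ (Fin ℓ × Bool)}
    {σ : O → Bool} {σn : Fin ℓ × Bool → Bool} (h : Lb D θ π σ σn ≠ 0) : ∑ v, sg (σn v) = 0 := by
  have h1 := left_ne_zero_of_mul h
  split_ifs at h1
  · have h2 : gbar (phi π) σn ≠ 0 := fun h0 => h1 (by rw [h0, zero_div])
    have h3 : ∑ γ ∈ Gam (phi π), g0 (σn ∘ γ) ≠ 0 := fun h0 => h2 (by rw [gbar, h0, zero_div])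
    obtain ⟨γ, _, hγ⟩ := Finset.exists_ne_zero_of_sum_ne_zero h3
    rw [← bal_of_g0 hγ]
    exact (Equiv.sum_comp γ fun v => sg (σn v)).symm
  · exact absurd rfl h1

/-- Relabelling of the slots. -/
def act (γ : Equiv.Perm (Fin ℓ × Bool)) : Equiv.Perm (Fin ℓ × Bool → O ⊕ (Fin ℓ × Bool)) :=
  Equiv.arrowCongr γ (Equiv.sumCongr (Equiv.refl O) γ)

omit [Fintype O] in
lemma act_apply (γ : Equiv.Perm (Fin ℓ × Bool)) (π : Fin ℓ × Bool → O ⊕ (Fin ℓ × Bool))
    (v : Fin ℓ × Bool) : act γ π v = Sum.map id γ (π (γ.symm v)) := rfl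

omit [Fintype O] in
lemma phi_act (γ : Equiv.Perm (Fin ℓ × Bool)) (π : Fin ℓ × Bool → O ⊕ (Fin ℓ × Bool))
    (v : Fin ℓ × Bool) : phi (act γ π) v = (phi π (γ.symm v)).map γ := by
  simp only [phi, act_apply]
  cases π (γ.symm v) <;> rfl

omit [Fintype O] in
lemma prod_kB_act (θ : ℝ) (σ : O → Bool) (γ : Equiv.Perm (Fin ℓ × Bool))
    (π : Fin ℓ × Bool → O ⊕ (Fin ℓ × Bool)) (σn : Fin ℓ × Bool → Bool) :
    ∏ v, kB θ σ (σn ∘ γ.symm) v (act γ π v) = ∏ v, kB θ σ σn v (π v) := by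
  rw [← Equiv.prod_comp γ]
  refine Finset.prod_congr rfl fun v _ => ?_
  simp only [kB, act_apply, Function.comp, Equiv.symm_apply_apply]
  cases π v <;> simp

/-- The swap of the pairs marked by `x`. -/
def kap (x : Fin ℓ → Bool) : Equiv.Perm (Fin ℓ × Bool) :=
  Function.Involutive.toPerm (fun v => (v.1, xor v.2 (x v.1))) (by
    rintro ⟨i, b⟩; simp)

lemma kap_apply (x : Fin ℓ → Bool) (v : Fin ℓ × Bool) : kap x v = (v.1, xor v.2 (x v.1)) := rfl

lemma kap_symm_apply (x : Fin ℓ → Bool) (v : Fin ℓ × Bool) :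
    (kap x).symm v = (v.1, xor v.2 (x v.1)) := rfl

lemma tau_eq (x : Fin ℓ → Bool) : tau x = Prod.snd ∘ (kap x).symm := rfl

lemma good_conj {D : ℕ} {Φ Φ' : Fin ℓ × Bool → Option (Fin ℓ × Bool)} (x : Fin ℓ → Bool)
    (h : ∀ v, Φ' v = (Φ ((kap x).symm v)).map (kap x)) : Good D Φ' ↔ Good D Φ := by
  have : ∀ W, (intE Φ' W).card = (intE Φ W).card := by
    intro W
    symm
    apply Finset.card_bij (fun v _ => kap x v)
    · intro v hv
      simp only [intE, mem_filter, mem_univ, true_and] at hv ⊢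
      obtain ⟨h1, u, h2, h3⟩ := hv
      exact ⟨h1, kap x u, by rw [h, Equiv.symm_apply_apply, h2]; rfl, h3⟩
    · intro v _ w _ he; exact (kap x).injective he
    · intro w hw
      simp only [intE, mem_filter, mem_univ, true_and] at hw ⊢
      obtain ⟨h1, u, h2, h3⟩ := hw
      rw [h, Option.map_eq_some_iff] at h2
      obtain ⟨u', h4, rfl⟩ := h2
      exact ⟨(kap x).symm w, ⟨h1, u', h4, h3⟩, by simp⟩
  simp only [Good, this]

lemma sym_gam (R : (Fin ℓ × Bool → Option (Fin ℓ × Bool)) → ℝ)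
    (f : (Fin ℓ × Bool → O ⊕ (Fin ℓ × Bool)) → (Fin ℓ × Bool → Bool) → ℝ)
    (hf : ∀ γ π σn, f (act γ π) (σn ∘ γ.symm) = f π σn) :
    ∑ π, R (phi π) * ∑ σn, gbar (phi π) σn * f π σn =
      ∑ π, R (phi π) * ∑ σn, g0 σn * f π σn := by
  rw [← Finset.sum_fiberwise (s := univ) (g := phi), ← Finset.sum_fiberwise (s := univ) (g := phi)
    (f := fun π => R (phi π) * ∑ σn, g0 σn * f π σn)]
  refine Finset.sum_congr rfl fun Φ _ => ?_
  have hc : ((Gam Φ).card : ℝ) ≠ 0 := by exact_mod_cast (card_Gam_pos (Φ := Φ)).ne'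
  have key : ∀ γ ∈ Gam Φ, ∑ π ∈ univ.filter (fun π => phi π = Φ), ∑ σn, g0 (σn ∘ γ) * f π σn =
      ∑ π ∈ univ.filter (fun π => phi π = Φ), ∑ σn, g0 σn * f π σn := by
    intro γ hγ
    rw [Finset.sum_filter, Finset.sum_filter, ← Equiv.sum_comp (act γ)]
    refine Finset.sum_congr rfl fun π _ => ?_
    have h1 : phi (act γ π) = Φ ↔ phi π = Φ := by
      have h2 := (mem_Gam.1 hγ).1
      constructor
      · intro h
        funext v
        have := congrFun h (γ v)
        rw [phi_act, Equiv.symm_apply_apply, h2] at this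
        exact Option.map_injective γ.injective this
      · intro h
        funext v
        rw [phi_act, h, ← h2, Equiv.apply_symm_apply]
    simp only [h1]
    split_ifs
    · rw [← (Equiv.arrowCongr γ (Equiv.refl Bool)).sum_comp]
      refine Finset.sum_congr rfl fun σn _ => ?_
      have e1 : Equiv.arrowCongr γ (Equiv.refl Bool) σn = σn ∘ γ.symm := rfl
      rw [e1, hf]
      congr 2
      funext v; simp
    · rfl
  calc _ = ∑ π ∈ univ.filter (fun π => phi π = Φ), R Φ / (Gam Φ).card *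
          ∑ γ ∈ Gam Φ, ∑ σn, g0 (σn ∘ γ) * f π σn := by
        refine Finset.sum_congr rfl fun π hπ => ?_
        rw [(mem_filter.1 hπ).2, Finset.sum_comm]
        simp only [gbar, ← Finset.sum_mul, div_mul_eq_mul_div, ← Finset.sum_div]
        ring
    _ = R Φ / (Gam Φ).card * ∑ γ ∈ Gam Φ, ∑ π ∈ univ.filter (fun π => phi π = Φ),
          ∑ σn, g0 σn * f π σn := by
        rw [← Finset.mul_sum, Finset.sum_comm, Finset.sum_congr rfl key]
    _ = _ := by
        rw [Finset.sum_const, nsmul_eq_mul, ← mul_assoc, div_mul_cancel₀ _ hc, Finset.mul_sum]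
        refine Finset.sum_congr rfl fun π hπ => ?_
        rw [(mem_filter.1 hπ).2]

lemma sum_g0_mul (F : (Fin ℓ × Bool → Bool) → ℝ) :
    ∑ σ, g0 σ * F σ = 2 ^ ℓ * ∑ x, F (tau x) := by
  simp only [g0_eq, mul_assoc, ← Finset.mul_sum, Finset.sum_mul]
  rw [Finset.sum_comm]
  simp

lemma block_sym (D : ℕ) (t θ : ℝ) (σ : O → Bool)
    (ψ : (Fin ℓ × Bool → O ⊕ (Fin ℓ × Bool)) → (Fin ℓ × Bool → Bool) → ℝ)
    (hψ : ∀ γ π σn, ψ (act γ π) (σn ∘ γ.symm) = ψ π σn) :
    ∑ π, (∏ v, rc t v (phi π v)) * ∑ σn, Lb D θ π σ σn * ψ π σn =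
      ∑ π, (∏ v, rc t v (phi π v) * kB θ σ Prod.snd v (π v)) *
        (if Good D (phi π) then ψ π Prod.snd else 0) := by
  set R : (Fin ℓ × Bool → Option (Fin ℓ × Bool)) → ℝ :=
    fun Φ => (∏ v, rc t v (Φ v)) * if Good D Φ then 1 / 4 ^ ℓ else 0 with hR
  set f : (Fin ℓ × Bool → O ⊕ (Fin ℓ × Bool)) → (Fin ℓ × Bool → Bool) → ℝ :=
    fun π σn => (∏ v, kB θ σ σn v (π v)) * ψ π σn with hf
  have hfi : ∀ γ π σn, f (act γ π) (σn ∘ γ.symm) = f π σn := by
    intro γ π σn
    simp only [hf, prod_kB_act, hψ]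
  have h1 : ∀ x, ∑ π, R (phi π) * f π (tau x) = ∑ π, R (phi π) * f π Prod.snd := by
    intro x
    rw [← Equiv.sum_comp (act (kap x))]
    refine Finset.sum_congr rfl fun π _ => ?_
    rw [tau_eq, hfi]
    congr 1
    simp only [hR]
    rw [good_conj x (phi_act (kap x) π), ← Equiv.prod_comp (kap x)]
    congr 1
    refine Finset.prod_congr rfl fun v _ => ?_
    rw [phi_act, Equiv.symm_apply_apply]
    cases phi π v <;> rfl
  calc _ = ∑ π, R (phi π) * ∑ σn, gbar (phi π) σn * f π σn := by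
        refine Finset.sum_congr rfl fun π _ => ?_
        simp only [hR, hf, Lb, Finset.mul_sum]
        refine Finset.sum_congr rfl fun σn _ => ?_
        split_ifs <;> ring
    _ = 2 ^ ℓ * ∑ x : Fin ℓ → Bool, ∑ π, R (phi π) * f π (tau x) := by
        rw [sym_gam R f hfi, Finset.sum_comm, Finset.mul_sum]
        refine Finset.sum_congr rfl fun π _ => ?_
        rw [sum_g0_mul, ← Finset.mul_sum]; ring
    _ = _ := by
        simp only [h1, Finset.sum_const, card_univ, Fintype.card_fun, Fintype.card_bool,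
          Fintype.card_fin, nsmul_eq_mul, Finset.mul_sum]
        refine Finset.sum_congr rfl fun π _ => ?_
        simp only [hR, hf, Finset.prod_mul_distrib]
        have : (4 : ℝ) ^ ℓ = 2 ^ ℓ * 2 ^ ℓ := by rw [← mul_pow]; norm_num
        rw [this]
        split_ifs
        · push_cast; field_simp
        · simp

lemma block_second (D : ℕ) {t : ℝ} (ht : 0 < t) (hO : (Fintype.card O : ℝ) = 2 * t) (θ lam : ℝ)
    (σ σ' : O → Bool) (hσ : ∑ o, sg (σ o) = 0) (hσ' : ∑ o, sg (σ' o) = 0) :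
    ∑ π : Fin ℓ × Bool → O ⊕ (Fin ℓ × Bool), (∏ v, rc t v (phi π v)) *
      ∑ σn, ∑ σn', Lb D θ π σ σn * Lb D θ π σ' σn' *
        Real.exp (lam * ∑ v, sg (σn v) * sg (σn' v)) =
      Bk ℓ D t θ (∑ o, sg (σ o) * sg (σ' o)) lam := by
  have key : ∀ σn σn' : Fin ℓ × Bool → Bool,
      ∑ π : Fin ℓ × Bool → O ⊕ (Fin ℓ × Bool), (∏ v, rc t v (phi π v)) *
        (Lb D θ π σ σn * Lb D θ π σ' σn' * Real.exp (lam * ∑ v, sg (σn v) * sg (σn' v))) =
      ∑ Φ : Fin ℓ × Bool → Option (Fin ℓ × Bool), (∏ v, rF t v (Φ v) / 4) *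
        (if Good D Φ then gbar Φ σn * gbar Φ σn' *
          Ker θ (θ ^ 2 * (∑ o, sg (σ o) * sg (σ' o)) / (2 * t)) lam Φ σn σn' else 0) := by
    intro σn σn'
    have := pushforward (ι := Fin ℓ × Bool) (Sum.getRight? : O ⊕ (Fin ℓ × Bool) → _)
      (fun v c => rc t v c.getRight? * kB θ σ σn v c * kB θ σ' σn' v c)
      (fun Φ => (if Good D Φ then gbar Φ σn * gbar Φ σn' / (4 ^ ℓ * 4 ^ ℓ) else 0) *
        Real.exp (lam * ∑ v, sg (σn v) * sg (σn' v)))
    convert this using 1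
    · refine Finset.sum_congr rfl fun π _ => ?_
      simp only [Lb, Finset.prod_mul_distrib]
      change _ = (∏ v, rc t v (phi π v)) * _ * _ * ((if Good D (phi π) then
        gbar (phi π) σn * gbar (phi π) σn' / (4 ^ ℓ * 4 ^ ℓ) else 0) * _)
      split_ifs
      · ring
      · simp
    · refine Finset.sum_congr rfl fun Φ _ => ?_
      have e : ∀ v, (∑ c : O ⊕ (Fin ℓ × Bool), if c.getRight? = Φ v then
          rc t v c.getRight? * kB θ σ σn v c * kB θ σ' σn' v c else 0) = rF t v (Φ v) *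
          kv θ (θ ^ 2 * (∑ o, sg (σ o) * sg (σ' o)) / (2 * t)) (Φ v) σn σn' v := by
        intro v
        rw [Fintype.sum_sum_type]
        cases Φ v with
        | none =>
          simp only [Sum.getRight?_inl, if_true, Sum.getRight?_inr, reduceCtorEq, if_false,
            Finset.sum_const_zero, add_zero, rc, rF, kv, kB, Sum.elim_inl]
          have : ∀ o, 1 / (2 * (t + v.1.val)) * (1 + θ * sg (σn v) * sg (σ o)) *
              (1 + θ * sg (σn' v) * sg (σ' o)) = 1 / (2 * (t + v.1.val)) * (1 +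
                θ * sg (σn v) * sg (σ o) + θ * sg (σn' v) * sg (σ' o) +
                θ ^ 2 * sg (σn v) * sg (σn' v) * (sg (σ o) * sg (σ' o))) := fun o => by ring
          simp only [this, ← Finset.mul_sum, Finset.sum_add_distrib, hσ, hσ', Finset.sum_const,
            card_univ, nsmul_eq_mul, hO]
          field_simp
          ring
        | some u =>
          simp only [Sum.getRight?_inl, reduceCtorEq, if_false, Sum.getRight?_inr,
            Finset.sum_const_zero, zero_add, Option.some.injEq, Finset.sum_ite_eq', mem_univ,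
            if_true, rc, rF, kv, kB, Sum.elim_inr]
          ring
      simp only [e, Finset.prod_mul_distrib, Ker, Finset.prod_div_distrib, Finset.prod_const,
        card_univ, Fintype.card_prod, Fintype.card_fin, Fintype.card_bool]
      rw [pow_mul, sq]
      split_ifs
      · ring
      · simp
  have e0 : ∀ (a : ℝ) (F : (Fin ℓ × Bool → Bool) → (Fin ℓ × Bool → Bool) → ℝ),
      a * ∑ x, ∑ y, F x y = ∑ x, ∑ y, a * F x y := fun a F => by simp only [Finset.mul_sum]
  simp only [e0]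
  rw [← sum_out]
  simp only [key]
  rw [sum_out, Bk]
  refine Finset.sum_congr rfl fun Φ _ => ?_
  split_ifs
  · simp only [Finset.mul_sum]
  · simp

end Pool.Agent.MP_ff2ec0_pr

end MrgPart1

-- ======== part 2: formerly Pool.Agent.MP_ff2ec0_pr.Bad
section MrgPart2

/-!
The good event of a block has high probability.
-/

namespace Pool.Agent.MP_ff2ec0_pr

open Finset Function Classical

variable {ℓ : ℕ} {O : Type} [Fintype O]

lemma sum_sg_lt (i : Fin ℓ) : ∑ u : Fin ℓ × Bool, (if u.1 < i then sg u.2 else 0) = 0 := by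
  rw [Fintype.sum_prod_type]
  refine Finset.sum_eq_zero fun j _ => ?_
  simp only [Fintype.sum_bool]
  split_ifs <;> simp [sg]

lemma sum_rk {t : ℝ} (ht : 0 < t) (hO : (Fintype.card O : ℝ) = 2 * t) (θ : ℝ) (σ : O → Bool)
    (hσ : ∑ o, sg (σ o) = 0) (v : Fin ℓ × Bool) :
    ∑ c : O ⊕ (Fin ℓ × Bool), rc t v c.getRight? * kB θ σ Prod.snd v c = 1 := by
  rw [Fintype.sum_sum_type]
  simp only [Sum.getRight?_inl, Sum.getRight?_inr, rc, kB, Sum.elim_inl, Sum.elim_inr]
  have e : ∀ u : Fin ℓ × Bool, (if u.1 < v.1 then 1 / (2 * (t + v.1.val)) else 0) *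
      (1 + θ * sg v.2 * sg u.2) = 1 / (2 * (t + v.1.val)) *
        ((if u.1 < v.1 then 1 else 0) + θ * sg v.2 * if u.1 < v.1 then sg u.2 else 0) := by
    intro u; split_ifs <;> ring
  simp only [e, ← Finset.mul_sum, Finset.sum_add_distrib, hσ, sum_sg_lt, Finset.sum_const,
    card_univ, nsmul_eq_mul, hO]
  rw [← Finset.sum_filter, Finset.sum_const, card_lt_slot, nsmul_eq_mul]
  push_cast
  field_simp
  ring

omit [Fintype O] in
lemma rk_nonneg {t θ : ℝ} (ht : 0 < t) (hθ : |θ| ≤ 1) (σ : O → Bool) (v : Fin ℓ × Bool)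
    (c : O ⊕ (Fin ℓ × Bool)) : 0 ≤ rc t v c.getRight? * kB θ σ Prod.snd v c :=
  mul_nonneg (rc_nonneg ht _ _) (one_add_nonneg hθ _ _)

omit [Fintype O] in
lemma rk_le {t θ : ℝ} (ht : 0 < t) (hθ : |θ| ≤ 1) (σ : O → Bool) (v : Fin ℓ × Bool)
    (c : O ⊕ (Fin ℓ × Bool)) : rc t v c.getRight? * kB θ σ Prod.snd v c ≤ 1 / t := by
  have h0 : 1 / (2 * (t + v.1.val)) ≤ 1 / (2 * t) := by
    gcongr; have : (0 : ℝ) ≤ v.1.val := Nat.cast_nonneg _; linarith
  have h1 : rc t v c.getRight? ≤ 1 / (2 * t) := by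
    cases c.getRight? with
    | none => exact h0
    | some u =>
      simp only [rc]
      split_ifs
      · exact h0
      · positivity
  have h2 : kB θ σ Prod.snd v c ≤ 2 := by
    have := abs_le.1 hθ
    unfold kB
    cases v.2 <;> cases Sum.elim σ Prod.snd c <;> simp [sg] <;> linarith
  calc _ ≤ 1 / (2 * t) * 2 := mul_le_mul h1 h2 (one_add_nonneg hθ _ _) (by positivity)
    _ = _ := by field_simp

lemma hit_bound {t θ : ℝ} (ht : 0 < t) (hO : (Fintype.card O : ℝ) = 2 * t) (hθ : |θ| ≤ 1)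
    (σ : O → Bool) (hσ : ∑ o, sg (σ o) = 0) (W : Finset (Fin ℓ)) :
    ∑ π : Fin ℓ × Bool → O ⊕ (Fin ℓ × Bool), (∏ v, rc t v (phi π v) * kB θ σ Prod.snd v (π v)) *
      t ^ (intE (phi π) W).card ≤ (1 + 2 * W.card) ^ (2 * W.card) := by
  let f : Fin ℓ × Bool → O ⊕ (Fin ℓ × Bool) → ℝ := fun v c =>
    if v.1 ∈ W ∧ ∃ u, c.getRight? = some u ∧ u.1 ∈ W then t else 1
  have e1 : ∀ π : Fin ℓ × Bool → O ⊕ (Fin ℓ × Bool),
      (∏ v, rc t v (phi π v) * kB θ σ Prod.snd v (π v)) * t ^ (intE (phi π) W).card =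
        ∏ v, rc t v (π v).getRight? * kB θ σ Prod.snd v (π v) * f v (π v) := by
    intro π
    rw [Finset.prod_mul_distrib (f := fun v => rc t v (π v).getRight? * kB θ σ Prod.snd v (π v)),
      intE, ← Finset.prod_const, Finset.prod_filter]
    rfl
  simp only [e1]
  rw [← Fintype.piFinset_univ, ← Finset.prod_univ_sum (fun _ => univ)
    fun v c => rc t v (Sum.getRight? c) * kB θ σ Prod.snd v c * f v c]
  have e2 : ((1 : ℝ) + 2 * W.card) ^ (2 * W.card) =
      ∏ v : Fin ℓ × Bool, if v.1 ∈ W then (1 + 2 * W.card : ℝ) else 1 := by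
    rw [← Finset.prod_filter, Finset.prod_const, card_pairs]
  rw [e2]
  refine Finset.prod_le_prod (fun v _ => Finset.sum_nonneg fun c _ =>
    mul_nonneg (rk_nonneg ht hθ σ v c) (by simp only [f]; split_ifs <;> positivity)) fun v _ => ?_
  split_ifs with hv
  · have : ∀ c ∈ (univ : Finset (O ⊕ (Fin ℓ × Bool))),
        rc t v c.getRight? * kB θ σ Prod.snd v c * f v c ≤
          rc t v c.getRight? * kB θ σ Prod.snd v c +
            if ∃ u, c.getRight? = some u ∧ u.1 ∈ W then 1 else 0 := by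
      intro c _
      have h1 := rk_nonneg ht hθ σ v c
      have h2 := rk_le ht hθ σ v c
      simp only [f, hv, true_and]
      split_ifs
      · rw [le_div_iff₀ ht] at h2; linarith
      · linarith
    refine (Finset.sum_le_sum this).trans ?_
    rw [Finset.sum_add_distrib, sum_rk ht hO θ σ hσ, Fintype.sum_sum_type]
    simp only [Sum.getRight?_inl, reduceCtorEq, false_and, exists_false, if_false,
      Finset.sum_const_zero, zero_add, Sum.getRight?_inr, Option.some.injEq, exists_eq_left']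
    rw [← Finset.sum_filter, Finset.sum_const, card_pairs, nsmul_eq_mul]
    push_cast; linarith
  · simp only [f, hv, false_and, if_false, mul_one]
    exact (sum_rk ht hO θ σ hσ v).le

lemma bad_bound (D : ℕ) {t θ : ℝ} (ht : 1 ≤ t) (hO : (Fintype.card O : ℝ) = 2 * t) (hθ : |θ| ≤ 1)
    (hx : ℓ / t ≤ 1) (σ : O → Bool) (hσ : ∑ o, sg (σ o) = 0) :
    1 - (2 * D + 3) ^ (2 * D + 2) * (D * (ℓ / t) ^ 2 + ℓ * (ℓ / t) ^ D) ≤
      ∑ π : Fin ℓ × Bool → O ⊕ (Fin ℓ × Bool),
        (∏ v, rc t v (phi π v) * kB θ σ Prod.snd v (π v)) * (if Good D (phi π) then 1 else 0) := by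
  have ht0 : 0 < t := by linarith
  set P : (Fin ℓ × Bool → O ⊕ (Fin ℓ × Bool)) → ℝ :=
    fun π => ∏ v, rc t v (phi π v) * kB θ σ Prod.snd v (π v) with hP
  have hP0 : ∀ π, 0 ≤ P π := fun π => Finset.prod_nonneg fun v _ => rk_nonneg ht0 hθ σ v (π v)
  have hP1 : ∑ π, P π = 1 := sum_prod_eq_one
    (fun v (c : O ⊕ (Fin ℓ × Bool)) => rc t v c.getRight? * kB θ σ Prod.snd v c)
    (sum_rk ht0 hO θ σ hσ)
  set cD : ℝ := (2 * D + 3) ^ (2 * D + 2) with hcD
  have hW : ∀ m ≤ D + 1, ∀ k : ℕ, ∑ π, P π * ∑ W ∈ powersetCard m univ,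
      t ^ (intE (phi π) W).card / t ^ k ≤ cD * (ℓ ^ m / t ^ k) := by
    intro m hm k
    simp only [Finset.mul_sum]
    rw [Finset.sum_comm]
    have : ∀ W ∈ powersetCard m (univ : Finset (Fin ℓ)),
        ∑ π, P π * (t ^ (intE (phi π) W).card / t ^ k) ≤ cD / t ^ k := by
      intro W hW
      simp only [← mul_div_assoc, ← Finset.sum_div]
      refine div_le_div_of_nonneg_right ((hit_bound ht0 hO hθ σ hσ W).trans ?_) (by positivity)
      rw [(mem_powersetCard.1 hW).2]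
      have h1 : (m : ℝ) ≤ D + 1 := by exact_mod_cast hm
      have h0 : (0 : ℝ) ≤ D := Nat.cast_nonneg _
      calc _ ≤ (2 * D + 3 : ℝ) ^ (2 * m) := pow_le_pow_left₀ (by positivity) (by linarith) _
        _ ≤ _ := pow_le_pow_right₀ (by linarith) (by omega)
    refine (Finset.sum_le_card_nsmul _ _ _ this).trans ?_
    rw [card_powersetCard, card_univ, Fintype.card_fin, nsmul_eq_mul]
    have h2 : (ℓ.choose m : ℝ) ≤ ℓ ^ m := by exact_mod_cast Nat.choose_le_pow ℓ m
    calc _ ≤ ℓ ^ m * (cD / t ^ k) := by gcongr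
      _ = _ := by ring
  have hpt : ∀ π, P π * 1 - P π * (∑ m ∈ Icc 2 (D + 1), ∑ W ∈ powersetCard m univ,
      t ^ (intE (phi π) W).card / t ^ m) - P π * (∑ W ∈ powersetCard (D + 1) univ,
        t ^ (intE (phi π) W).card / t ^ D) ≤ P π * if Good D (phi π) then 1 else 0 := by
    intro π
    by_cases h0 : P π = 0
    · rw [h0, zero_mul, zero_mul, zero_mul, zero_mul, sub_zero, sub_zero]
    rw [← mul_sub, ← mul_sub]
    refine mul_le_mul_of_nonneg_left ?_ (hP0 π)
    have a0 : ∀ a b : ℕ, 0 ≤ t ^ a / t ^ b := fun a b => by positivity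
    have a1 : 0 ≤ ∑ m ∈ Icc 2 (D + 1), ∑ W ∈ powersetCard m univ,
        t ^ (intE (phi π) W).card / t ^ m :=
      Finset.sum_nonneg fun _ _ => Finset.sum_nonneg fun _ _ => a0 _ _
    have a2 : 0 ≤ ∑ W ∈ powersetCard (D + 1) univ, t ^ (intE (phi π) W).card / t ^ D :=
      Finset.sum_nonneg fun _ _ => a0 _ _
    split_ifs with hG
    · linarith
    have hv : FValid (phi π) := by
      intro v u hu
      have := left_ne_zero_of_mul (Finset.prod_ne_zero_iff.1 h0 v (mem_univ v))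
      by_contra hc
      simp [rc, hu, hc] at this
    unfold Good at hG
    push Not at hG
    obtain ⟨W, hne, hc, hW⟩ := hG
    by_cases h1 : (intE (phi π) W).card < W.card
    · obtain ⟨h2, h3⟩ := hW h1
      have := Finset.single_le_sum (f := fun W => t ^ (intE (phi π) W).card / t ^ D)
        (s := powersetCard (D + 1) univ) (fun _ _ => a0 _ _)
        (mem_powersetCard.2 ⟨subset_univ W, h2⟩)
      have h4 : 1 ≤ t ^ (intE (phi π) W).card / t ^ D := by
        rw [one_le_div (by positivity)]; exact pow_le_pow_right₀ ht h3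
      linarith
    · have h2 : 2 ≤ W.card := by
        by_contra h2
        have h3 : W.card = 1 := by have := hne.card_pos; omega
        obtain ⟨i, rfl⟩ := card_eq_one.1 h3
        have : (intE (phi π) {i}).Nonempty := by rw [← card_pos]; omega
        obtain ⟨v, hv'⟩ := this
        simp only [intE, mem_filter, mem_univ, true_and, mem_singleton] at hv'
        obtain ⟨h4, u, h5, h6⟩ := hv'
        have := hv v u h5
        rw [h4, h6] at this
        exact lt_irrefl _ this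
      have b1 := Finset.single_le_sum (f := fun W' => t ^ (intE (phi π) W').card / t ^ W.card)
        (s := powersetCard W.card univ) (fun _ _ => a0 _ _)
        (mem_powersetCard.2 ⟨subset_univ W, rfl⟩)
      have b2 := Finset.single_le_sum (f := fun m => ∑ W ∈ powersetCard m univ,
        t ^ (intE (phi π) W).card / t ^ m) (s := Icc 2 (D + 1))
        (fun _ _ => Finset.sum_nonneg fun _ _ => a0 _ _)
        (mem_Icc.2 ⟨h2, hc⟩)
      have h4 : 1 ≤ t ^ (intE (phi π) W).card / t ^ W.card := by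
        rw [one_le_div (by positivity)]; exact pow_le_pow_right₀ ht (by omega)
      linarith
  refine le_trans ?_ (Finset.sum_le_sum fun π _ => hpt π)
  rw [Finset.sum_sub_distrib, Finset.sum_sub_distrib]
  have c1 := hW (D + 1) le_rfl D
  have c2 : ∑ π, P π * (∑ m ∈ Icc 2 (D + 1), ∑ W ∈ powersetCard m univ,
      t ^ (intE (phi π) W).card / t ^ m) ≤ cD * (D * (ℓ / t) ^ 2) := by
    simp only [Finset.mul_sum (s := Icc 2 (D + 1))]
    rw [Finset.sum_comm]
    have : ∀ m ∈ Icc 2 (D + 1), ∑ π, P π * ∑ W ∈ powersetCard m univ,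
        t ^ (intE (phi π) W).card / t ^ m ≤ cD * (ℓ / t) ^ 2 := by
      intro m hm
      rw [mem_Icc] at hm
      refine (hW m hm.2 m).trans ?_
      rw [← div_pow]
      exact mul_le_mul_of_nonneg_left (pow_le_pow_of_le_one (by positivity) hx hm.1)
        (by positivity)
    refine (Finset.sum_le_card_nsmul _ _ _ this).trans ?_
    rw [Nat.card_Icc, nsmul_eq_mul, show D + 1 + 1 - 2 = D by omega]
    apply le_of_eq; ring
  simp only [mul_one, hP1]
  have c3 : (ℓ : ℝ) ^ (D + 1) / t ^ D = ℓ * (ℓ / t) ^ D := by rw [div_pow]; ring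
  rw [c3] at c1
  linarith

end Pool.Agent.MP_ff2ec0_pr

end MrgPart2

-- ======== part 3: formerly Pool.Agent.MP_ff2ec0_pr.Stage
section MrgPart3

/-!
Stages of the construction: a likelihood on hidden types, grown block by block.
-/

namespace Pool.Agent.MP_ff2ec0_pr

open Finset Function Classical

variable {V : Type} [Fintype V] [DecidableEq V] {ℓ : ℕ}

/-- Attachment probability in terms of the labels (time, type). -/
noncomputable def stepN (q : ℝ) (v c : ℕ × Bool) : ℝ :=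
  if v.1 = 0 then (if c = (v.1, !v.2) then 1 else 0)
  else if c.1 < v.1 then (if c.2 = v.2 then 1 - q else q) / (v.1 : ℝ) else 0

lemma stepN_eq (q : ℝ) {n : ℕ} (v c : Fin n × Bool) :
    stepN q (v.1.val, v.2) (c.1.val, c.2) = stepProb q v c := by
  obtain ⟨i, b⟩ := v
  obtain ⟨j, b'⟩ := c
  simp [stepN, stepProb, Fin.ext_iff]

lemma stepN_nonneg {q : ℝ} (h0 : 0 ≤ q) (h1 : q ≤ 1) (v c : ℕ × Bool) : 0 ≤ stepN q v c := by
  unfold stepN
  have : 0 ≤ 1 - q := by linarith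
  split_ifs <;> positivity

/-- Weight of a history, with a time-dependent parameter. -/
noncomputable def Wq (qf : ℕ → ℝ) (lb : V → ℕ × Bool) (p : V → V) : ℝ :=
  ∏ v, stepN (qf (lb v).1) (lb v) (lb (p v))

omit [DecidableEq V] in
lemma W0_nonneg (lb : V → ℕ × Bool) (p : V → V) : 0 ≤ Wq (fun _ => 1 / 2) lb p :=
  Finset.prod_nonneg fun _ _ => stepN_nonneg (by norm_num) (by norm_num) _ _

/-- The labels list the nodes of times below `t`. -/
def IsLab (t : ℕ) (lb : V → ℕ × Bool) : Prop :=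
  ∃ e : V ≃ Fin t × Bool, ∀ v, lb v = ((e v).1.val, (e v).2)

omit [DecidableEq V] in
lemma IsLab.card {t : ℕ} {lb : V → ℕ × Bool} (h : IsLab t lb) :
    (Fintype.card V : ℝ) = 2 * t := by
  obtain ⟨e, _⟩ := h
  rw [Fintype.card_congr e]
  simp [mul_comm]

omit [Fintype V] [DecidableEq V] in
lemma IsLab.lt {t : ℕ} {lb : V → ℕ × Bool} (h : IsLab t lb) (v : V) : (lb v).1 < t := by
  obtain ⟨e, he⟩ := h
  rw [he]; exact (e v).1.isLt

/-- Labels after one more block. -/
def lbS (t ℓ : ℕ) (lb : V → ℕ × Bool) : V ⊕ (Fin ℓ × Bool) → ℕ × Bool :=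
  Sum.elim lb fun s => (t + s.1.val, s.2)

omit [Fintype V] [DecidableEq V] in
lemma IsLab.step {t : ℕ} {lb : V → ℕ × Bool} (h : IsLab t lb) (ℓ : ℕ) :
    IsLab (t + ℓ) (lbS t ℓ lb) := by
  obtain ⟨e, he⟩ := h
  refine ⟨((e.sumCongr (Equiv.refl _)).trans (Equiv.sumProdDistrib _ _ _).symm).trans
    (finSumFinEquiv.prodCongr (Equiv.refl _)), ?_⟩
  rintro (v | s)
  · simp [lbS, he]
  · simp [lbS]

/-- Invariance under relabellings that keep the root edge. -/
def Inv (lb : V → ℕ × Bool) (ψ : (V → V) → (V → Bool) → ℝ) : Prop :=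
  ∀ γ : Equiv.Perm V, (∀ v, (lb (γ v)).1 = 0 ↔ (lb v).1 = 0) →
    ∀ p σ, ψ (γ ∘ p ∘ γ.symm) (σ ∘ γ.symm) = ψ p σ

/-- The structural properties of a stage. -/
structure Stage (qf : ℕ → ℝ) (t : ℕ) (lb : V → ℕ × Bool) (L : (V → V) → (V → Bool) → ℝ) :
    Prop where
  lab : IsLab t lb
  nonneg : ∀ p σ, 0 ≤ L p σ
  bal : ∀ p σ, L p σ ≠ 0 → ∑ v, sg (σ v) = 0
  dom : ∀ ψ : (V → V) → (V → Bool) → ℝ, (∀ p σ, 0 ≤ ψ p σ) → Inv lb ψ →
    ∑ p, Wq (fun _ => 1 / 2) lb p * ∑ σ, L p σ * ψ p σ ≤ ∑ p, Wq qf lb p * ψ p fun v => (lb v).2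

/-- Total mass. -/
noncomputable def mass (lb : V → ℕ × Bool) (L : (V → V) → (V → Bool) → ℝ) : ℝ :=
  ∑ p, Wq (fun _ => 1 / 2) lb p * ∑ σ, L p σ

/-- Two-copy moments of the overlap. -/
noncomputable def Mom (lb : V → ℕ × Bool) (L : (V → V) → (V → Bool) → ℝ) (f : ℝ → ℝ) : ℝ :=
  ∑ p, Wq (fun _ => 1 / 2) lb p * ∑ σ, ∑ σ', L p σ * L p σ' * f (∑ v, sg (σ v) * sg (σ' v))

lemma Mom_mono {qf : ℕ → ℝ} {t : ℕ} {lb : V → ℕ × Bool} {L : (V → V) → (V → Bool) → ℝ}
    (h : Stage qf t lb L) {f g : ℝ → ℝ} (hfg : ∀ d : ℝ, |d| ≤ 2 * t → f d ≤ g d) :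
    Mom lb L f ≤ Mom lb L g := by
  refine Finset.sum_le_sum fun p _ => mul_le_mul_of_nonneg_left (Finset.sum_le_sum fun σ _ =>
    Finset.sum_le_sum fun σ' _ => mul_le_mul_of_nonneg_left (hfg _ ?_)
      (mul_nonneg (h.nonneg _ _) (h.nonneg _ _))) (W0_nonneg _ _)
  refine (Finset.abs_sum_le_sum_abs _ _).trans ?_
  simp [abs_mul, abs_sg, h.lab.card]

lemma Mom_add (lb : V → ℕ × Bool) (L : (V → V) → (V → Bool) → ℝ) (f g : ℝ → ℝ) :
    Mom lb L (fun d => f d + g d) = Mom lb L f + Mom lb L g := by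
  simp only [Mom, mul_add, Finset.sum_add_distrib]

lemma Mom_mul (lb : V → ℕ × Bool) (L : (V → V) → (V → Bool) → ℝ) (a : ℝ) (f : ℝ → ℝ) :
    Mom lb L (fun d => a * f d) = a * Mom lb L f := by
  simp only [Mom, Finset.mul_sum]
  refine Finset.sum_congr rfl fun p _ => Finset.sum_congr rfl fun σ _ =>
    Finset.sum_congr rfl fun σ' _ => by ring

lemma split_W {t : ℕ} {lb : V → ℕ × Bool} (h : IsLab t lb) (qf : ℕ → ℝ)
    (F : (V ⊕ (Fin ℓ × Bool) → V ⊕ (Fin ℓ × Bool)) → ℝ) :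
    ∑ p', Wq qf (lbS t ℓ lb) p' * F p' = ∑ p, Wq qf lb p *
      ∑ π : Fin ℓ × Bool → V ⊕ (Fin ℓ × Bool),
        (∏ s, stepN (qf (t + s.1.val)) (t + s.1.val, s.2) (lbS t ℓ lb (π s))) *
          F (Sum.elim (Sum.inl ∘ p) π) := by
  have := pushforward (ι := V) (Sum.inl : V → V ⊕ (Fin ℓ × Bool))
    (fun v c => stepN (qf (lb v).1) (lb v) (lb c))
    (fun y => ∑ π : Fin ℓ × Bool → V ⊕ (Fin ℓ × Bool),
        (∏ s, stepN (qf (t + s.1.val)) (t + s.1.val, s.2) (lbS t ℓ lb (π s))) *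
          F (Sum.elim y π))
  refine Eq.trans ?_ this.symm
  rw [← (Equiv.sumArrowEquivProdArrow _ _ _).symm.sum_comp, Fintype.sum_prod_type]
  refine Finset.sum_congr rfl fun y _ => ?_
  rw [Finset.mul_sum]
  refine Finset.sum_congr rfl fun π _ => ?_
  rw [← mul_assoc]
  congr 1
  rw [Wq, Fintype.prod_sum_type]
  congr 1
  refine Finset.prod_congr rfl fun v _ => ?_
  change stepN (qf (lb v).1) (lb v) (lbS t ℓ lb (y v)) = _
  cases y v with
  | inl c => simp [lbS]
  | inr s =>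
    have := h.lt v
    simp only [lbS, Sum.elim_inr, reduceCtorEq, if_false, Finset.sum_const_zero, stepN]
    split_ifs with h1 h2 h3
    · have := congrArg Prod.fst h2
      simp only at this
      omega
    · rfl
    · omega
    · omega
    · rfl

omit [Fintype V] [DecidableEq V] in
lemma stepN_block {t : ℕ} (ht : 0 < t) {lb : V → ℕ × Bool} (h : IsLab t lb) (q : ℝ)
    (s : Fin ℓ × Bool) (c : V ⊕ (Fin ℓ × Bool)) :
    stepN q (t + s.1.val, s.2) (lbS t ℓ lb c) =
      rc t s c.getRight? * kB (1 - 2 * q) (fun v => (lb v).2) Prod.snd s c := by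
  have h0 : t + s.1.val ≠ 0 := by omega
  have h1 : (0 : ℝ) < t + s.1.val := by positivity
  cases c with
  | inl v =>
    have h2 : (lb v).1 < t + s.1.val := by have := h.lt v; omega
    simp only [stepN, h0, if_false, lbS, Sum.elim_inl, h2, if_true, Sum.getRight?_inl, rc, kB]
    push_cast
    split_ifs with h3
    · rw [h3, mul_assoc, sg_mul_self]; field_simp; ring
    · revert h3
      cases (lb v).2 <;> cases s.2 <;> simp [sg] <;> field_simp
  | inr u =>
    simp only [stepN, h0, if_false, lbS, Sum.elim_inr, Sum.getRight?_inr, rc, kB,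
      add_lt_add_iff_left, Fin.lt_def]
    push_cast
    split_ifs with h2 h3
    · rw [h3, mul_assoc, sg_mul_self]; field_simp; ring
    · revert h3
      cases u.2 <;> cases s.2 <;> simp [sg] <;> field_simp
    · simp

/-- The likelihood after one more block. -/
noncomputable def LS (D : ℕ) (θ : ℝ) (L : (V → V) → (V → Bool) → ℝ)
    (p' : V ⊕ (Fin ℓ × Bool) → V ⊕ (Fin ℓ × Bool)) (σ' : V ⊕ (Fin ℓ × Bool) → Bool) : ℝ :=
  L (fun v => (p' (Sum.inl v)).elim id fun _ => v) (σ' ∘ Sum.inl) *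
    Lb D θ (p' ∘ Sum.inr) (σ' ∘ Sum.inl) (σ' ∘ Sum.inr)

omit [Fintype V] [DecidableEq V] in
lemma LS_elim (D : ℕ) (θ : ℝ) (L : (V → V) → (V → Bool) → ℝ) (p : V → V)
    (π : Fin ℓ × Bool → V ⊕ (Fin ℓ × Bool)) (σ : V → Bool) (σn : Fin ℓ × Bool → Bool) :
    LS D θ L (Sum.elim (Sum.inl ∘ p) π) (Sum.elim σ σn) = L p σ * Lb D θ π σ σn := rfl

lemma sum_elim_bool (F : (V ⊕ (Fin ℓ × Bool) → Bool) → ℝ) :
    ∑ σ', F σ' = ∑ σ, ∑ σn, F (Sum.elim σ σn) := by
  rw [← (Equiv.sumArrowEquivProdArrow _ _ _).symm.sum_comp, Fintype.sum_prod_type]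
  rfl

lemma split_W0 {t : ℕ} (ht : 0 < t) {lb : V → ℕ × Bool} (h : IsLab t lb)
    (F : (V ⊕ (Fin ℓ × Bool) → V ⊕ (Fin ℓ × Bool)) → ℝ) :
    ∑ p', Wq (fun _ => 1 / 2) (lbS t ℓ lb) p' * F p' = ∑ p, Wq (fun _ => 1 / 2) lb p *
      ∑ π : Fin ℓ × Bool → V ⊕ (Fin ℓ × Bool), (∏ s, rc t s (phi π s)) *
          F (Sum.elim (Sum.inl ∘ p) π) := by
  rw [split_W h]
  simp only [stepN_block ht h, kB]
  norm_num
  rfl

lemma master {t : ℕ} (ht : 0 < t) {lb : V → ℕ × Bool} (h : IsLab t lb) (D : ℕ) (θ : ℝ)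
    (L : (V → V) → (V → Bool) → ℝ)
    (ψ : (V ⊕ (Fin ℓ × Bool) → V ⊕ (Fin ℓ × Bool)) → (V ⊕ (Fin ℓ × Bool) → Bool) → ℝ)
    (hψ : Inv (lbS t ℓ lb) ψ) :
    ∑ p', Wq (fun _ => 1 / 2) (lbS t ℓ lb) p' * ∑ σ', LS D θ L p' σ' * ψ p' σ' =
      ∑ p, Wq (fun _ => 1 / 2) lb p * ∑ σ, L p σ *
        ∑ π : Fin ℓ × Bool → V ⊕ (Fin ℓ × Bool),
          (∏ v, rc t v (phi π v) * kB θ σ Prod.snd v (π v)) * if Good D (phi π) then
            ψ (Sum.elim (Sum.inl ∘ p) π) (Sum.elim σ Prod.snd) else 0 := by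
  rw [split_W0 ht h]
  refine Finset.sum_congr rfl fun p _ => ?_
  congr 1
  simp only [sum_elim_bool (V := V), LS_elim]
  have e0 : ∀ (a : ℝ) (F : (V → Bool) → ℝ), a * ∑ x, F x = ∑ x, a * F x :=
    fun a F => Finset.mul_sum _ _ _
  simp only [e0]
  rw [Finset.sum_comm]
  refine Finset.sum_congr rfl fun σ _ => ?_
  rw [← block_sym D t θ σ (fun π σn => ψ (Sum.elim (Sum.inl ∘ p) π) (Sum.elim σ σn))]
  · simp only [Finset.mul_sum]
    refine Finset.sum_congr rfl fun π _ => Finset.sum_congr rfl fun σn _ => by ring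
  · intro γ π σn
    rw [← hψ ((Equiv.refl V).sumCongr γ) ?_ (Sum.elim (Sum.inl ∘ p) π) (Sum.elim σ σn)]
    · congr 1
      · funext v; cases v <;> rfl
      · funext v; cases v <;> rfl
    · rintro (v | s)
      · rfl
      · simp [lbS, ht.ne']

lemma Stage.step {qf : ℕ → ℝ} {t : ℕ} (ht : 0 < t) {lb : V → ℕ × Bool}
    {L : (V → V) → (V → Bool) → ℝ} (h : Stage qf t lb L) {q : ℝ} (hq : ∀ m, t ≤ m → qf m = q)
    (hθ : |1 - 2 * q| ≤ 1) (D ℓ : ℕ) :
    Stage qf (t + ℓ) (lbS t ℓ lb) (LS D (1 - 2 * q) L) where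
  lab := h.lab.step ℓ
  nonneg := fun _ _ => mul_nonneg (h.nonneg _ _) (Lb_nonneg D hθ _ _ _)
  bal := fun p σ h0 => by
    rw [Fintype.sum_sum_type]
    exact (congrArg₂ (· + ·) (h.bal _ _ (left_ne_zero_of_mul h0))
      (bal_of_Lb (right_ne_zero_of_mul h0))).trans (add_zero 0)
  dom := fun ψ hψ0 hψ => by
    have ht' : (0 : ℝ) < t := by exact_mod_cast ht
    have hP : ∀ (σ : V → Bool) (π : Fin ℓ × Bool → V ⊕ (Fin ℓ × Bool)),
        0 ≤ ∏ v, rc t v (phi π v) * kB (1 - 2 * q) σ Prod.snd v (π v) := fun σ π =>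
      Finset.prod_nonneg fun v _ => rk_nonneg ht' hθ σ v (π v)
    have key := h.dom (fun p σ => ∑ π : Fin ℓ × Bool → V ⊕ (Fin ℓ × Bool),
      (∏ v, rc t v (phi π v) * kB (1 - 2 * q) σ Prod.snd v (π v)) *
        ψ (Sum.elim (Sum.inl ∘ p) π) (Sum.elim σ Prod.snd))
      (fun p σ => Finset.sum_nonneg fun π _ => mul_nonneg (hP σ π) (hψ0 _ _)) (by
        intro γ hγ p σ
        simp only
        rw [← Equiv.sum_comp (Equiv.arrowCongr (Equiv.refl _) (γ.sumCongr (Equiv.refl _)))]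
        refine Finset.sum_congr rfl fun π _ => ?_
        congr 1
        · refine Finset.prod_congr rfl fun v _ => ?_
          simp only [phi, kB, Equiv.arrowCongr_apply, Equiv.refl_symm, Equiv.coe_refl,
            Function.comp, id]
          cases π v <;> simp
        · rw [← hψ (γ.sumCongr (Equiv.refl _)) ?_ (Sum.elim (Sum.inl ∘ p) π)
            (Sum.elim σ Prod.snd)]
          · congr 1
            · funext v; cases v <;> rfl
            · funext v; cases v <;> rfl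
          · rintro (v | s)
            · exact hγ v
            · rfl)
    rw [master ht h.lab D _ L ψ hψ, split_W h.lab]
    refine le_trans (Finset.sum_le_sum fun p _ => mul_le_mul_of_nonneg_left
      (Finset.sum_le_sum fun σ _ => mul_le_mul_of_nonneg_left (Finset.sum_le_sum fun π _ =>
        mul_le_mul_of_nonneg_left ?_ (hP σ π)) (h.nonneg p σ)) (W0_nonneg _ _))
      (key.trans (le_of_eq ?_))
    · split_ifs
      · exact le_rfl
      · exact hψ0 _ _
    · refine Finset.sum_congr rfl fun p _ => ?_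
      congr 1
      refine Finset.sum_congr rfl fun π _ => ?_
      congr 1
      · refine Finset.prod_congr rfl fun s _ => ?_
        rw [hq _ (Nat.le_add_right _ _), stepN_block ht h.lab]
        rfl
      · congr 1
        funext v; cases v <;> rfl

lemma Stage.mass_step {qf : ℕ → ℝ} {t : ℕ} (ht : 0 < t) {lb : V → ℕ × Bool}
    {L : (V → V) → (V → Bool) → ℝ} (h : Stage qf t lb L) {θ : ℝ} (hθ : |θ| ≤ 1) (D ℓ : ℕ)
    (hx : (ℓ : ℝ) / t ≤ 1) :
    (1 - (2 * D + 3) ^ (2 * D + 2) * (D * ((ℓ : ℝ) / t) ^ 2 + ℓ * ((ℓ : ℝ) / t) ^ D)) * mass lb L ≤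
      mass (lbS t ℓ lb) (LS D θ L) := by
  have := master (ℓ := ℓ) ht h.lab D θ L (fun _ _ => 1) (fun _ _ _ _ => rfl)
  simp only [mul_one] at this
  rw [mass, mass, this, Finset.mul_sum]
  refine Finset.sum_le_sum fun p _ => ?_
  rw [mul_left_comm, Finset.mul_sum]
  refine mul_le_mul_of_nonneg_left (Finset.sum_le_sum fun σ _ => ?_) (W0_nonneg _ _)
  by_cases h0 : L p σ = 0
  · simp [h0]
  rw [mul_comm]
  exact mul_le_mul_of_nonneg_left (bad_bound D (by exact_mod_cast ht) h.lab.card hθ hx σ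
    (h.bal p σ h0)) (h.nonneg p σ)

lemma Stage.mom_step {qf : ℕ → ℝ} {t : ℕ} (ht : 0 < t) {lb : V → ℕ × Bool}
    {L : (V → V) → (V → Bool) → ℝ} (h : Stage qf t lb L) (θ : ℝ) (D ℓ : ℕ) (lam : ℝ) :
    Mom (lbS t ℓ lb) (LS D θ L) (fun d => Real.exp (lam * d)) =
      Mom lb L fun d => Real.exp (lam * d) * Bk ℓ D t θ d lam := by
  rw [Mom, Mom, split_W0 ht h.lab]
  refine Finset.sum_congr rfl fun p _ => ?_
  congr 1
  simp only [sum_elim_bool (V := V), LS_elim]
  have e0 : ∀ (a : ℝ) (F : (V → Bool) → (Fin ℓ × Bool → Bool) → (V → Bool) →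
      (Fin ℓ × Bool → Bool) → ℝ),
      a * ∑ x, ∑ y, ∑ z, ∑ w, F x y z w = ∑ x, ∑ z, a * ∑ y, ∑ w, F x y z w := by
    intro a F
    simp only [← Finset.mul_sum]
    congr 1
    exact Finset.sum_congr rfl fun x _ => Finset.sum_comm
  simp only [e0]
  rw [← sum_out]
  refine Finset.sum_congr rfl fun σ _ => Finset.sum_congr rfl fun σ' _ => ?_
  by_cases h0 : L p σ = 0
  · simp [h0]
  by_cases h1 : L p σ' = 0
  · simp [h1]
  rw [← block_second D (by exact_mod_cast ht) h.lab.card θ lam σ σ' (h.bal p σ h0) (h.bal p σ' h1)]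
  have e1 : ∀ (a : ℝ) (F : (Fin ℓ × Bool → Bool) → (Fin ℓ × Bool → Bool) → ℝ),
      a * ∑ x, ∑ y, F x y = ∑ x, ∑ y, a * F x y := fun a F => by simp only [Finset.mul_sum]
  rw [← mul_assoc, Finset.mul_sum]
  refine Finset.sum_congr rfl fun π _ => ?_
  rw [← mul_assoc, e1, e1]
  refine Finset.sum_congr rfl fun σn _ => Finset.sum_congr rfl fun σn' _ => ?_
  rw [Fintype.sum_sum_type, mul_add, Real.exp_add]
  simp only [Sum.elim_inl, Sum.elim_inr]
  ring

end Pool.Agent.MP_ff2ec0_pr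

end MrgPart3

-- marker of a merged file
example : 731051 + 881815 = 731051 + 881815 := rfl
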