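import Mathlib.Analysis.CStarAlgebra.Classes
import Mathlib.Analysis.SpecialFunctions.Trigonometric.DerivHyp
import Mathlib.Analysis.SpecialFunctions.Trigonometric.Series
import Mathlib.Analysis.Real.Pi.Bounds
import Pool.Agent.MP_ff2ec0_pr.Stage
import Pool.Agent.MP_ff2ec0_pr.PartA1

-- ======== part 0: formerly Pool.Agent.MP_ff2ec0_pr.Start
section MrgPart0

/-!
The first stage, and the comparison of probabilities given by a stage.
-/

namespace Pool.Agent.MP_ff2ec0_pr

open Finset Function Classical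

/-- Labels of the first stage. -/
def lb0 (k : ℕ) : Fin k × Bool → ℕ × Bool := fun v => (v.1.val, v.2)

/-- Likelihood of the first stage. -/
noncomputable def L0 (k : ℕ) : (Fin k × Bool → Fin k × Bool) → (Fin k × Bool → Bool) → ℝ :=
  fun _ σ => g0 σ / 4 ^ k

lemma Wq_lb0 (qf : ℕ → ℝ) {k : ℕ} (p : Fin k × Bool → Fin k × Bool) :
    Wq qf (lb0 k) p = ∏ v, stepProb (qf v.1.val) v (p v) :=
  Finset.prod_congr rfl fun v _ => stepN_eq _ v (p v)

lemma sum_W0 (k : ℕ) : ∑ p, Wq (fun _ => 1 / 2) (lb0 k) p = 1 := by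
  simp only [Wq_lb0]
  exact sum_prod_eq_one (fun v c => stepProb (1 / 2) v c) (sum_stepProb _)

lemma four_pow_eq (k : ℕ) : (4 : ℝ) ^ k = 2 ^ k * 2 ^ k := by rw [← mul_pow]; norm_num

lemma stage_start (qf : ℕ → ℝ) (k : ℕ) (hq : ∀ m < k, qf m = 1 / 2) :
    Stage qf k (lb0 k) (L0 k) where
  lab := ⟨Equiv.refl _, fun _ => rfl⟩
  nonneg := fun _ σ => div_nonneg (g0_nonneg σ) (by positivity)
  bal := fun _ σ h => bal_of_g0 fun h0 => h (by simp [L0, h0])
  dom := fun ψ _ hψ => by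
    apply le_of_eq
    have h1 : ∀ x, ∑ p, Wq (fun _ => 1 / 2) (lb0 k) p * ψ p (tau x) =
        ∑ p, Wq qf (lb0 k) p * ψ p Prod.snd := by
      intro x
      rw [← Equiv.sum_comp (Equiv.arrowCongr (kap x) (kap x))]
      refine Finset.sum_congr rfl fun p _ => ?_
      congr 1
      · rw [Wq_lb0, Wq_lb0, ← Equiv.prod_comp (kap x)]
        refine Finset.prod_congr rfl fun v _ => ?_
        rw [hq _ v.1.isLt]
        simp only [Equiv.arrowCongr_apply, Function.comp, Equiv.symm_apply_apply]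
        generalize p v = c
        obtain ⟨i, b⟩ := v
        obtain ⟨j, b'⟩ := c
        simp only [stepProb, kap_apply, Prod.mk.injEq]
        by_cases hi : i.val = 0
        · by_cases hj : j = i
          · subst hj
            cases b <;> cases b' <;> by_cases hx : x j = true <;> simp [hi, hx]
          · simp [hi, hj]
        · simp only [hi, if_false]
          split_ifs <;> norm_num
      · exact hψ (kap x) (fun _ => Iff.rfl) p Prod.snd
    calc _ = 2 ^ k / 4 ^ k * ∑ x : Fin k → Bool, ∑ p, Wq (fun _ => 1 / 2) (lb0 k) p *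
          ψ p (tau x) := by
          rw [Finset.sum_comm, Finset.mul_sum]
          refine Finset.sum_congr rfl fun p _ => ?_
          simp only [L0, div_mul_eq_mul_div, ← Finset.sum_div, sum_g0_mul, ← Finset.mul_sum]
          ring
      _ = _ := by
          simp only [h1, Finset.sum_const, card_univ, Fintype.card_fun, Fintype.card_bool,
            Fintype.card_fin, nsmul_eq_mul, four_pow_eq]
          push_cast
          field_simp
          rfl

lemma mass_start (k : ℕ) : mass (lb0 k) (L0 k) = 1 := by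
  have := sum_g0_mul (ℓ := k) fun _ => 1
  simp only [mul_one, Finset.sum_const, card_univ, Fintype.card_fun, Fintype.card_bool,
    Fintype.card_fin, nsmul_eq_mul] at this
  simp only [mass, L0, ← Finset.sum_div, this, ← Finset.sum_mul, sum_W0, four_pow_eq]
  push_cast
  field_simp

lemma mom_start (k : ℕ) (μ : ℝ) :
    Mom (lb0 k) (L0 k) (fun d => Real.exp (μ * d)) ≤ Real.exp (2 * μ ^ 2 * k) := by
  have h1 : ∀ x : Fin k → Bool, ∑ x' : Fin k → Bool,
      Real.exp (μ * ∑ v, sg (tau x v) * sg (tau x' v)) = (2 * Real.cosh (2 * μ)) ^ k := by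
    intro x
    have : ∀ x' : Fin k → Bool, Real.exp (μ * ∑ v, sg (tau x v) * sg (tau x' v)) =
        ∏ i, Real.exp (2 * μ * (sg (x i) * sg (x' i))) := by
      intro x'
      rw [← Real.exp_sum, Fintype.sum_prod_type, Finset.mul_sum]
      congr 1
      refine Finset.sum_congr rfl fun i _ => ?_
      simp only [Fintype.sum_bool, tau]
      cases x i <;> cases x' i <;> simp [sg] <;> ring
    simp only [this]
    rw [← Fintype.piFinset_univ, ← Finset.prod_univ_sum (fun _ => univ)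
      fun i b => Real.exp (2 * μ * (sg (x i) * sg b))]
    rw [Finset.prod_congr rfl (g := fun _ => 2 * Real.cosh (2 * μ))]
    · simp
    · intro i _
      rw [Real.cosh_eq]
      cases x i <;> simp [sg] <;> ring
  have h2 : ∑ σ : Fin k × Bool → Bool, ∑ σ' : Fin k × Bool → Bool, g0 σ / 4 ^ k * (g0 σ' / 4 ^ k) *
      Real.exp (μ * ∑ v, sg (σ v) * sg (σ' v)) = Real.cosh (2 * μ) ^ k := by
    calc _ = (∑ σ : Fin k × Bool → Bool, g0 σ * ∑ σ' : Fin k × Bool → Bool, g0 σ' *
          Real.exp (μ * ∑ v, sg (σ v) * sg (σ' v))) / (4 ^ k * 4 ^ k) := by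
          rw [Finset.sum_div]
          refine Finset.sum_congr rfl fun σ _ => ?_
          rw [Finset.mul_sum, Finset.sum_div]
          refine Finset.sum_congr rfl fun σ' _ => ?_
          ring
      _ = _ := by
          simp only [sum_g0_mul, h1, Finset.sum_const, card_univ, Fintype.card_fun,
            Fintype.card_bool, Fintype.card_fin, nsmul_eq_mul, four_pow_eq, mul_pow]
          push_cast
          field_simp
  simp only [Mom, L0, h2, ← Finset.sum_mul, sum_W0, one_mul]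
  calc _ ≤ Real.exp ((2 * μ) ^ 2 / 2) ^ k :=
        pow_le_pow_left₀ (Real.cosh_pos _).le (Real.cosh_le_exp_half_sq _) _
    _ = _ := by rw [← Real.exp_nat_mul]; congr 1; ring

variable {V : Type} [Fintype V] [DecidableEq V]

lemma transport {n : ℕ} {lb : V → ℕ × Bool} (e : V ≃ Fin n × Bool)
    (he : ∀ v, lb v = ((e v).1.val, (e v).2)) (qf : ℕ → ℝ)
    (G : (Fin n × Bool → Fin n × Bool) → ℝ) :
    ∑ p, Wq qf lb p * G (e ∘ p ∘ e.symm) =
      ∑ p, (∏ v, stepProb (qf v.1.val) v (p v)) * G p := by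
  rw [← Equiv.sum_comp (Equiv.arrowCongr e e)]
  refine Finset.sum_congr rfl fun p _ => ?_
  congr 1
  rw [Wq, ← Equiv.prod_comp e]
  refine Finset.prod_congr rfl fun v _ => ?_
  simp only [he, stepN_eq, Equiv.arrowCongr_apply, Function.comp, Equiv.symm_apply_apply]

lemma contig {q : ℝ} (h0 : 0 ≤ q) (h1 : q ≤ 1 / 2) {k n : ℕ} (hk : k ≤ n) {lb : V → ℕ × Bool}
    {L : (V → V) → (V → Bool) → ℝ} (h : Stage (fun m => if m < k then 1 / 2 else q) n lb L)
    (hm : 1 - 1 / 64 ≤ mass lb L) (hM : Mom lb L (fun _ => 1) ≤ Real.exp (1 / 64))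
    (φ : SimpleGraph (Fin n × Bool) → Bool) (hφ : RootedInvariant φ) (b : Bool) :
    (2 * q) ^ (2 * k) * (prob (1 / 2) n (fun G => φ G = b) - 1 / 4) ≤
      prob q n fun G => φ G = b := by
  obtain ⟨e, he⟩ := h.lab
  let G : (Fin n × Bool → Fin n × Bool) → ℝ := fun p => if φ (tree p) = b then 1 else 0
  have hG0 : ∀ p, 0 ≤ G p := fun p => by simp only [G]; split_ifs <;> norm_num
  have hd := h.dom (fun p _ => G (e ∘ p ∘ e.symm)) (fun p _ => hG0 _) (by
    intro γ hγ p σ
    simp only [G]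
    let f : tree (e ∘ p ∘ e.symm) ≃g tree (e ∘ (γ ∘ p ∘ γ.symm) ∘ e.symm) :=
      { toEquiv := (e.symm.trans γ).trans e
        map_rel_iff' := by
          intro u v
          simp [tree, SimpleGraph.fromRel_adj, ← Equiv.eq_symm_apply] }
    rw [hφ _ _ f]
    intro v
    have := hγ (e.symm v)
    rw [he, he, Equiv.apply_symm_apply] at this
    exact this)
  rw [transport e he] at hd
  have e1 : prob (1 / 2) n (fun G => φ G = b) =
      ∑ p, Wq (fun _ => 1 / 2) lb p * G (e ∘ p ∘ e.symm) := by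
    rw [transport e he, prob]
    refine Finset.sum_congr rfl fun p _ => ?_
    simp only [G]; split_ifs <;> simp
  have e2 : ∑ p, Wq (fun _ => 1 / 2) lb p = 1 := by
    have := transport e he (fun _ => 1 / 2) fun _ => 1
    simp only [mul_one] at this
    rw [this]
    exact sum_prod_eq_one (fun v c => stepProb (1 / 2) v c) (sum_stepProb _)
  have e3 : prob (1 / 2) n (fun G => φ G = b) - 1 / 4 ≤
      ∑ p, Wq (fun _ => 1 / 2) lb p * ∑ σ, L p σ * G (e ∘ p ∘ e.symm) := by
    have h2 : ∀ p ∈ (univ : Finset (V → V)), Wq (fun _ => 1 / 2) lb p * G (e ∘ p ∘ e.symm) -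
        2 * (Wq (fun _ => 1 / 2) lb p * ∑ σ, ∑ σ', L p σ * L p σ' * 1) +
        4 * (Wq (fun _ => 1 / 2) lb p * ∑ σ, L p σ) - 17 / 8 * Wq (fun _ => 1 / 2) lb p ≤
        Wq (fun _ => 1 / 2) lb p * ∑ σ, L p σ * G (e ∘ p ∘ e.symm) := by
      intro p _
      simp only [mul_one, ← Finset.sum_mul_sum, ← Finset.sum_mul]
      have hw := W0_nonneg lb p
      generalize Wq (fun _ => 1 / 2) lb p = w at hw
      generalize ∑ σ, L p σ = y
      simp only [G]
      split_ifs
      · nlinarith [mul_nonneg hw (sq_nonneg (y - 3 / 4))]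
      · nlinarith [mul_nonneg hw (sq_nonneg (y - 1))]
    have h3 := Finset.sum_le_sum h2
    simp only [Finset.sum_sub_distrib, Finset.sum_add_distrib, ← Finset.mul_sum, e2] at h3
    have h4 := abs_le.1 (Real.abs_exp_sub_one_sub_id_le (x := 1 / 64) (by norm_num [abs_of_pos]))
    rw [e1]
    unfold mass at hm
    unfold Mom at hM
    linarith [h4.2]
  refine (mul_le_mul_of_nonneg_left (e3.trans hd) (by positivity)).trans ?_
  rw [prob, Finset.mul_sum]
  refine Finset.sum_le_sum fun p _ => ?_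
  simp only [G]
  split_ifs
  · rw [mul_one, ← card_time_lt k hk, ← Finset.prod_const, Finset.prod_filter,
      ← Finset.prod_mul_distrib]
    refine Finset.prod_le_prod (fun v _ => ?_) fun v _ => ?_
    · split_ifs
      · exact mul_nonneg (by positivity) (stepProb_nonneg (by norm_num) (by norm_num) _ _)
      · exact mul_nonneg (by positivity) (stepProb_nonneg h0 (by linarith) _ _)
    · split_ifs
      · unfold stepProb
        split_ifs
        · linarith
        · simp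
        · rw [← mul_div_assoc]; gcongr; linarith
        · rw [← mul_div_assoc]; gcongr; linarith
        · simp
      · rw [one_mul]
  · simp

end Pool.Agent.MP_ff2ec0_pr

end MrgPart0

-- ======== part 1: formerly Pool.Agent.MP_ff2ec0_pr.Numer
section MrgPart1

/-!
Propagation of the moment bounds along one block.
-/

namespace Pool.Agent.MP_ff2ec0_pr

open Finset Function Classical

variable {V : Type} [Fintype V] [DecidableEq V]

lemma tail_step {qf : ℕ → ℝ} {t : ℕ} (ht : 0 < t) {lb : V → ℕ × Bool}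
    {L : (V → V) → (V → Bool) → ℝ} (h : Stage qf t lb L) {θ : ℝ} (hθ : |θ| ≤ 1) (D ℓ : ℕ)
    (h' : Stage qf (t + ℓ) (lbS t ℓ lb) (LS D θ L)) {p κ C ε : ℝ} (hp0 : 0 ≤ p) (hp : p ≤ 2)
    (hκ0 : 0 < κ) (hκ : p * θ ^ 2 ≤ 1 - κ) (hC : 18 ≤ C * κ) (hx : (ℓ : ℝ) / t ≤ κ / 2)
    (hG : (2 * ℓ + 1) ^ 2 * Real.exp (ℓ * (4590 * ℓ / t)) ≤ Real.exp (ε * ℓ))
    (h1 : Mom (lbS t ℓ lb) (LS D θ L) (fun _ => 1) ≤ Real.exp (ε * (t + ℓ)))
    (ih : ∀ u μ : ℝ, 0 ≤ u → |μ| ≤ Real.exp (-u) →
      Mom lb L (fun d => Real.exp (μ * d)) ≤ Real.exp ((ε + C * Real.exp (-(p * u))) * t))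
    (u μ : ℝ) (hu : 0 ≤ u) (hμ : |μ| ≤ Real.exp (-u)) :
    Mom (lbS t ℓ lb) (LS D θ L) (fun d => Real.exp (μ * d)) ≤
      Real.exp ((ε + C * Real.exp (-(p * u))) * (t + ℓ)) := by
  have ht' : (0 : ℝ) < t := by exact_mod_cast ht
  have hz0 : 0 ≤ θ ^ 2 := sq_nonneg θ
  have hz : θ ^ 2 ≤ 1 := by rwa [sq_le_one_iff_abs_le_one]
  have hκ1 : κ ≤ 1 := by nlinarith
  have hC0 : 18 ≤ C := by nlinarith
  have hl0 : (0 : ℝ) ≤ ℓ := Nat.cast_nonneg _
  set x : ℝ := ℓ / t with hxdef
  have hx0 : 0 ≤ x := by positivity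
  have hxt : (ℓ : ℝ) = x * t := by rw [hxdef]; field_simp
  set w := Real.exp (-(p * u)) with hw
  have hw0 : 0 < w := Real.exp_pos _
  by_cases hu1 : 1 ≤ u
  · set A := ab (θ ^ 2) t ℓ 0 with hA
    have hA1 : 1 ≤ A := one_le_ab hz0 ht' _ _
    have hA2 : A ≤ Real.exp (θ ^ 2 * x) := ab_le_exp hz0 ht' ℓ
    have hzx : θ ^ 2 * x ≤ 1 / 2 := by nlinarith
    have hμA : |μ * A| ≤ Real.exp (-(u - θ ^ 2 * x)) := by
      rw [abs_mul, abs_of_nonneg (by linarith : 0 ≤ A), neg_sub, sub_eq_neg_add, Real.exp_add]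
      exact mul_le_mul hμ hA2 (by linarith) (Real.exp_pos _).le
    have hμA1 : |μ| * A ≤ 1 := by
      rw [abs_mul, abs_of_nonneg (by linarith : 0 ≤ A)] at hμA
      exact hμA.trans (Real.exp_le_one_iff.2 (by linarith))
    have i1 := ih (u - θ ^ 2 * x) (μ * A) (by linarith) hμA
    have i2 : (μ * A) ^ 2 ≤ 3 * w := by
      have a1 : (μ * A) ^ 2 ≤ Real.exp (-(u - θ ^ 2 * x)) ^ 2 := by
        rw [← sq_abs]; exact pow_le_pow_left₀ (abs_nonneg _) hμA 2
      have a2 : Real.exp (-(u - θ ^ 2 * x)) ^ 2 ≤ Real.exp 1 * w := by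
        rw [hw, ← Real.exp_nat_mul, ← Real.exp_add, Real.exp_le_exp]
        push_cast; nlinarith
      nlinarith [Real.exp_one_lt_three]
    have i3 : Real.exp (-(p * (u - θ ^ 2 * x))) ≤ w * (1 + x - κ * x / 2) := by
      rw [show -(p * (u - θ ^ 2 * x)) = -(p * u) + p * θ ^ 2 * x by ring, Real.exp_add]
      refine mul_le_mul_of_nonneg_left ?_ hw0.le
      have b0 : 0 ≤ p * θ ^ 2 := by positivity
      have b1 : p * θ ^ 2 * x ≤ (1 - κ) * x := mul_le_mul_of_nonneg_right hκ hx0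
      have b2 : 0 ≤ p * θ ^ 2 * x := by positivity
      have b3 : p * θ ^ 2 * x ≤ x := by nlinarith
      have := (abs_le.1 (Real.abs_exp_sub_one_sub_id_le (x := p * θ ^ 2 * x)
        (by rw [abs_of_nonneg b2]; linarith))).2
      nlinarith
    rw [h.mom_step ht]
    refine (Mom_mono h (g := fun d => ((2 * ℓ + 1) ^ 2 * Real.exp (ℓ * (4590 * ℓ / t)) *
      Real.exp (ℓ * (2 * (μ * A) ^ 2))) * Real.exp (μ * A * d)) fun d hd => ?_).trans ?_
    · refine (Bk_crude ht' hθ hd hμA1).trans (le_of_eq ?_)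
      simp only [mul_assoc ((2 * (ℓ : ℝ) + 1) ^ 2), ← Real.exp_add]
      congr 2; ring
    · rw [Mom_mul]
      refine (mul_le_mul (mul_le_mul_of_nonneg_right hG (Real.exp_pos _).le) i1 ?_
        (by positivity)).trans ?_
      · exact Finset.sum_nonneg fun p _ => mul_nonneg (W0_nonneg _ _) (Finset.sum_nonneg fun σ _ =>
          Finset.sum_nonneg fun σ' _ => mul_nonneg (mul_nonneg (h.nonneg _ _) (h.nonneg _ _))
            (Real.exp_pos _).le)
      · rw [← Real.exp_add, ← Real.exp_add, Real.exp_le_exp]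
        have c1 := mul_le_mul_of_nonneg_left i3 (show 0 ≤ C * t by positivity)
        have c2 := mul_le_mul_of_nonneg_left i2 hl0
        have c3 : 0 ≤ w * (x * t) * (C * κ - 18) :=
          mul_nonneg (by positivity) (by linarith)
        have c4 : 0 ≤ w * (x * t) := by positivity
        rw [hxt] at c2 ⊢
        nlinarith
  · have hμ1 : |μ| ≤ 1 := hμ.trans (Real.exp_le_one_iff.2 (by linarith))
    refine (Mom_mono h' (g := fun _ => Real.exp (2 * (t + ℓ)) * 1) fun d hd => ?_).trans ?_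
    · rw [mul_one, Real.exp_le_exp]
      have := le_abs_self (μ * d)
      rw [abs_mul] at this
      push_cast at hd
      nlinarith [abs_nonneg d, abs_nonneg μ]
    · rw [Mom_mul]
      refine (mul_le_mul_of_nonneg_left h1 (Real.exp_pos _).le).trans ?_
      rw [← Real.exp_add, Real.exp_le_exp]
      have c1 : 1 / 9 ≤ w := by
        have a1 : Real.exp (-2) ≤ w := Real.exp_le_exp.2 (by nlinarith)
        have a2 : Real.exp (-2) * (Real.exp 1 * Real.exp 1) = 1 := by
          rw [← Real.exp_add, ← Real.exp_add]; norm_num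
        have a3 : Real.exp 1 * Real.exp 1 ≤ 9 := by
          nlinarith [Real.exp_one_lt_three, Real.exp_pos 1]
        nlinarith [Real.exp_pos (-2)]
      have c2 : 2 ≤ C * w := by nlinarith
      nlinarith

lemma one_add_sq_le_cosh (y : ℝ) : 1 + y ^ 2 / 2 ≤ Real.cosh y := by
  have h1 : Real.cosh y = 1 + 2 * Real.sinh (y / 2) ^ 2 := by
    have := Real.cosh_two_mul (y / 2)
    rw [show 2 * (y / 2) = y by ring, Real.cosh_sq'] at this
    linarith
  have h2 : (y / 2) ^ 2 ≤ Real.sinh (y / 2) ^ 2 := by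
    rw [sq_le_sq, Real.abs_sinh]
    exact Real.self_le_sinh_iff.2 (abs_nonneg _)
  nlinarith

lemma cosh_mul_le {a b c : ℝ} (ha : 0 ≤ a) (hb : 0 ≤ b) (hc : a + b ≤ c) (d : ℝ) :
    Real.cosh (a * d) * Real.cosh (b * d) ≤ Real.cosh (c * d) := by
  have h1 : Real.cosh ((a + b) * d) ≤ Real.cosh (c * d) := by
    rw [Real.cosh_le_cosh, abs_mul, abs_mul, abs_of_nonneg (by linarith : 0 ≤ a + b),
      abs_of_nonneg (by linarith : 0 ≤ c)]
    exact mul_le_mul_of_nonneg_right hc (abs_nonneg _)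
  rw [add_mul, Real.cosh_add] at h1
  have h2 : 0 ≤ Real.sinh (a * d) * Real.sinh (b * d) := by
    rcases le_total 0 d with hd | hd
    · exact mul_nonneg (Real.sinh_nonneg_iff.2 (by positivity))
        (Real.sinh_nonneg_iff.2 (by positivity))
    · exact mul_nonneg_of_nonpos_of_nonpos (Real.sinh_nonpos_iff.2 (by nlinarith))
        (Real.sinh_nonpos_iff.2 (by nlinarith))
  linarith

lemma Mom_cosh (lb : V → ℕ × Bool) (L : (V → V) → (V → Bool) → ℝ) (a : ℝ) :
    Mom lb L (fun d => Real.cosh (a * d)) = 1 / 2 * (Mom lb L (fun d => Real.exp (a * d)) +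
      Mom lb L fun d => Real.exp (-a * d)) := by
  rw [← Mom_add, ← Mom_mul]
  congr 1
  funext d
  rw [Real.cosh_eq, neg_mul]; ring

lemma cosh_step {qf : ℕ → ℝ} {t : ℕ} (ht : 0 < t) {lb : V → ℕ × Bool}
    {L : (V → V) → (V → Bool) → ℝ} (h : Stage qf t lb L) {θ : ℝ} (hθ : |θ| ≤ 1) (D ℓ : ℕ)
    {lam lam' δ μ T : ℝ} (hl' : 0 ≤ lam') (hδ : 0 ≤ δ) (hl : lam ≤ 1)
    (hgap : lam' * Real.exp (θ ^ 2 * (ℓ / t)) + δ ≤ lam) (hδt : 8 * cXi D ^ 2 ≤ δ ^ 2 * t ^ 2)
    (hD : cXi D * (8 * D * lam') ≤ 1 / 4) (hμ : 0 ≤ μ)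
    (hT : Mom lb L (fun d => Real.exp (μ * d)) ≤ T)
    (hT' : Mom lb L (fun d => Real.exp (-μ * d)) ≤ T) :
    Mom (lbS t ℓ lb) (LS D θ L) (fun d => Real.cosh (lam' * d)) ≤
      Real.exp (256 * cXi D ^ 2 * D ^ 2 * lam' ^ 2 + 2 * ℓ * lam ^ 2) *
        Mom lb L (fun d => Real.cosh (lam * d)) +
      (2 * ℓ + 1) ^ 2 * Real.exp (ℓ * (4590 * ℓ / t)) *
        Real.exp (2 * ℓ * lam ^ 2 + 2 * lam * t - μ * (t / (4 * cXi D))) * (2 * T) := by
  have ht' : (0 : ℝ) < t := by exact_mod_cast ht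
  have hz0 : 0 ≤ θ ^ 2 := sq_nonneg θ
  have hz : θ ^ 2 ≤ 1 := by rwa [sq_le_one_iff_abs_le_one]
  have hl0 : (0 : ℝ) ≤ ℓ := Nat.cast_nonneg _
  have hc1 := one_le_cXi D
  set c := cXi D with hc
  set A := ab (θ ^ 2) t ℓ 0 with hA
  have hA1 : 1 ≤ A := one_le_ab hz0 ht' _ _
  have hA2 : lam' * A + δ ≤ lam :=
    le_trans (by gcongr; exact ab_le_exp hz0 ht' ℓ) hgap
  have hA0 : 0 ≤ lam' * A := by positivity
  have hA3 : (lam' * A) ^ 2 ≤ lam ^ 2 := pow_le_pow_left₀ hA0 (by linarith) 2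
  have hp : |lam'| * A ≤ 1 := by rw [abs_of_nonneg hl']; linarith
  have hn : |-lam'| * A ≤ 1 := by rwa [abs_neg]
  set E1 := Real.exp (256 * c ^ 2 * D ^ 2 * lam' ^ 2 + 2 * ℓ * lam ^ 2) with hE1
  set E2 := (2 * ℓ + 1) ^ 2 * Real.exp (ℓ * (4590 * ℓ / t)) *
    Real.exp (2 * ℓ * lam ^ 2 + 2 * lam * t - μ * (t / (4 * c))) with hE2
  have hE20 : 0 ≤ E2 := by positivity
  rw [Mom_cosh, h.mom_step ht, h.mom_step ht, ← Mom_add, ← Mom_mul]
  refine (Mom_mono h (g := fun d => E1 * Real.cosh (lam * d) +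
    E2 * (Real.exp (μ * d) + Real.exp (-μ * d))) fun d hd => ?_).trans ?_
  · by_cases hs : |d| ≤ t / (4 * c)
    · have ha : |θ ^ 2 * d / (2 * t)| ≤ |d| / (2 * t) := by
        rw [abs_div, abs_mul, abs_of_nonneg hz0, abs_of_pos (by positivity : (0 : ℝ) < 2 * t)]
        gcongr
        nlinarith [abs_nonneg d]
      have ha2 : c * (2 * |θ ^ 2 * d / (2 * t)|) ≤ 1 / 4 := by
        calc _ ≤ c * (2 * (t / (4 * c) / (2 * t))) := by
              gcongr; exact ha.trans (by gcongr)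
          _ = _ := by field_simp
      have hb : c * (2 * |θ ^ 2 * d / (2 * t)| + 8 * D * |lam'|) ≤ 1 / 2 := by
        rw [abs_of_nonneg hl', mul_add]; linarith
      have f1 := Bk_fine (D := D) ht' hθ hd hp hb
      have f2 := Bk_fine (D := D) ht' hθ hd hn (by rwa [abs_neg])
      rw [abs_neg] at f2
      rw [← hA, ← hc, abs_of_nonneg hl'] at f1 f2
      have g1 : 1 + 2 * (c * (2 * |θ ^ 2 * d / (2 * t)| + 8 * D * lam')) ^ 2 ≤
          Real.cosh (δ * d) * Real.exp (256 * c ^ 2 * D ^ 2 * lam' ^ 2) := by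
        have a1 := one_add_sq_le_cosh (δ * d)
        have a2 := Real.add_one_le_exp (256 * c ^ 2 * D ^ 2 * lam' ^ 2)
        have a3 : 16 * c ^ 2 * |θ ^ 2 * d / (2 * t)| ^ 2 ≤ (δ * d) ^ 2 / 2 := by
          calc _ ≤ 16 * c ^ 2 * (|d| / (2 * t)) ^ 2 := by gcongr
            _ = 8 * c ^ 2 * (d ^ 2 / (2 * t ^ 2)) := by rw [div_pow, sq_abs]; field_simp; ring
            _ ≤ δ ^ 2 * t ^ 2 * (d ^ 2 / (2 * t ^ 2)) := by gcongr
            _ = _ := by field_simp
        generalize |θ ^ 2 * d / (2 * t)| = α at a3 ⊢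
        have a4 : 0 ≤ 256 * c ^ 2 * D ^ 2 * lam' ^ 2 := by positivity
        have a5 : 0 ≤ (δ * d) ^ 2 / 2 := by positivity
        calc _ ≤ (1 + (δ * d) ^ 2 / 2) * (256 * c ^ 2 * D ^ 2 * lam' ^ 2 + 1) := by
              nlinarith [sq_nonneg (c * (2 * α - 8 * D * lam')), mul_nonneg a4 a5]
          _ ≤ _ := mul_le_mul a1 a2 (by positivity) (Real.cosh_pos _).le
      have g2 := cosh_mul_le hδ hA0 (by linarith : δ + lam' * A ≤ lam) d
      have g3 : 1 / 2 * (Real.exp (lam' * A * d + ℓ * (2 * (lam' * A) ^ 2)) +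
          Real.exp (-lam' * A * d + ℓ * (2 * (-lam' * A) ^ 2))) ≤
          Real.cosh (lam' * A * d) * Real.exp (2 * ℓ * lam ^ 2) := by
        have a1 : Real.exp (ℓ * (2 * (lam' * A) ^ 2)) ≤ Real.exp (2 * ℓ * lam ^ 2) :=
          Real.exp_le_exp.2 (by nlinarith)
        rw [Real.exp_add, Real.exp_add, Real.cosh_eq, show (-lam' * A) ^ 2 = (lam' * A) ^ 2 by ring,
          show -lam' * A * d = -(lam' * A * d) by ring]
        nlinarith [Real.exp_pos (lam' * A * d), Real.exp_pos (-(lam' * A * d))]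
      have g4 : 0 ≤ E2 * (Real.exp (μ * d) + Real.exp (-μ * d)) := by positivity
      calc _ ≤ (1 + 2 * (c * (2 * |θ ^ 2 * d / (2 * t)| + 8 * D * lam')) ^ 2) *
            (1 / 2 * (Real.exp (lam' * A * d + ℓ * (2 * (lam' * A) ^ 2)) +
              Real.exp (-lam' * A * d + ℓ * (2 * (-lam' * A) ^ 2)))) := by linarith
        _ ≤ (Real.cosh (δ * d) * Real.exp (256 * c ^ 2 * D ^ 2 * lam' ^ 2)) *
            (Real.cosh (lam' * A * d) * Real.exp (2 * ℓ * lam ^ 2)) :=
            mul_le_mul g1 g3 (by positivity) (by positivity)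
        _ = E1 * (Real.cosh (δ * d) * Real.cosh (lam' * A * d)) := by
            rw [hE1, Real.exp_add]; ring
        _ ≤ E1 * Real.cosh (lam * d) := mul_le_mul_of_nonneg_left g2 (by positivity)
        _ ≤ _ := by linarith
    · push Not at hs
      have f1 := Bk_crude (D := D) ht' hθ hd hp
      have f2 := Bk_crude (D := D) ht' hθ hd hn
      rw [← hA] at f1 f2
      have g0 : Real.exp (μ * |d|) ≤ Real.exp (μ * d) + Real.exp (-μ * d) := by
        rcases abs_choice d with h1 | h1 <;> rw [h1]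
        · linarith [Real.exp_pos (-μ * d)]
        · rw [mul_neg, neg_mul]; linarith [Real.exp_pos (μ * d)]
      have g1 : ∀ y, |y| = lam' * A → (2 * ℓ + 1) ^ 2 *
          Real.exp (y * d + ℓ * (2 * y ^ 2 + 4590 * ℓ / t)) ≤ E2 * Real.exp (μ * |d|) := by
        intro y hy
        rw [hE2, mul_assoc, mul_assoc, ← Real.exp_add, ← Real.exp_add]
        refine mul_le_mul_of_nonneg_left (Real.exp_le_exp.2 ?_) (by positivity)
        have a1 : y ^ 2 ≤ lam ^ 2 := by rw [← sq_abs, hy]; exact hA3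
        have a2 : y * d ≤ lam * (2 * t) := by
          refine (le_abs_self _).trans ?_
          rw [abs_mul, hy]
          exact mul_le_mul (by linarith) hd (abs_nonneg _) (by linarith)
        have a3 := mul_le_mul_of_nonneg_left hs.le hμ
        nlinarith
      have g2 := g1 (lam' * A) (abs_of_nonneg hA0)
      have g3 := g1 (-lam' * A) (by rw [neg_mul, abs_neg, abs_of_nonneg hA0])
      have g4 := mul_le_mul_of_nonneg_left g0 hE20
      have g5 : 0 ≤ E1 * Real.cosh (lam * d) := by positivity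
      linarith
  · rw [Mom_add, Mom_mul, Mom_mul, Mom_add]
    have := mul_le_mul_of_nonneg_left (add_le_add hT hT') hE20
    linarith

end Pool.Agent.MP_ff2ec0_pr

end MrgPart1

-- ======== part 2: formerly Pool.Agent.MP_ff2ec0_pr.PartA2
section MrgPart2

/-!
Anti-concentration of subtree sizes.
-/

namespace Pool.Agent.MP_ff2ec0_pr

open Finset Function Classical

variable {n : ℕ}

lemma card_time_ge (t : ℕ) (ht : t ≤ n) :
    (univ.filter fun c : Fin n × Bool => t ≤ c.1.val).card = 2 * (n - t) := by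
  have h1 := card_time_lt t ht
  have h2 := Finset.card_filter_add_card_filter_not (s := (univ : Finset (Fin n × Bool)))
    (fun c : Fin n × Bool => c.1.val < t)
  simp only [not_lt, card_univ, Fintype.card_prod, Fintype.card_fin, Fintype.card_bool] at h2
  omega

lemma cnt_final (p : Fin n × Bool → Fin n × Bool) (v : Fin n × Bool) (t : ℕ) (hv : v.1.val < t)
    (hold : ∀ u : Fin n × Bool, t ≤ u.1.val → (p u).1.val < t) :
    cnt p v n = cnt p v t +
      ∑ u ∈ univ.filter (fun c : Fin n × Bool => t ≤ c.1.val), ind p v t (p u) := by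
  unfold cnt
  rw [Finset.sum_filter, ← Finset.sum_add_distrib]
  refine Finset.sum_congr rfl fun c _ => ?_
  by_cases hc : t ≤ c.1.val
  · have h1 : c ≠ v := by rintro rfl; omega
    have h2 := hold c hc
    have h3 : (p c).1 < c.1 := by rw [Fin.lt_def]; omega
    have h4 : ¬ c.1.val < t := by omega
    unfold ind
    rw [desc_iff (u := c)]
    simp [h1, h2, h3, h4, hc]
  · have h4 : c.1.val < t := by omega
    unfold ind
    simp [hc, h4]

lemma stepProb_ge {q : ℝ} (h0 : 0 ≤ q) (h1 : q ≤ 1 / 2) (u c : Fin n × Bool) (hc : c.1 < u.1) :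
    q / n ≤ stepProb q u c := by
  have hu : u.1.val ≠ 0 := by rw [Fin.lt_def] at hc; omega
  have hu0 : (0 : ℝ) < u.1.val := by exact_mod_cast Nat.pos_of_ne_zero hu
  have hun : (u.1.val : ℝ) ≤ n := by exact_mod_cast u.1.isLt.le
  unfold stepProb
  rw [if_neg hu, if_pos hc]
  apply div_le_div₀ _ _ hu0 hun
  · split_ifs <;> linarith
  · split_ifs <;> linarith

lemma stepProb_le {q : ℝ} (h0 : 0 ≤ q) (h1 : q ≤ 1) (u c : Fin n × Bool) (t : ℕ) (ht : 0 < t)
    (hu : t ≤ u.1.val) : stepProb q u c ≤ 1 / t := by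
  have ht0 : (0 : ℝ) < t := by exact_mod_cast ht
  have hut : (t : ℝ) ≤ u.1.val := by exact_mod_cast hu
  unfold stepProb
  rw [if_neg (by omega)]
  split_ifs
  · exact div_le_div₀ (by norm_num) (by linarith) ht0 hut
  · exact div_le_div₀ (by norm_num) (by linarith) ht0 hut
  · positivity

lemma factor_bound {q : ℝ} (h0 : 0 ≤ q) (h1 : q ≤ 1 / 2) (p : Fin n × Bool → Fin n × Bool)
    (v u : Fin n × Bool) (t ℓ : ℕ) (hn : n = t + ℓ) (hℓ : 4 * ℓ ≤ n) (hu : t ≤ u.1.val)
    (hc1 : (t : ℝ) - ℓ ≤ cnt p v t) (hc2 : cnt p v t ≤ t + ℓ) (φ : ℝ) :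
    ‖∑ c, (stepProb q u c : ℂ) *
      (if c.1.val < t then Complex.exp (Complex.I * (φ * ind p v t c : ℝ)) else 0)‖ ≤
      1 - q ^ 2 / 4 * (1 - Real.cos φ) := by
  set B : ℝ := ∑ c, stepProb q u c * ind p v t c with hB
  set A : ℝ := ∑ c, stepProb q u c * ((if c.1.val < t then 1 else 0) - ind p v t c) with hA
  have hn0 : (0 : ℝ) < n := by exact_mod_cast u.1.pos
  have hsum : ∑ c, (stepProb q u c : ℂ) *
      (if c.1.val < t then Complex.exp (Complex.I * (φ * ind p v t c : ℝ)) else 0) =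
      A + B * Complex.exp (Complex.I * φ) := by
    rw [hA, hB]
    push_cast
    rw [Finset.sum_mul, ← Finset.sum_add_distrib]
    refine Finset.sum_congr rfl fun c _ => ?_
    unfold ind
    by_cases h : c.1.val < t
    · by_cases h' : Desc p v c <;> simp [h, h']
    · simp [h]
  have hold : ∀ c : Fin n × Bool, c.1.val < t → q / n ≤ stepProb q u c := fun c hc =>
    stepProb_ge h0 h1 u c (by rw [Fin.lt_def]; omega)
  have hB1 : q / n * cnt p v t ≤ B := by
    rw [cnt, Finset.mul_sum]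
    refine Finset.sum_le_sum fun c _ => ?_
    by_cases h : c.1.val < t
    · exact mul_le_mul_of_nonneg_right (hold c h) (ind_nonneg _ _ _ _)
    · simp [ind, h]
  have hA1 : q / n * (2 * t - cnt p v t) ≤ A := by
    have : (2 * t : ℝ) = ∑ c : Fin n × Bool, (if c.1.val < t then (1 : ℝ) else 0) := by
      rw [← Finset.sum_filter, Finset.sum_const, card_time_lt t (by omega)]
      simp
    rw [this, cnt, ← Finset.sum_sub_distrib, Finset.mul_sum]
    refine Finset.sum_le_sum fun c _ => ?_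
    by_cases h : c.1.val < t
    · apply mul_le_mul_of_nonneg_right (hold c h)
      have := ind_le_one p v t c
      simp only [h, if_true]; linarith
    · simp [ind, h]
  have hAB : A + B ≤ 1 := by
    rw [hA, hB, ← Finset.sum_add_distrib]
    refine le_trans (Finset.sum_le_sum fun c _ => ?_) (sum_stepProb q u).le
    have := stepProb_nonneg h0 (by linarith) u c
    split_ifs <;> nlinarith
  have htn : (n : ℝ) / 2 ≤ t - ℓ := by
    have e1 : (n : ℝ) = t + ℓ := by exact_mod_cast hn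
    have e2 : 4 * (ℓ : ℝ) ≤ n := by exact_mod_cast hℓ
    linarith
  have hq : q / n * (n / 2) = q / 2 := by field_simp
  have hqn : 0 ≤ q / n := by positivity
  have hB2 : q / 2 ≤ B := by
    rw [← hq]; exact le_trans (mul_le_mul_of_nonneg_left (by linarith) hqn) hB1
  have hA2 : q / 2 ≤ A := by
    rw [← hq]; exact le_trans (mul_le_mul_of_nonneg_left (by linarith) hqn) hA1
  have hcos := Real.cos_le_one φ
  have hcos' := Real.neg_one_le_cos φ
  have hsq : ‖(A : ℂ) + B * Complex.exp (Complex.I * φ)‖ ^ 2 =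
      (A + B) ^ 2 - 2 * (A * B) * (1 - Real.cos φ) := by
    rw [Complex.sq_norm, Complex.normSq_apply, mul_comm Complex.I]
    simp only [Complex.add_re, Complex.ofReal_re, Complex.mul_re, Complex.ofReal_im,
      Complex.exp_ofReal_mul_I_re, Complex.exp_ofReal_mul_I_im, Complex.add_im, Complex.mul_im]
    linear_combination B ^ 2 * Real.sin_sq_add_cos_sq φ
  rw [hsum]
  apply le_of_sq_le_sq _ (by nlinarith)
  rw [hsq]
  have h3 : q ^ 2 / 4 ≤ A * B := by nlinarith
  have h4 : (A + B) ^ 2 ≤ 1 := by nlinarith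
  have h5 : q ^ 2 / 4 * (1 - Real.cos φ) ≤ A * B * (1 - Real.cos φ) :=
    mul_le_mul_of_nonneg_right h3 (by linarith)
  nlinarith [sq_nonneg (q ^ 2 / 4 * (1 - Real.cos φ))]

lemma anti_conc {q : ℝ} (h0 : 0 ≤ q) (h1 : q ≤ 1 / 2) (v : Fin n × Bool) (t ℓ N : ℕ)
    (hn : n = t + ℓ) (hℓ : 4 * ℓ ≤ n) (hv : v.1.val < t) (hN : 0 < N) :
    ∑ p : Fin n × Bool → Fin n × Bool, (∏ u, stepProb q u (p u)) *
      (if cnt p v n = n then 1 else 0) ≤
      4 * ℓ ^ 2 / t + 1 / N + (1 - q ^ 2 / 4 * (1 - Real.cos (1 / N))) ^ ℓ := by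
  have hw : ∀ p : Fin n × Bool → Fin n × Bool, 0 ≤ ∏ u, stepProb q u (p u) := fun p =>
    Finset.prod_nonneg fun u _ => stepProb_nonneg h0 (by linarith) _ _
  have hw1 := sum_prod_eq_one (R := ℝ) _ (sum_stepProb (n := n) q)
  set T := univ.filter (fun c : Fin n × Bool => t ≤ c.1.val) with hT
  have hTcard : T.card = 2 * ℓ := by rw [hT, card_time_ge t (by omega)]; omega
  have hN0 : (0 : ℝ) < N := by exact_mod_cast hN
  let G : ℝ → (Fin n × Bool → Fin n × Bool) → ℂ := fun φ p =>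
    if (t : ℝ) - ℓ ≤ cnt p v t ∧ cnt p v t ≤ t + ℓ then
      Complex.exp (Complex.I * (φ * (cnt p v t - n) : ℝ)) else 0
  let h : ℝ → (Fin n × Bool → Fin n × Bool) → Fin n × Bool → ℂ := fun φ p c =>
    if c.1.val < t then Complex.exp (Complex.I * (φ * ind p v t c : ℝ)) else 0
  let y : ℝ → (Fin n × Bool → Fin n × Bool) → ℂ := fun φ p => G φ p * ∏ u ∈ T, h φ p (p u)
  have hmul : ∀ a b : ℝ, Complex.exp (Complex.I * (a : ℝ)) *
      (starRingEnd ℂ) (Complex.exp (Complex.I * (b : ℝ))) =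
      Complex.exp (Complex.I * (a - b : ℝ)) := by
    intro a b
    rw [← Complex.exp_conj, ← Complex.exp_add]
    congr 1
    simp only [map_mul, Complex.conj_I, Complex.conj_ofReal]
    push_cast; ring
  have hy : ∀ φ ψ p, y φ p * (starRingEnd ℂ) (y ψ p) = y (φ - ψ) p := by
    intro φ ψ p
    simp only [y, map_mul, map_prod]
    rw [mul_mul_mul_comm, ← Finset.prod_mul_distrib]
    congr 1
    · simp only [G]
      split_ifs
      · rw [hmul]; congr 3; ring
      · simp
    · refine Finset.prod_congr rfl fun u _ => ?_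
      simp only [h]
      split_ifs
      · rw [hmul]; congr 3; ring
      · simp
  set ρ := 1 - q ^ 2 / 4 * (1 - Real.cos (1 / N)) with hρ
  have hρ0 : 0 ≤ ρ := by
    have := Real.neg_one_le_cos (1 / N : ℝ)
    have := Real.cos_le_one (1 / N : ℝ)
    nlinarith
  have hρ1 : ρ ≤ 1 := by
    have := Real.cos_le_one (1 / N : ℝ)
    nlinarith
  have hE : ∀ φ : ℝ, ∀ b : ℝ, 0 ≤ b → 1 - q ^ 2 / 4 * (1 - Real.cos φ) ≤ b →
      ‖∑ p : Fin n × Bool → Fin n × Bool, (∏ u, (stepProb q u (p u) : ℂ)) * y φ p‖ ≤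
        b ^ (2 * ℓ) := by
    intro φ b hb0 hb
    have := prod_resample (R := ℂ) (fun u c => (stepProb q u c : ℂ))
      (fun u => by exact_mod_cast sum_stepProb q u) T (fun _ p c => h φ p c)
      (by
        intro _ p u hu c
        simp only [h, ind_update (mem_filter.1 hu).2]) T subset_rfl (G φ)
      (by
        intro p u hu c
        simp only [G, cnt_update (mem_filter.1 hu).2])
    simp only [y]
    rw [this]
    refine le_trans (norm_sum_le _ _) ?_
    calc _ ≤ ∑ p : Fin n × Bool → Fin n × Bool, (∏ u, stepProb q u (p u)) * b ^ (2 * ℓ) := by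
          refine Finset.sum_le_sum fun p _ => ?_
          rw [norm_mul, ← Complex.ofReal_prod, Complex.norm_real, Real.norm_of_nonneg (hw p)]
          apply mul_le_mul_of_nonneg_left _ (hw p)
          simp only [G]
          split_ifs with hc
          · rw [norm_mul, mul_comm Complex.I, Complex.norm_exp_ofReal_mul_I, one_mul, norm_prod,
              ← hTcard, ← Finset.prod_const]
            refine Finset.prod_le_prod (fun _ _ => norm_nonneg _) fun u hu => ?_
            exact le_trans (factor_bound h0 h1 p v u t ℓ hn hℓ (mem_filter.1 hu).2 hc.1 hc.2 φ) hb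
          · simp only [zero_mul, norm_zero]; positivity
      _ = b ^ (2 * ℓ) := by rw [← Finset.sum_mul, hw1, one_mul]
  -- pointwise bound
  have hpt : ∀ p : Fin n × Bool → Fin n × Bool, (if cnt p v n = n then (1 : ℝ) else 0) ≤
      (∑ u ∈ T, if t ≤ (p u).1.val then (1 : ℝ) else 0) +
        ‖∑ a ∈ range N, y (a / N) p‖ ^ 2 / N ^ 2 := by
    intro p
    have hs0 : 0 ≤ ∑ u ∈ T, if t ≤ (p u).1.val then (1 : ℝ) else 0 :=
      Finset.sum_nonneg fun u _ => by split_ifs <;> norm_num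
    have hs1 : 0 ≤ ‖∑ a ∈ range N, y (a / N) p‖ ^ 2 / N ^ 2 := by positivity
    split_ifs with hc
    swap
    · linarith
    by_cases hold : ∀ u : Fin n × Bool, t ≤ u.1.val → (p u).1.val < t
    · have e1 := cnt_final p v t hv hold
      rw [← hT] at e1
      have e2 : 0 ≤ ∑ u ∈ T, ind p v t (p u) := Finset.sum_nonneg fun u _ => ind_nonneg _ _ _ _
      have e3 : ∑ u ∈ T, ind p v t (p u) ≤ 2 * ℓ := by
        have := Finset.sum_le_card_nsmul T (fun u => ind p v t (p u)) 1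
          (fun u _ => ind_le_one _ _ _ _)
        rw [hTcard] at this
        simpa using this
      have e4 : (n : ℝ) = t + ℓ := by exact_mod_cast hn
      have e5 : ∀ φ, y φ p = 1 := by
        intro φ
        simp only [y, G]
        rw [if_pos ⟨by linarith, by linarith⟩]
        have : ∏ u ∈ T, h φ p (p u) =
            ∏ u ∈ T, Complex.exp (Complex.I * (φ * ind p v t (p u) : ℝ)) :=
          Finset.prod_congr rfl fun u hu => by
            simp only [h, if_pos (hold u (mem_filter.1 hu).2)]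
        rw [this, ← Complex.exp_sum, ← Complex.exp_add, ← Finset.mul_sum, ← mul_add,
          ← Complex.ofReal_sum, ← Complex.ofReal_add, ← Finset.mul_sum, ← mul_add]
        have : cnt p v t - n + ∑ u ∈ T, ind p v t (p u) = 0 := by linarith
        rw [this]; simp
      simp only [e5, Finset.sum_const, card_range, nsmul_eq_mul, mul_one, Complex.norm_natCast]
      rw [div_self (by positivity)]
      linarith
    · push Not at hold
      obtain ⟨u, hu1, hu2⟩ := hold
      have : (1 : ℝ) ≤ ∑ u ∈ T, if t ≤ (p u).1.val then (1 : ℝ) else 0 := by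
        have := Finset.single_le_sum (s := T)
          (f := fun u => if t ≤ (p u).1.val then (1 : ℝ) else 0)
          (fun u _ => by split_ifs <;> norm_num) (mem_filter.2 ⟨mem_univ u, hu1⟩)
        simpa [hu2] using this
      linarith
  have ht0 : 0 < t := by omega
  have hpart1 : ∑ p : Fin n × Bool → Fin n × Bool, (∏ u, stepProb q u (p u)) *
      (∑ u ∈ T, if t ≤ (p u).1.val then (1 : ℝ) else 0) ≤ 4 * ℓ ^ 2 / t := by
    simp_rw [Finset.mul_sum]
    rw [Finset.sum_comm]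
    have : ∀ u ∈ T, ∑ p : Fin n × Bool → Fin n × Bool, (∏ u, stepProb q u (p u)) *
        (if t ≤ (p u).1.val then (1 : ℝ) else 0) ≤ 2 * ℓ / t := by
      intro u hu
      rw [resample _ u (sum_stepProb q u)]
      simp only [update_self]
      rw [← Finset.sum_mul, hw1, one_mul]
      calc _ ≤ ∑ c : Fin n × Bool, if t ≤ c.1.val then (1 / t : ℝ) else 0 := by
            refine Finset.sum_le_sum fun c _ => ?_
            split_ifs
            · rw [mul_one]
              exact stepProb_le h0 (by linarith) u c t ht0 (mem_filter.1 hu).2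
            · simp
        _ = 2 * ℓ / t := by
            rw [← Finset.sum_filter, Finset.sum_const, ← hT, hTcard]
            simp only [nsmul_eq_mul]; push_cast; ring
    refine le_trans (Finset.sum_le_card_nsmul T _ _ this) (le_of_eq ?_)
    rw [hTcard]; simp only [nsmul_eq_mul]; push_cast; ring
  have hpart2 : ∑ p : Fin n × Bool → Fin n × Bool, (∏ u, stepProb q u (p u)) *
      (‖∑ a ∈ range N, y (a / N) p‖ ^ 2 / N ^ 2) ≤ 1 / N + ρ ^ ℓ := by
    have e1 : ((∑ p : Fin n × Bool → Fin n × Bool, (∏ u, stepProb q u (p u)) *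
        ‖∑ a ∈ range N, y (a / N) p‖ ^ 2 : ℝ) : ℂ) =
        ∑ a ∈ range N, ∑ b ∈ range N, ∑ p : Fin n × Bool → Fin n × Bool,
          (∏ u, (stepProb q u (p u) : ℂ)) * y (a / N - b / N) p := by
      push_cast
      simp_rw [← Complex.mul_conj', map_sum, Finset.sum_mul_sum, hy, Finset.mul_sum]
      rw [Finset.sum_comm]
      refine Finset.sum_congr rfl fun a _ => ?_
      rw [Finset.sum_comm]
    have e2 : ∑ p : Fin n × Bool → Fin n × Bool, (∏ u, stepProb q u (p u)) *
        ‖∑ a ∈ range N, y (a / N) p‖ ^ 2 ≤ N + N ^ 2 * ρ ^ ℓ := by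
      refine le_trans (le_abs_self _) ?_
      rw [← Real.norm_eq_abs, ← Complex.norm_real, e1]
      refine le_trans (norm_sum_le _ _) ?_
      have : ∀ a ∈ range N, ‖∑ b ∈ range N, ∑ p : Fin n × Bool → Fin n × Bool,
          (∏ u, (stepProb q u (p u) : ℂ)) * y (a / N - b / N) p‖ ≤ 1 + N * ρ ^ ℓ := by
        intro a ha
        refine le_trans (norm_sum_le _ _) ?_
        calc _ ≤ ∑ b ∈ range N, ((if b = a then (1 : ℝ) else 0) + ρ ^ ℓ) := by
              refine Finset.sum_le_sum fun b hb => ?_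
              split_ifs with hab
              · have := hE (a / N - b / N) 1 zero_le_one (by
                  have := Real.cos_le_one ((a : ℝ) / N - b / N)
                  nlinarith)
                rw [one_pow] at this
                have : 0 ≤ ρ ^ ℓ := by positivity
                linarith
              · rw [zero_add]
                refine le_trans (hE _ ρ hρ0 ?_) (pow_le_pow_of_le_one hρ0 hρ1 (by omega))
                have hc : Real.cos ((a : ℝ) / N - b / N) ≤ Real.cos (1 / N) := by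
                  rw [← Real.cos_abs]
                  have ha' : (a : ℝ) < N := by exact_mod_cast mem_range.1 ha
                  have hb' : (b : ℝ) < N := by exact_mod_cast mem_range.1 hb
                  have ha0 : (0 : ℝ) ≤ a := by positivity
                  have hb0 : (0 : ℝ) ≤ b := by positivity
                  rw [← sub_div, abs_div, abs_of_pos hN0]
                  apply Real.cos_le_cos_of_nonneg_of_le_pi (by positivity)
                  · rw [div_le_iff₀ hN0, abs_le]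
                    have := Real.pi_gt_three
                    constructor <;> nlinarith
                  · apply div_le_div_of_nonneg_right _ hN0.le
                    have : (1 : ℤ) ≤ |(a : ℤ) - b| := Int.one_le_abs (by omega)
                    exact_mod_cast this
                rw [hρ]; nlinarith
          _ = 1 + N * ρ ^ ℓ := by
              rw [Finset.sum_add_distrib]
              simp [mem_range.1 ha]
      refine le_trans (Finset.sum_le_card_nsmul _ _ _ this) (le_of_eq ?_)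
      simp only [card_range, nsmul_eq_mul]; ring
    simp_rw [← mul_div_assoc]
    rw [← Finset.sum_div, div_le_iff₀ (by positivity)]
    refine le_trans e2 (le_of_eq ?_)
    field_simp
  calc _ ≤ ∑ p : Fin n × Bool → Fin n × Bool, (∏ u, stepProb q u (p u)) *
        ((∑ u ∈ T, if t ≤ (p u).1.val then (1 : ℝ) else 0) +
        ‖∑ a ∈ range N, y (a / N) p‖ ^ 2 / N ^ 2) :=
        Finset.sum_le_sum fun p _ => mul_le_mul_of_nonneg_left (hpt p) (hw p)
    _ ≤ _ := by
        simp_rw [mul_add]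
        rw [Finset.sum_add_distrib]
        linarith

end Pool.Agent.MP_ff2ec0_pr

end MrgPart2

-- ======== part 3: formerly Pool.Agent.MP_ff2ec0_pr.PartA3
section MrgPart3

/-!
A consistent test when the smaller parameter is zero.
-/

namespace Pool.Agent.MP_ff2ec0_pr

open Finset Function Classical Filter Topology

variable {n : ℕ}

/-- Half of the nodes are joined to the other half by exactly one edge. -/
def HalfCut (G : SimpleGraph (Fin n × Bool)) : Prop :=
  ∃ S : Finset (Fin n × Bool), S.card = n ∧ ∃ a ∈ S, ∃ b ∉ S, G.Adj a b ∧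
    ∀ a' ∈ S, ∀ b' ∉ S, G.Adj a' b' → a' = a ∧ b' = b

lemma HalfCut.map {G G' : SimpleGraph (Fin n × Bool)} (f : G ≃g G') (h : HalfCut G) :
    HalfCut G' := by
  obtain ⟨S, hS, a, ha, b, hb, hab, hu⟩ := h
  have hinv : ∀ x, f (f.symm x) = x := fun x => f.apply_symm_apply x
  have hmem : ∀ x, f x ∈ S.image f ↔ x ∈ S := fun x => f.injective.mem_finset_image
  refine ⟨S.image f, by rw [Finset.card_image_of_injective _ f.injective, hS], f a,
    (hmem a).2 ha, f b, fun h => hb ((hmem b).1 h), f.map_adj_iff.2 hab, ?_⟩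
  intro a' ha' b' hb' hadj
  rw [← hinv a'] at ha' hadj
  rw [← hinv b'] at hb' hadj
  have := hu _ ((hmem _).1 ha') _ (fun h => hb' ((hmem _).2 h)) (f.map_adj_iff.1 hadj)
  exact ⟨by rw [← this.1, hinv], by rw [← this.2, hinv]⟩

lemma halfCut_zero (hn : 0 < n) {p : Fin n × Bool → Fin n × Bool}
    (h : ∏ v, stepProb 0 v (p v) ≠ 0) : HalfCut (tree p) := by
  have hp := valid_of_ne_zero h
  have hty : ∀ v : Fin n × Bool, v.1.val ≠ 0 → (p v).2 = v.2 := by
    intro v hv
    have := Finset.prod_ne_zero_iff.1 h v (mem_univ v)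
    unfold stepProb at this
    by_contra hc
    simp [hv, hc] at this
  refine ⟨univ.filter fun v => v.2 = false, ?_, (⟨0, hn⟩, false), by simp, (⟨0, hn⟩, true),
    by simp, ?_, ?_⟩
  · have : (univ.filter fun v : Fin n × Bool => v.2 = false) = univ ×ˢ {false} := by
      ext ⟨i, b⟩; simp
    rw [this]; simp
  · rw [tree, SimpleGraph.fromRel_adj]
    exact ⟨by simp, Or.inl ((hp _).1 rfl)⟩
  · rintro ⟨i, b⟩ ha ⟨j, c⟩ hb hadj
    simp only [mem_filter, mem_univ, true_and, Bool.not_eq_false] at ha hb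
    subst ha hb
    rw [tree, SimpleGraph.fromRel_adj] at hadj
    rcases hadj.2 with e | e
    · by_cases hi : i.val = 0
      · have := (hp (i, false)).1 hi
        rw [e] at this
        have hji : j = i := congrArg Prod.fst this
        have : i = ⟨0, hn⟩ := Fin.ext hi
        simp [hji, this]
      · have := hty (i, false) hi
        rw [e] at this; simp at this
    · by_cases hj : j.val = 0
      · have := (hp (j, true)).1 hj
        rw [e] at this
        have hji : i = j := congrArg Prod.fst this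
        have : j = ⟨0, hn⟩ := Fin.ext hj
        simp [hji, this]
      · have := hty (j, true) hj
        rw [e] at this; simp at this

lemma cnt_of_halfCut {p : Fin n × Bool → Fin n × Bool} (hp : Valid p) (h : HalfCut (tree p)) :
    ∃ v, cnt p v n = n := by
  obtain ⟨S, hS, a, ha, b, hb, hab, hu⟩ := h
  have key : ∀ (S : Finset (Fin n × Bool)) (v : Fin n × Bool), S.card = n →
      (∀ u, u ∈ S ↔ Desc p v u) → cnt p v n = n := by
    intro S v hS hd
    unfold cnt ind
    rw [← Finset.sum_filter]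
    have : (univ.filter fun c : Fin n × Bool => c.1.val < n ∧ Desc p v c) = S := by
      ext c; simp [hd]
    rw [this]; simp [hS]
  rw [tree, SimpleGraph.fromRel_adj] at hab
  rcases hab.2 with e | e
  · exact ⟨a, key S a hS (cut_eq_desc hp S a ha (e ▸ hb) (by rw [e]; exact hu))⟩
  · refine ⟨b, key Sᶜ b ?_ (cut_eq_desc hp Sᶜ b (by simpa using hb) (by simpa [e] using ha) ?_)⟩
    · rw [card_compl, hS]; simp; omega
    · intro a' ha' b' hb' hadj
      have := hu b' (by simpa using hb') a' (by simpa using ha') hadj.symm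
      rw [e]; exact ⟨this.2, this.1⟩

lemma sum_inv_sq_tail (K m : ℕ) (hK : 0 < K) :
    ∑ i ∈ range m, (if K ≤ i then 1 / ((i : ℝ) + 1) ^ 2 else 0 : ℝ) ≤ 1 / K := by
  have hK0 : (0 : ℝ) < K := by exact_mod_cast hK
  suffices h : ∑ i ∈ range m, (if K ≤ i then 1 / ((i : ℝ) + 1) ^ 2 else 0 : ℝ) ≤
      1 / K - 1 / (max m K : ℕ) by
    have : (0 : ℝ) ≤ 1 / (max m K : ℕ) := by positivity
    linarith
  induction m with
  | zero => simp
  | succ m ih =>
    rw [Finset.sum_range_succ]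
    split_ifs with h
    · rw [max_eq_left h] at ih
      rw [max_eq_left (by omega)]
      have hm : (K : ℝ) ≤ m := by exact_mod_cast h
      have : 1 / ((m : ℝ) + 1) ^ 2 ≤ 1 / m - 1 / ((m + 1 : ℕ) : ℝ) := by
        push_cast
        rw [div_sub_div _ _ (by linarith) (by linarith), div_le_div_iff₀ (by positivity)
          (by nlinarith)]
        nlinarith
      linarith
    · rw [max_eq_right (by omega)] at ih ⊢
      linarith

lemma prob_halfCut_le {q : ℝ} (h0 : 0 ≤ q) (h1 : q ≤ 1 / 2) (t ℓ N K : ℕ)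
    (hn : n = t + ℓ) (hℓ : 4 * ℓ ≤ n) (hK : 0 < K) (hKt : K ≤ t) (hN : 0 < N) :
    prob q n HalfCut ≤ 2 * K * (4 * ℓ ^ 2 / t + 1 / N +
      (1 - q ^ 2 / 4 * (1 - Real.cos (1 / N))) ^ ℓ) + 6 / K := by
  have hw : ∀ p : Fin n × Bool → Fin n × Bool, 0 ≤ ∏ u, stepProb q u (p u) := fun p =>
    Finset.prod_nonneg fun u _ => stepProb_nonneg h0 (by linarith) _ _
  set ε := 4 * ℓ ^ 2 / t + 1 / N + (1 - q ^ 2 / 4 * (1 - Real.cos (1 / N))) ^ ℓ with hε
  have hn0 : (0 : ℝ) < n := by exact_mod_cast (by omega : 0 < n)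
  calc prob q n HalfCut ≤ ∑ p : Fin n × Bool → Fin n × Bool, ∑ v : Fin n × Bool,
        (∏ u, stepProb q u (p u)) * (if cnt p v n = n then 1 else 0) := by
        refine Finset.sum_le_sum fun p _ => ?_
        have hnn : ∀ v : Fin n × Bool, 0 ≤ (∏ u, stepProb q u (p u)) *
            (if cnt p v n = n then (1 : ℝ) else 0) := fun v =>
          mul_nonneg (hw p) (by split_ifs <;> norm_num)
        split_ifs with hc
        · by_cases hz : ∏ u, stepProb q u (p u) = 0
          · simp [hz]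
          · obtain ⟨v, hv⟩ := cnt_of_halfCut (valid_of_ne_zero hz) hc
            refine le_trans ?_ (Finset.single_le_sum (fun v _ => hnn v) (mem_univ v))
            simp [hv]
        · exact Finset.sum_nonneg fun v _ => hnn v
    _ ≤ ∑ v : Fin n × Bool, ((if v.1.val < K then ε else 0) +
        3 * (if K ≤ v.1.val then 1 / ((v.1.val : ℝ) + 1) ^ 2 else 0)) := by
        rw [Finset.sum_comm]
        refine Finset.sum_le_sum fun v _ => ?_
        by_cases hv : v.1.val < K
        · rw [if_pos hv, if_neg (by omega), mul_zero, add_zero]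
          exact anti_conc h0 h1 v t ℓ N hn hℓ (by omega) hN
        · rw [if_neg hv, if_pos (by omega), zero_add]
          have h2 := second_moment h0 (by linarith) v n v.1.isLt le_rfl
          have h3 : ∑ p : Fin n × Bool → Fin n × Bool, (∏ u, stepProb q u (p u)) *
              (if cnt p v n = n then (1 : ℝ) else 0) ≤
              (∑ p : Fin n × Bool → Fin n × Bool, (∏ u, stepProb q u (p u)) *
                (cnt p v n * (cnt p v n + 2))) / n ^ 2 := by
            rw [Finset.sum_div]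
            refine Finset.sum_le_sum fun p _ => ?_
            rw [mul_div_assoc]
            apply mul_le_mul_of_nonneg_left _ (hw p)
            have := cnt_nonneg p v n
            split_ifs with hc
            · rw [hc, le_div_iff₀ (by positivity)]; nlinarith
            · positivity
          refine le_trans h3 ?_
          rw [div_le_iff₀ (by positivity)]
          refine le_trans h2 (le_of_eq ?_)
          field_simp
    _ ≤ 2 * K * ε + 6 / K := by
        rw [Finset.sum_add_distrib, ← Finset.sum_filter, Finset.sum_const,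
          card_time_lt K (by omega), ← Finset.mul_sum, Fintype.sum_prod_type]
        simp only [Fintype.sum_bool, nsmul_eq_mul]
        rw [Finset.sum_add_distrib,
          Fin.sum_univ_eq_sum_range (fun i => if K ≤ i then 1 / ((i : ℝ) + 1) ^ 2 else 0) n]
        have := sum_inv_sq_tail K n hK
        have e : (6 : ℝ) / K = 3 * (1 / K + 1 / K) := by ring
        rw [e]
        push_cast
        linarith

lemma prob_nonneg {q : ℝ} (h0 : 0 ≤ q) (h1 : q ≤ 1) (n : ℕ)
    (E : SimpleGraph (Fin n × Bool) → Prop) : 0 ≤ prob q n E := by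
  refine Finset.sum_nonneg fun p _ => ?_
  split_ifs
  · exact Finset.prod_nonneg fun u _ => stepProb_nonneg h0 h1 _ _
  · exact le_rfl

lemma tendsto_prob_halfCut {q : ℝ} (h0 : 0 < q) (h1 : q ≤ 1 / 2) :
    Tendsto (fun n => prob q n HalfCut) atTop (𝓝 0) := by
  rw [Metric.tendsto_atTop]
  intro ε hε
  obtain ⟨K, hK⟩ := exists_nat_gt (24 / ε)
  have hK0 : (0 : ℝ) < K := lt_trans (by positivity) hK
  obtain ⟨N, hN⟩ := exists_nat_gt (8 * K / ε + 1)
  have hN1 : (1 : ℝ) < N := by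
    have : 0 ≤ 8 * (K : ℝ) / ε := by positivity
    linarith
  set ρ := 1 - q ^ 2 / 4 * (1 - Real.cos (1 / N)) with hρ
  have hρ1 : ρ < 1 := by
    have : Real.cos (1 / N : ℝ) < Real.cos 0 := by
      apply Real.cos_lt_cos_of_nonneg_of_le_pi le_rfl _ (by positivity)
      have := Real.pi_gt_three
      rw [div_le_iff₀ (by linarith)]
      nlinarith
    rw [Real.cos_zero] at this
    have : 0 < q ^ 2 / 4 * (1 - Real.cos (1 / N)) := by
      apply mul_pos (by positivity); linarith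
    linarith
  obtain ⟨ℓ, hℓ⟩ := exists_pow_lt_of_lt_one (show 0 < ε / (8 * K) by positivity) hρ1
  obtain ⟨M, hM⟩ := exists_nat_gt (32 * K * ℓ ^ 2 / ε)
  refine ⟨4 * ℓ + K + M, fun n hn => ?_⟩
  rw [Real.dist_eq, sub_zero, abs_of_nonneg (prob_nonneg h0.le (by linarith) _ _)]
  have hKpos : 0 < K := by exact_mod_cast hK0
  have h := prob_halfCut_le (n := n) h0.le h1 (n - ℓ) ℓ N K (by omega) (by omega) hKpos (by omega)
    (by exact_mod_cast (by linarith : (0 : ℝ) < N))
  refine lt_of_le_of_lt h ?_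
  have hMt : (M : ℝ) ≤ (n - ℓ : ℕ) := by exact_mod_cast (by omega : M ≤ n - ℓ)
  have ht0 : (0 : ℝ) < (n - ℓ : ℕ) := by exact_mod_cast (by omega : 0 < n - ℓ)
  have a1 : 2 * K * (4 * (ℓ : ℝ) ^ 2 / (n - ℓ : ℕ)) ≤ ε / 4 := by
    rw [div_lt_iff₀ hε] at hM
    rw [← mul_div_assoc, div_le_div_iff₀ ht0 (by norm_num)]
    nlinarith
  have a2 : 2 * K * (1 / (N : ℝ)) ≤ ε / 4 := by
    have : 8 * K / ε < N := by linarith
    rw [div_lt_iff₀ hε] at this
    rw [← mul_div_assoc, div_le_div_iff₀ (by linarith) (by norm_num)]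
    nlinarith
  have a3 : 2 * K * ρ ^ ℓ < ε / 4 := by
    rw [lt_div_iff₀ (by positivity)] at hℓ
    linarith
  have a4 : 6 / (K : ℝ) ≤ ε / 4 := by
    rw [div_lt_iff₀ hε] at hK
    rw [div_le_div_iff₀ hK0 (by norm_num)]
    nlinarith
  rw [mul_add, mul_add]
  linarith

theorem consistent_zero {q : ℝ} (h0 : 0 < q) (h1 : q ≤ 1 / 2) :
    ∃ φ : ∀ n, SimpleGraph (Fin n × Bool) → Bool, (∀ n, UnrootedInvariant (φ n)) ∧
      Tendsto (fun n => risk 0 q n (φ n)) atTop (𝓝 0) := by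
  refine ⟨fun n G => decide (¬ HalfCut G), ?_, ?_⟩
  · rintro n G G' ⟨f⟩
    have : HalfCut G ↔ HalfCut G' := ⟨HalfCut.map f, HalfCut.map f.symm⟩
    simp only [this]
  · have h := (tendsto_prob_halfCut h0 h1).div_const 2
    rw [zero_div] at h
    refine h.congr' ?_
    filter_upwards [eventually_gt_atTop 0] with n hn
    unfold risk
    have e1 : prob 0 n (fun G => decide (¬ HalfCut G) = true) = 0 := by
      refine Finset.sum_eq_zero fun p _ => ?_
      split_ifs with hc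
      · by_contra hz
        exact (of_decide_eq_true hc) (halfCut_zero hn hz)
      · rfl
    have e2 : (fun G : SimpleGraph (Fin n × Bool) => decide (¬ HalfCut G) = false) = HalfCut := by
      ext G; simp
    rw [e1, e2, zero_add]

end Pool.Agent.MP_ff2ec0_pr

end MrgPart3

-- ======== part 4: formerly Pool.Agent.MP_ff2ec0_pr.Final
section MrgPart4

/-!
Choice of the parameters and the main theorems.
-/

namespace Pool.Agent.MP_ff2ec0_pr

open Finset Function Classical Filter Topology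

lemma x_bounds {r : ℕ} {y : ℝ} (hy0 : 0 < y) (hy : r ≤ y) :
    r / y ≤ ((y + 1) ^ r - y ^ r) / y ^ r ∧ ((y + 1) ^ r - y ^ r) / y ^ r ≤ 2 * r / y := by
  have e : ((y + 1) ^ r - y ^ r) / y ^ r = (1 + 1 / y) ^ r - 1 := by
    rw [show 1 + 1 / y = (y + 1) / y by field_simp, div_pow]; field_simp
  rw [e]
  constructor
  · have := one_add_mul_le_pow (a := 1 / y) (by have : 0 < 1 / y := by positivity
                                                linarith) r
    rw [mul_one_div] at this; linarith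
  · have h1 : (1 + 1 / y) ^ r ≤ Real.exp (r / y) := by
      rw [show (r : ℝ) / y = r * (1 / y) by ring, Real.exp_nat_mul]
      exact pow_le_pow_left₀ (by positivity) (by linarith [Real.add_one_le_exp (1 / y)]) r
    have h2 : (r : ℝ) / y ≤ 1 := by rwa [div_le_one hy0]
    have h3 : 0 ≤ (r : ℝ) / y := by positivity
    have := (abs_le.1 (Real.abs_exp_sub_one_sub_id_le (x := r / y)
      (by rwa [abs_of_nonneg h3]))).2
    rw [mul_div_assoc]
    nlinarith

lemma gap_bound {z x y r : ℝ} (hz0 : 0 ≤ z) (hz1 : z ≤ 1) (hr : 4 ≤ (1 - z) * r) (hr1 : 1 ≤ r)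
    (hy : 10 * r ≤ y) (hy2 : 4 * r ^ 2 ≤ y) (hx1 : r / y ≤ x) (hx2 : x ≤ 2 * r / y) :
    (y + 1) ^ 2 / (1 + x) * Real.exp (z * x) + y ^ 2 / (2 * y) ≤ y ^ 2 := by
  have hy0 : 0 < y := by linarith
  have hx0 : 0 ≤ x := le_trans (by positivity) hx1
  have hxy : x * y ≤ 2 * r := by rwa [le_div_iff₀ hy0] at hx2
  have hxy' : r ≤ x * y := by rwa [div_le_iff₀ hy0] at hx1
  have hx5 : x ≤ 1 / 5 := by nlinarith
  have h1 : z * x ≤ x := by nlinarith
  have h2 := (abs_le.1 (Real.abs_exp_sub_one_sub_id_le (x := z * x)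
    (by rw [abs_of_nonneg (by positivity)]; linarith))).2
  have h3 : (z * x) ^ 2 ≤ x ^ 2 := pow_le_pow_left₀ (by positivity) h1 2
  have h4 : x ^ 2 * y ≤ 1 := by
    have : (x * y) ^ 2 ≤ (2 * r) ^ 2 := pow_le_pow_left₀ (by positivity) hxy 2
    by_contra hc
    push Not at hc
    nlinarith
  have h5 : 4 ≤ (1 - z) * (x * y) := hr.trans (mul_le_mul_of_nonneg_left hxy' (by linarith))
  have h6 : Real.exp (z * x) * y ≤ (1 + x) * y - 3 := by nlinarith
  rw [show y ^ 2 / (2 * y) = y / 2 by field_simp, div_mul_eq_mul_div, ← le_sub_iff_add_le,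
    div_le_iff₀ (by positivity)]
  have h7 := mul_le_mul_of_nonneg_left h6 (sq_nonneg (y + 1))
  have h8 : (y + 1) ^ 2 * ((1 + x) * y - 3) ≤ (y ^ 2 - y / 2) * (1 + x) * y := by
    nlinarith [mul_nonneg (mul_nonneg hy0.le hy0.le) (show 0 ≤ 1 / 5 - x by linarith),
      mul_nonneg hy0.le (show 0 ≤ 1 / 5 - x by linarith)]
  have h9 : (y + 1) ^ 2 * Real.exp (z * x) * y ≤ (y ^ 2 - y / 2) * (1 + x) * y := by nlinarith
  exact le_of_mul_le_mul_right h9 hy0

lemma G_bound {l x ε : ℝ} (hε : 0 < ε) (hl1 : 1 ≤ l) (hl : 432 / ε ^ 3 ≤ l) (hx : x ≤ ε / 9180) :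
    (2 * l + 1) ^ 2 * Real.exp (l * (4590 * x)) ≤ Real.exp (ε * l) := by
  have h1 := Real.pow_div_factorial_le_exp (ε * l / 2) (by positivity) 3
  have h2 : (2 * l + 1) ^ 2 ≤ (ε * l / 2) ^ 3 / (Nat.factorial 3 : ℕ) := by
    rw [div_le_iff₀ (by positivity)] at hl
    have : (ε * l / 2) ^ 3 / (Nat.factorial 3 : ℕ) = l ^ 2 * (l * ε ^ 3) / 48 := by
      simp [Nat.factorial]; ring
    rw [this]
    nlinarith [mul_le_mul_of_nonneg_left hl (sq_nonneg l)]
  calc _ ≤ Real.exp (ε * l / 2) * Real.exp (ε * l / 2) :=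
        mul_le_mul (h2.trans h1) (Real.exp_le_exp.2 (by nlinarith)) (by positivity)
          (by positivity)
    _ = _ := by rw [← Real.exp_add]; congr 1; ring

lemma tail_small {l t y lam ε w a : ℝ} (hε0 : 0 < ε) (hy1 : 1 ≤ y) (hl0 : 0 ≤ l) (hlt : l ≤ t)
    (hy3 : y ^ 3 ≤ t) (hlam0 : 0 ≤ lam) (hlam1 : lam ≤ 1 / y) (hy : 4 / ε ≤ y) (hw : w ≤ 4 * ε)
    (ha0 : 0 ≤ a) (ha : a ≤ Real.exp (ε * l)) :
    a * Real.exp (2 * l * lam ^ 2 + 2 * lam * t - 8 * ε * t) * (2 * Real.exp ((ε + w) * t)) ≤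
      1 / y ^ 2 := by
  have hy0 : 0 < y := by linarith
  have ht0 : 0 ≤ t := by linarith
  have hlam2 : lam ≤ 1 := hlam1.trans (by rw [div_le_one hy0]; exact hy1)
  rw [div_le_iff₀ hε0] at hy
  have a6 : 4 * lam ≤ ε := by
    rw [le_div_iff₀ hy0] at hlam1
    nlinarith
  have a7 : ε * l + (2 * l * lam ^ 2 + 2 * lam * t - 8 * ε * t) + (ε + w) * t ≤ -(ε * t) := by
    have := mul_le_mul_of_nonneg_right hw ht0
    have h2 : l * lam ^ 2 ≤ t * lam := mul_le_mul hlt (by nlinarith) (by positivity) ht0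
    have h3 := mul_le_mul_of_nonneg_left hlt hε0.le
    have h4 := mul_le_mul_of_nonneg_right a6 ht0
    linarith
  have a8 : 2 * y ^ 2 ≤ Real.exp (ε * t) := by
    have h2 := Real.add_one_le_exp (ε * t)
    nlinarith [mul_le_mul_of_nonneg_left hy3 hε0.le, mul_le_mul_of_nonneg_left hy (sq_nonneg y)]
  calc _ ≤ Real.exp (ε * l) * Real.exp (2 * l * lam ^ 2 + 2 * lam * t - 8 * ε * t) *
        (2 * Real.exp ((ε + w) * t)) := by gcongr
    _ = 2 * Real.exp (ε * l + (2 * l * lam ^ 2 + 2 * lam * t - 8 * ε * t) + (ε + w) * t) := by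
        rw [Real.exp_add, Real.exp_add (ε * l)]; ring
    _ ≤ 2 * Real.exp (-(ε * t)) := by gcongr
    _ ≤ _ := by
        rw [Real.exp_neg, ← div_eq_mul_inv, div_le_div_iff₀ (by positivity) (by positivity)]
        linarith

lemma exp_rec {a b s m : ℝ} (ha : 0 ≤ a) (hb : 0 ≤ b) (hs : 0 ≤ s) (hm : m ≤ Real.exp b) :
    Real.exp a * m + s ≤ Real.exp (a + b + s) := by
  have a9 : 1 ≤ Real.exp (a + b) := Real.one_le_exp (by linarith)
  have a10 := Real.add_one_le_exp s
  have := mul_le_mul_of_nonneg_left hm (Real.exp_pos a).le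
  rw [← Real.exp_add] at this
  rw [Real.exp_add (a + b)]
  nlinarith

lemma one_step {V : Type} [Fintype V] [DecidableEq V] {qf : ℕ → ℝ} {t ℓ : ℕ} {lb : V → ℕ × Bool}
    {L : (V → V) → (V → Bool) → ℝ} {θ : ℝ} {r D : ℕ} (hD : D = r + 2) (hS : Stage qf t lb L)
    (hS' : Stage qf (t + ℓ) (lbS t ℓ lb) (LS D θ L)) (hθ : |θ| ≤ 1) (hr5 : 5 ≤ r)
    (hr : 4 ≤ (1 - θ ^ 2) * r) {y κ C u ε K1 K2 K : ℝ} (htT : (t : ℝ) = y ^ r)
    (hℓT : (y + 1) ^ r = t + ℓ) (hκ0 : 0 < κ) (hκ1 : κ ≤ 1) (hκz : (1 + κ) * θ ^ 2 ≤ 1 - κ)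
    (hCκ : 18 ≤ C * κ) (hu0 : 0 ≤ u) (hε : ε = Real.exp (-u) / (32 * cXi D))
    (hCu : C * Real.exp (-((1 + κ) * u)) ≤ 4 * ε)
    (hK1 : K1 = 256 * cXi D ^ 2 * D ^ 2 + 4 * r)
    (hK2 : K2 = (2 * D + 3) ^ (2 * D + 2) * (D * (2 * r) ^ 2 + (2 * r) ^ D))
    (hK : K = 2 * (K1 + 1 + K2)) (y1 : 10 * r ≤ y) (y2 : 4 * r ^ 2 ≤ y) (y3 : 4 * r / κ ≤ y)
    (y4 : 18360 * r / ε ≤ y) (y5 : 432 / ε ^ 3 ≤ y) (y6 : 32 * cXi D * D ≤ y) (y7 : 4 / ε ≤ y)
    (y8 : 64 * K ≤ y) (hm : 1 - (1 / 64 - K / y) ≤ mass lb L)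
    (hch : Mom lb L (fun d => Real.cosh (y ^ 2 / y ^ r * d)) ≤ Real.exp (1 / 64 - K / y))
    (htail : ∀ u μ : ℝ, 0 ≤ u → |μ| ≤ Real.exp (-u) → Mom lb L (fun d => Real.exp (μ * d)) ≤
      Real.exp ((ε + C * Real.exp (-((1 + κ) * u))) * t)) :
    1 - (1 / 64 - K / (y + 1)) ≤ mass (lbS t ℓ lb) (LS D θ L) ∧
      Mom (lbS t ℓ lb) (LS D θ L) (fun d => Real.cosh ((y + 1) ^ 2 / (y + 1) ^ r * d)) ≤
        Real.exp (1 / 64 - K / (y + 1)) ∧
      ∀ u μ : ℝ, 0 ≤ u → |μ| ≤ Real.exp (-u) →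
        Mom (lbS t ℓ lb) (LS D θ L) (fun d => Real.exp (μ * d)) ≤
          Real.exp ((ε + C * Real.exp (-((1 + κ) * u))) * (t + ℓ)) := by
  have hc1 := one_le_cXi D
  generalize hc : cXi D = c at *
  have hz0 : 0 ≤ θ ^ 2 := sq_nonneg θ
  have hz1 : θ ^ 2 ≤ 1 := by rwa [sq_le_one_iff_abs_le_one]
  have hε0 : 0 < ε := by rw [hε]; positivity
  have hK10 : 0 ≤ K1 := by rw [hK1]; positivity
  have hK20 : 0 ≤ K2 := by rw [hK2]; positivity
  have hK0 : 0 ≤ K := by rw [hK]; positivity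
  have hr1 : (5 : ℝ) ≤ r := by exact_mod_cast hr5
  have hD1 : (1 : ℝ) ≤ D := by rw [hD]; push_cast; linarith
  have hy1 : 1 ≤ y := by linarith
  have hy0 : 0 < y := by linarith
  have ht0 : (0 : ℝ) < t := by rw [htT]; positivity
  have ht : 0 < t := Nat.cast_pos.1 ht0
  obtain ⟨hx1, hx2⟩ := x_bounds (r := r) hy0 (by linarith)
  rw [hℓT, ← htT, add_sub_cancel_left] at hx1 hx2
  have hl0 : (0 : ℝ) ≤ ℓ := Nat.cast_nonneg _
  have hy5 : y ^ 5 ≤ t := by rw [htT]; exact pow_le_pow_right₀ hy1 hr5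
  have hy3 : y ^ 3 ≤ t := le_trans (pow_le_pow_right₀ hy1 (by norm_num)) hy5
  have hy2 : y ^ 2 ≤ t := le_trans (pow_le_pow_right₀ hy1 (by norm_num)) hy5
  have hyt : y ≤ t := le_trans (le_self_pow₀ hy1 (by norm_num)) hy2
  have hxle : ∀ a, 0 < a → 2 * r / a ≤ y → (ℓ : ℝ) / t ≤ a := by
    intro a ha h
    refine hx2.trans ?_
    rw [div_le_iff₀ ha] at h
    rw [div_le_iff₀ hy0]; linarith only [h]
  have hx1' : (ℓ : ℝ) / t ≤ 1 := hxle 1 one_pos (by linarith only [y1, hr1])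
  have hlt : (ℓ : ℝ) ≤ t := by rwa [div_le_one ht0] at hx1'
  have hly : y ≤ ℓ := by
    rw [div_le_div_iff₀ hy0 ht0] at hx1
    apply le_of_mul_le_mul_right _ hy0
    nlinarith only [hx1, hy2, hr1, ht0]
  have hG : (2 * ℓ + 1) ^ 2 * Real.exp (ℓ * (4590 * ℓ / t)) ≤ Real.exp (ε * ℓ) := by
    rw [mul_div_assoc]
    exact G_bound hε0 (hy1.trans hly) (y5.trans hly) (hxle _ (by positivity) (by
      rwa [show 2 * r / (ε / 9180) = 18360 * r / ε by field_simp; norm_num]))
  have hKy : K / y ≤ 1 / 64 := by rw [div_le_iff₀ hy0]; linarith only [y8]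
  have hKd : K / (y + 1) + K / (2 * y ^ 2) ≤ K / y := by
    rw [← le_sub_iff_add_le', show K / y - K / (y + 1) = K / (y * (y + 1)) by
      field_simp; ring]
    exact div_le_div_of_nonneg_left hK0 (by positivity) (by nlinarith only [hy1])
  have hKs : K / (2 * y ^ 2) = K1 / y ^ 2 + 1 / y ^ 2 + K2 / y ^ 2 := by rw [hK]; field_simp
  have hp0 : 0 ≤ 1 / y ^ 2 := by positivity
  have hp1 : 0 ≤ K1 / y ^ 2 := by positivity
  have hp2 : 0 ≤ K2 / y ^ 2 := by positivity
  have hp3 : 0 ≤ K / (y + 1) := by positivity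
  rw [← htT] at hch
  rw [hℓT]
  obtain ⟨lam, hlam⟩ : ∃ lam, lam = y ^ 2 / (t : ℝ) := ⟨_, rfl⟩
  obtain ⟨lam', hlam'⟩ : ∃ lam', lam' = (y + 1) ^ 2 / ((t : ℝ) + ℓ) := ⟨_, rfl⟩
  rw [← hlam] at hch
  rw [← hlam']
  have hlam0 : 0 ≤ lam := by rw [hlam]; positivity
  have hlam1 : lam ≤ 1 / y := by
    rw [hlam, div_le_div_iff₀ ht0 hy0]; linarith only [hy3]
  have hlam2 : lam ≤ 1 := hlam1.trans (by rw [div_le_one hy0]; exact hy1)
  have hlam'0 : 0 ≤ lam' := by rw [hlam']; positivity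
  have hgap : lam' * Real.exp (θ ^ 2 * (ℓ / t)) + lam / (2 * y) ≤ lam := by
    have := gap_bound hz0 hz1 hr (by linarith only [hr1]) y1 y2 hx1 hx2
    have h2 := div_le_div_of_nonneg_right this ht0.le
    rw [hlam', hlam]
    refine le_trans (le_of_eq ?_) h2
    field_simp
  have hδ : 0 ≤ lam / (2 * y) := by positivity
  have hlam'1 : lam' ≤ 1 / y := by
    have : 1 ≤ Real.exp (θ ^ 2 * (ℓ / t)) := Real.one_le_exp (by positivity)
    have := mul_le_mul_of_nonneg_left this hlam'0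
    linarith only [this, hgap, hδ, hlam1]
  have hch' : Mom (lbS t ℓ lb) (LS D θ L) (fun d => Real.cosh (lam' * d)) ≤
      Real.exp (1 / 64 - K / (y + 1)) := by
    have hT := htail u (Real.exp (-u)) hu0 (abs_of_pos (Real.exp_pos _)).le
    have hT' := htail u (-Real.exp (-u)) hu0 (by rw [abs_neg, abs_of_pos (Real.exp_pos _)])
    have := cosh_step ht hS hθ D ℓ hlam'0 hδ hlam2 hgap (by
      rw [hc, show (lam / (2 * y)) ^ 2 * (t : ℝ) ^ 2 = y ^ 2 / 4 by rw [hlam]; field_simp; ring]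
      have : 6 * c ≤ y := by nlinarith only [y6, hc1, hD1]
      nlinarith only [this, hc1]) (by
      rw [hc]
      calc c * (8 * D * lam') ≤ c * (8 * D * (1 / y)) := by gcongr
        _ = 32 * c * D / y / 4 := by ring
        _ ≤ _ := by gcongr; rwa [div_le_one hy0]) (Real.exp_pos _).le hT hT'
    refine this.trans ?_
    have a1 : 256 * c ^ 2 * D ^ 2 * lam' ^ 2 + 2 * ℓ * lam ^ 2 ≤ K1 / y ^ 2 := by
      have a2 : lam' ^ 2 ≤ 1 / y ^ 2 := by
        rw [← one_div_pow]; exact pow_le_pow_left₀ hlam'0 hlam'1 2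
      have a3 : ℓ * lam ^ 2 ≤ 2 * r / y ^ 2 := by
        calc ℓ * lam ^ 2 = ℓ / t * (y ^ 4 / t) := by rw [hlam]; field_simp
          _ ≤ 2 * r / y * (y ^ 4 / y ^ 5) := by gcongr
          _ = _ := by field_simp
      calc _ ≤ 256 * c ^ 2 * D ^ 2 * (1 / y ^ 2) + 2 * (2 * r / y ^ 2) := by
            rw [mul_assoc 2]; gcongr
        _ = _ := by rw [hK1]; ring
    have a5 : Real.exp (-u) * (t / (4 * c)) = 8 * ε * t := by rw [hε]; field_simp; ring
    rw [hc, a5]
    have a4 := tail_small hε0 hy1 hl0 hlt hy3 hlam0 hlam1 y7 hCu (by positivity) hG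
    have a6 : 0 ≤ Mom lb L fun d => Real.cosh (lam * d) :=
      Finset.sum_nonneg fun p _ => mul_nonneg (W0_nonneg _ _)
        (Finset.sum_nonneg fun σ _ => Finset.sum_nonneg fun σ' _ => mul_nonneg
          (mul_nonneg (hS.nonneg _ _) (hS.nonneg _ _)) (Real.cosh_pos _).le)
    refine (add_le_add (mul_le_mul_of_nonneg_right (Real.exp_le_exp.2 a1) a6) a4).trans ?_
    refine (exp_rec hp1 (by linarith only [hKy]) hp0 hch).trans (Real.exp_le_exp.2 ?_)
    linarith only [hKd, hKs, hp2]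
  refine ⟨?_, hch', fun u' μ hu' hμ => ?_⟩
  · refine le_trans ?_ (hS.mass_step ht hθ D ℓ hx1')
    have a1 : (2 * D + 3) ^ (2 * D + 2) * (D * ((ℓ : ℝ) / t) ^ 2 + ℓ * ((ℓ : ℝ) / t) ^ D) ≤
        K2 / y ^ 2 := by
      calc _ ≤ (2 * D + 3) ^ (2 * D + 2) * (D * (2 * r / y) ^ 2 + t * (2 * r / y) ^ D) := by
            gcongr
        _ = _ := by
            rw [hK2, htT, div_pow, div_pow, show y ^ D = y ^ r * y ^ 2 by rw [hD, pow_add]]
            field_simp
    have a2 : 0 ≤ (2 * D + 3) ^ (2 * D + 2) *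
      (D * ((ℓ : ℝ) / t) ^ 2 + ℓ * ((ℓ : ℝ) / t) ^ D) := by positivity
    generalize (2 * D + 3) ^ (2 * D + 2) *
      (D * ((ℓ : ℝ) / t) ^ 2 + ℓ * ((ℓ : ℝ) / t) ^ D) = β at a1 a2 ⊢
    have a3 := mul_le_mul_of_nonneg_left hm
      (show 0 ≤ 1 - β by linarith only [a1, hKd, hKs, hp0, hp1, hp3, hKy])
    have a4 := mul_nonneg a2 (show 0 ≤ 1 / 64 - K / y by linarith only [hKy])
    linarith only [a1, a3, a4, hKd, hKs, hp0, hp1]
  · refine tail_step ht hS hθ D ℓ hS' (by linarith only [hκ0]) (by linarith only [hκ1]) hκ0 hκz hCκ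
      (hxle _ (by positivity) (by
        rwa [show 2 * r / (κ / 2) = 4 * r / κ by field_simp; norm_num])) hG ?_ htail u' μ hu' hμ
    refine (Mom_mono hS' fun d _ => Real.one_le_cosh (lam' * d)).trans (hch'.trans
      (Real.exp_le_exp.2 ?_))
    rw [div_le_iff₀ hε0] at y7
    have := mul_le_mul_of_nonneg_left (show y ≤ t + ℓ by linarith only [hyt, hl0]) hε0.le
    linarith only [this, y7, hp3]

lemma exists_stage {q : ℝ} (hθ : |1 - 2 * q| ≤ 1) (hz1 : (1 - 2 * q) ^ 2 < 1) {r : ℕ} (hr5 : 5 ≤ r)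
    (hr : 4 ≤ (1 - (1 - 2 * q) ^ 2) * r) :
    ∃ j0 : ℕ, ∀ j, j0 ≤ j → ∃ (V : Type) (_ : Fintype V) (_ : DecidableEq V)
      (lb : V → ℕ × Bool) (L : (V → V) → (V → Bool) → ℝ),
      Stage (fun m => if m < j0 ^ r then 1 / 2 else q) (j ^ r) lb L ∧
        1 - 1 / 64 ≤ mass lb L ∧ Mom lb L (fun _ => 1) ≤ Real.exp (1 / 64) := by
  obtain ⟨z, hz⟩ : ∃ z, z = (1 - 2 * q) ^ 2 := ⟨_, rfl⟩
  have hz0 : 0 ≤ z := hz ▸ sq_nonneg _
  rw [← hz] at hz1
  obtain ⟨D, hD⟩ : ∃ D, D = r + 2 := ⟨_, rfl⟩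
  have hc1 := one_le_cXi D
  obtain ⟨κ, hκ⟩ : ∃ κ, κ = (1 - z) / (1 + z) := ⟨_, rfl⟩
  have hκ0 : 0 < κ := by rw [hκ]; exact div_pos (by linarith) (by linarith)
  have hκ1 : κ ≤ 1 := by rw [hκ, div_le_one (by linarith)]; linarith
  have hκz : (1 + κ) * z ≤ 1 - κ := by rw [hκ]; apply le_of_eq; field_simp; ring
  obtain ⟨C, hC⟩ : ∃ C, C = 18 / κ := ⟨_, rfl⟩
  have hCκ : C * κ = 18 := by rw [hC]; field_simp
  have hC0 : 18 ≤ C := by nlinarith only [hCκ, hκ0, hκ1]
  obtain ⟨u, hu⟩ : ∃ u, u = 8 * cXi D * C / κ := ⟨_, rfl⟩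
  have hu0 : 0 ≤ u := by rw [hu]; positivity
  obtain ⟨ε, hε⟩ : ∃ ε, ε = Real.exp (-u) / (32 * cXi D) := ⟨_, rfl⟩
  have hε0 : 0 < ε := by rw [hε]; positivity
  have hCu : C * Real.exp (-((1 + κ) * u)) ≤ 4 * ε := by
    have h1 : κ * u = 8 * cXi D * C := by rw [hu]; field_simp
    have h2 := Real.add_one_le_exp (κ * u)
    have h3 : Real.exp (-((1 + κ) * u)) = Real.exp (-u) / Real.exp (κ * u) := by
      rw [← Real.exp_sub]; congr 1; ring
    rw [h3, hε, ← mul_div_assoc, ← mul_div_assoc, div_le_div_iff₀ (by positivity) (by positivity)]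
    nlinarith only [Real.exp_pos (-u), h1, h2]
  obtain ⟨K1, hK1⟩ : ∃ K1 : ℝ, K1 = 256 * cXi D ^ 2 * D ^ 2 + 4 * r := ⟨_, rfl⟩
  obtain ⟨K2, hK2⟩ : ∃ K2 : ℝ, K2 = (2 * D + 3) ^ (2 * D + 2) * (D * (2 * r) ^ 2 + (2 * r) ^ D) :=
    ⟨_, rfl⟩
  have hK10 : 0 ≤ K1 := by rw [hK1]; positivity
  have hK20 : 0 ≤ K2 := by rw [hK2]; positivity
  obtain ⟨K, hK⟩ : ∃ K : ℝ, K = 2 * (K1 + 1 + K2) := ⟨_, rfl⟩
  have hK0 : 0 ≤ K := by rw [hK]; positivity
  obtain ⟨j0, hj0⟩ := exists_nat_ge (10 * r + 4 * r ^ 2 + 4 * r / κ + 18360 * r / ε + 432 / ε ^ 3 +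
    32 * cXi D * D + 4 / ε + 64 * (K + 2))
  have b0 : 0 ≤ 10 * (r : ℝ) := by positivity
  have b1 : 0 ≤ 4 * (r : ℝ) ^ 2 := by positivity
  have b2 : 0 ≤ 4 * r / κ := by positivity
  have b3 : 0 ≤ 18360 * r / ε := by positivity
  have b4 : 0 ≤ 432 / ε ^ 3 := by positivity
  have b5 : 0 ≤ 32 * cXi D * D := by positivity
  have b6 : 0 ≤ 4 / ε := by positivity
  have key : ∀ j, j0 ≤ j → ∃ (V : Type) (_ : Fintype V) (_ : DecidableEq V)
      (lb : V → ℕ × Bool) (L : (V → V) → (V → Bool) → ℝ),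
      Stage (fun m => if m < j0 ^ r then 1 / 2 else q) (j ^ r) lb L ∧
        1 - (1 / 64 - K / j) ≤ mass lb L ∧
        Mom lb L (fun d => Real.cosh (j ^ 2 / j ^ r * d)) ≤ Real.exp (1 / 64 - K / j) ∧
        ∀ u μ : ℝ, 0 ≤ u → |μ| ≤ Real.exp (-u) → Mom lb L (fun d => Real.exp (μ * d)) ≤
          Real.exp ((ε + C * Real.exp (-((1 + κ) * u))) * (j ^ r : ℕ)) := by
    intro j hj
    induction j, hj using Nat.le_induction with
    | base =>
      have hy : 64 * (K + 2) ≤ j0 := by linarith only [hj0, b0, b1, b2, b3, b4, b5, b6]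
      have hy0 : (1 : ℝ) ≤ j0 := by linarith only [hy, hK0]
      have hKy : (K + 2) / j0 ≤ 1 / 64 := by
        rw [div_le_iff₀ (by linarith only [hy0])]; linarith only [hy]
      rw [add_div] at hKy
      have h2 : (0 : ℝ) ≤ 2 / j0 := by positivity
      refine ⟨_, _, _, lb0 _, L0 _, stage_start _ _ fun m hm => if_pos hm, ?_, ?_, ?_⟩
      · rw [mass_start]; linarith only [hKy, h2]
      · have h3 : 2 * ((j0 : ℝ) ^ 2 / j0 ^ r) ^ 2 * (j0 ^ r : ℕ) ≤ 1 / 64 - K / j0 := by
          have h4 : (j0 : ℝ) ^ 5 ≤ j0 ^ r := pow_le_pow_right₀ hy0 hr5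
          have h5 : 2 * ((j0 : ℝ) ^ 2 / j0 ^ r) ^ 2 * (j0 ^ r : ℕ) = 2 * j0 ^ 4 / j0 ^ r := by
            push_cast; field_simp
          have h6 : 2 * (j0 : ℝ) ^ 4 / j0 ^ r ≤ 2 * j0 ^ 4 / j0 ^ 5 := by gcongr
          have h7 : 2 * (j0 : ℝ) ^ 4 / j0 ^ 5 = 2 / j0 := by field_simp
          linarith only [h5, h6, h7, hKy]
        have a1 := mom_start (j0 ^ r) (j0 ^ 2 / j0 ^ r)
        have a2 := mom_start (j0 ^ r) (-(j0 ^ 2 / j0 ^ r))
        rw [neg_sq] at a2
        have a3 := Real.exp_le_exp.2 h3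
        rw [Mom_cosh]; linarith only [a1, a2, a3]
      · intro u μ hu hμ
        refine (mom_start _ _).trans (Real.exp_le_exp.2
          (mul_le_mul_of_nonneg_right ?_ (Nat.cast_nonneg _)))
        have a1 : μ ^ 2 ≤ Real.exp (-u) ^ 2 := by
          rw [← sq_abs]; exact pow_le_pow_left₀ (abs_nonneg _) hμ 2
        have a2 : Real.exp (-u) ^ 2 ≤ Real.exp (-((1 + κ) * u)) := by
          rw [← Real.exp_nat_mul, Real.exp_le_exp]; push_cast; nlinarith only [hu, hκ1]
        nlinarith only [Real.exp_pos (-((1 + κ) * u)), a1, a2, hC0, hε0]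
    | succ j hj ih =>
      obtain ⟨V, _, _, lb, L, hS, hm, hch, htail⟩ := ih
      have hjy : (j0 : ℝ) ≤ j := by exact_mod_cast hj
      have hjp : 0 < j := Nat.cast_pos.1 (by
        linarith only [hjy, hj0, b0, b1, b2, b3, b4, b5, b6, hK0] : (0 : ℝ) < j)
      obtain ⟨ℓ, hℓ⟩ : ∃ ℓ, (j + 1) ^ r = j ^ r + ℓ :=
        Nat.exists_eq_add_of_le (Nat.pow_le_pow_left (by omega) r)
      have hS' := hS.step (by positivity) (fun m hm =>
        if_neg (not_lt.2 ((Nat.pow_le_pow_left hj r).trans hm))) hθ D ℓ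
      have := one_step hD hS hS' hθ hr5 hr (y := j) (by push_cast; rfl) (by exact_mod_cast hℓ)
        hκ0 hκ1 (hz ▸ hκz) hCκ.ge hu0 hε hCu hK1 hK2 hK
        (by linarith only [hjy, hj0, b0, b1, b2, b3, b4, b5, b6, hK0])
        (by linarith only [hjy, hj0, b0, b1, b2, b3, b4, b5, b6, hK0])
        (by linarith only [hjy, hj0, b0, b1, b2, b3, b4, b5, b6, hK0])
        (by linarith only [hjy, hj0, b0, b1, b2, b3, b4, b5, b6, hK0])
        (by linarith only [hjy, hj0, b0, b1, b2, b3, b4, b5, b6, hK0])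
        (by linarith only [hjy, hj0, b0, b1, b2, b3, b4, b5, b6, hK0])
        (by linarith only [hjy, hj0, b0, b1, b2, b3, b4, b5, b6, hK0])
        (by linarith only [hjy, hj0, b0, b1, b2, b3, b4, b5, b6, hK0]) hm hch htail
      refine ⟨V ⊕ (Fin ℓ × Bool), inferInstance, inferInstance, lbS (j ^ r) ℓ lb,
        LS D (1 - 2 * q) L, hℓ ▸ hS', ?_⟩
      rw [hℓ]
      simpa only [Nat.cast_add, Nat.cast_one] using this
  refine ⟨j0, fun j hj => ?_⟩
  obtain ⟨V, _, _, lb, L, hS, hm, hch, _⟩ := key j hj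
  have : 0 ≤ K / j := by positivity
  exact ⟨V, _, _, lb, L, hS, by linarith only [hm, this],
    (Mom_mono hS fun d _ => Real.one_le_cosh _).trans
      (hch.trans (Real.exp_le_exp.2 (by linarith only [this])))⟩

lemma key_lower {q : ℝ} (h0 : 0 < q) (h1 : q ≤ 1 / 2) {r : ℕ} (hr5 : 5 ≤ r)
    (hr : 4 ≤ (1 - (1 - 2 * q) ^ 2) * r) :
    ∃ a : ℝ, 0 < a ∧ ∃ j0 : ℕ, ∀ j, j0 ≤ j → ∀ φ : SimpleGraph (Fin (j ^ r) × Bool) → Bool,
      RootedInvariant φ → ∀ b, a * (prob (1 / 2) (j ^ r) (fun G => φ G = b) - 1 / 4) ≤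
        prob q (j ^ r) fun G => φ G = b := by
  obtain ⟨j0, h⟩ := exists_stage (q := q) (abs_le.2 ⟨by linarith, by linarith⟩) (by nlinarith)
    hr5 hr
  refine ⟨(2 * q) ^ (2 * j0 ^ r), by positivity, j0, fun j hj φ hφ b => ?_⟩
  obtain ⟨V, _, _, lb, L, hS, hm, hM⟩ := h j hj
  exact contig h0.le h1 (Nat.pow_le_pow_left hj r) hS hm hM φ hφ b

lemma prob_add (q : ℝ) (n : ℕ) (φ : SimpleGraph (Fin n × Bool) → Bool) :
    prob q n (fun G => φ G = true) + prob q n (fun G => φ G = false) = 1 := by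
  rw [← sum_prod_eq_one (fun (v c : Fin n × Bool) => stepProb q v c) (sum_stepProb _), prob, prob,
    ← Finset.sum_add_distrib]
  refine Finset.sum_congr rfl fun p _ => ?_
  cases φ (tree p) <;> simp

theorem not_consistent {q₀ q₁ : ℝ} (h0 : 0 < q₀) (h01 : q₀ < q₁) (h1 : q₁ ≤ 1 / 2)
    (φ : ∀ n, SimpleGraph (Fin n × Bool) → Bool) (hφ : ∀ n, RootedInvariant (φ n)) :
    ¬ Tendsto (fun n => risk q₀ q₁ n (φ n)) atTop (𝓝 0) := by
  intro hT
  have hz : 0 < 1 - (1 - 2 * q₀) ^ 2 := by nlinarith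
  obtain ⟨r, hr⟩ := exists_nat_ge (5 + 4 / (1 - (1 - 2 * q₀) ^ 2))
  have hp : 0 < 4 / (1 - (1 - 2 * q₀) ^ 2) := by positivity
  have hr5 : 5 ≤ r := by
    have : (5 : ℝ) ≤ r := by linarith
    exact_mod_cast this
  have hr0 : 4 ≤ (1 - (1 - 2 * q₀) ^ 2) * r := by
    have : 4 / (1 - (1 - 2 * q₀) ^ 2) ≤ r := by linarith
    rw [div_le_iff₀ hz] at this; linarith
  have hr1 : 4 ≤ (1 - (1 - 2 * q₁) ^ 2) * r :=
    hr0.trans (mul_le_mul_of_nonneg_right (by nlinarith) (Nat.cast_nonneg _))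
  obtain ⟨a0, ha0, j0, k0⟩ := key_lower h0 (by linarith) hr5 hr0
  obtain ⟨a1, ha1, j1, k1⟩ := key_lower (h0.trans h01) h1 hr5 hr1
  have hT' := hT.comp (tendsto_pow_atTop (α := ℕ) (n := r) (by omega))
  have hev := (hT'.eventually (gt_mem_nhds (show 0 < min a0 a1 / 8 by positivity))).and
    ((eventually_ge_atTop j0).and (eventually_ge_atTop j1))
  obtain ⟨j, hj, hj0, hj1⟩ := hev.exists
  have b0 := k0 j hj0 _ (hφ _) true
  have b1 := k1 j hj1 _ (hφ _) false
  have b2 := prob_add (1 / 2) (j ^ r) (φ _)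
  have b3 := prob_nonneg h0.le (by linarith) (j ^ r) fun G => φ _ G = true
  have b4 := prob_nonneg (h0.trans h01).le (by linarith) (j ^ r) fun G => φ _ G = false
  have b5 := min_le_left a0 a1
  have b6 := min_le_right a0 a1
  simp only [Function.comp, risk] at hj
  rcases le_total (1 / 2) (prob (1 / 2) (j ^ r) fun G => φ _ G = true) with h | h
  · nlinarith
  · nlinarith

end Pool.Agent.MP_ff2ec0_pr

end MrgPart4

-- marker of a merged file
example : 731051 + 888310 = 731051 + 888310 := rfl
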